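import Mathlib
import Pool.Agent.R457.CP.Defs

/-!
# MP_1a41ac_nt: certificates in prime fields (helper179)
-/

set_option autoImplicit false

namespace R457.CP.CertP

/-- binary modular power -/
def pm (q : ℕ) : ℕ → ℕ → ℕ → ℕ
  | 0, _, _ => 1
  | f + 1, b, e =>
      bif Nat.beq e 0 then 1 else
        bif Nat.beq (e % 2) 1 then b * pm q f (b * b % q) (e / 2) % q
        else pm q f (b * b % q) (e / 2)

theorem natCast_mod {R : Type*} [CommRing R] {q : ℕ} (hq : (q : R) = 0) (a : ℕ) :
    ((a % q : ℕ) : R) = a := by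
  conv_rhs => rw [← Nat.mod_add_div a q]
  push_cast
  rw [hq]; ring

theorem pm_cast {R : Type*} [CommRing R] {q : ℕ} (hq : (q : R) = 0) :
    ∀ f b e : ℕ, e < 2 ^ f → ((pm q f b e : ℕ) : R) = (b : R) ^ e := by
  intro f
  induction f with
  | zero =>
    intro b e he
    have : e = 0 := by simpa using he
    subst this
    simp [pm]
  | succ f ih =>
    intro b e he
    unfold pm
    cases h0 : Nat.beq e 0 with
    | true =>
      have : e = 0 := Nat.eq_of_beq_eq_true h0
      subst this
      simp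
    | false =>
      have he2 : e / 2 < 2 ^ f := by
        rw [pow_succ] at he; omega
      have h2 := ih (b * b % q) (e / 2) he2
      rw [natCast_mod hq] at h2
      cases h1 : Nat.beq (e % 2) 1 with
      | true =>
        have h1' : e % 2 = 1 := Nat.eq_of_beq_eq_true h1
        simp only [cond_false, cond_true]
        rw [natCast_mod hq]
        push_cast
        rw [h2]
        push_cast
        conv_rhs => rw [show e = 1 + 2 * (e / 2) by omega]
        rw [pow_add, pow_mul]
        ring
      | false =>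
        have h1' : e % 2 ≠ 1 := Nat.ne_of_beq_eq_false h1
        simp only [cond_false]
        rw [h2]
        push_cast
        conv_rhs => rw [show e = 2 * (e / 2) by omega]
        rw [pow_mul]
        ring

/-- the primes up to 241 -/
def prs : List ℕ := [
  2, 3, 5, 7, 11, 13, 17, 19, 23, 29, 31, 37, 41, 43, 47, 53, 59, 61, 67, 71, 73, 79, 83, 89,
  97, 101, 103, 107, 109, 113, 127, 131, 137, 139, 149, 151, 157, 163, 167, 173, 179, 181, 191,
  193, 197, 199, 211, 223, 227, 229, 233, 239, 241]

theorem prs_prime : ∀ p ∈ prs, p.Prime := by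
  unfold prs
  simp only [List.mem_cons, List.not_mem_nil, or_false, forall_eq_or_imp, forall_eq]
  norm_num

/-- `q - 1` has only prime factors in the table, and `2 ≤ q ≤ 2 ^ 21` -/
def cover (q : ℕ) : Bool :=
  Nat.ble 2 q && (Nat.ble q 2097152 &&
    Nat.beq ((((prs.filter fun p => Nat.beq ((q - 1) % p) 0).foldr (fun a b => a * b) 1) ^ 21) % (q - 1)) 0)

/-- `x` is a primitive root modulo `q` -/
def prim (q x : ℕ) : Bool :=
  Nat.beq (pm q 21 x (q - 1) % q) 1 &&
    prs.all fun p => !(Nat.beq ((q - 1) % p) 0) || !(Nat.beq (pm q 21 x ((q - 1) / p) % q) 1)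

theorem cover_spec {q : ℕ} (h : cover q = true) :
    2 ≤ q ∧ q ≤ 2097152 ∧ ∀ p : ℕ, p.Prime → p ∣ q - 1 → p ∈ prs := by
  unfold cover at h
  rw [Bool.and_eq_true, Bool.and_eq_true] at h
  obtain ⟨h1, h2, h3⟩ := h
  refine ⟨Nat.le_of_ble_eq_true h1, Nat.le_of_ble_eq_true h2, ?_⟩
  intro p hp hd
  have h4 := Nat.eq_of_beq_eq_true h3
  have h5 := (hd.trans (Nat.dvd_of_mod_eq_zero h4))
  have h6 := hp.dvd_of_dvd_pow h5
  have key : ∀ l : List ℕ, (∀ a ∈ l, a.Prime) → p ∣ l.foldr (fun a b => a * b) 1 → p ∈ l := by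
    intro l
    induction l with
    | nil =>
      intro _ h
      simp at h
      exact absurd h hp.one_lt.ne'
    | cons a l ih =>
      intro hl h
      rw [List.foldr_cons] at h
      rcases (Nat.Prime.dvd_mul hp).1 h with h | h
      · have := (Nat.prime_dvd_prime_iff_eq hp (hl a (by simp))).1 h
        simp [this]
      · exact List.mem_cons_of_mem _ (ih (fun b hb => hl b (List.mem_cons_of_mem _ hb)) h)
  have h7 := key _ (fun a ha => prs_prime a (List.mem_of_mem_filter ha)) h6
  exact List.mem_of_mem_filter h7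

theorem prim_spec {q : ℕ} (hc : cover q = true) {x : ℕ} (h : prim q x = true)
    {R : Type*} [CommRing R] [CharP R q] :
    (x : R) ^ (q - 1) = 1 ∧ ∀ p : ℕ, p.Prime → p ∣ q - 1 → (x : R) ^ ((q - 1) / p) ≠ 1 := by
  obtain ⟨h2, h21, hcov⟩ := cover_spec hc
  have hq : (q : R) = 0 := CharP.cast_eq_zero R q
  unfold prim at h
  rw [Bool.and_eq_true] at h
  obtain ⟨ha, hb⟩ := h
  have ha' := Nat.eq_of_beq_eq_true ha
  constructor
  · rw [← pm_cast hq 21 x (q - 1) (by norm_num; omega)]
    rw [← natCast_mod hq, ha']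
    simp
  · intro p hp hd
    rw [List.all_eq_true] at hb
    have h3 := hb p (hcov p hp hd)
    have h4 : (q - 1) % p = 0 := Nat.mod_eq_zero_of_dvd hd
    rw [h4] at h3
    have h5 : Nat.beq (pm q 21 x ((q - 1) / p) % q) 1 = false := by
      simpa using h3
    have h6 := Nat.ne_of_beq_eq_false h5
    have h7 : (q - 1) / p < 2 ^ 21 := lt_of_le_of_lt (Nat.div_le_self _ _) (by norm_num; omega)
    rw [← pm_cast hq 21 x _ h7]
    intro h8
    apply h6
    have h9 : ((pm q 21 x ((q - 1) / p) : ℕ) : R) = ((1 : ℕ) : R) := by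
      rw [h8]; simp
    have h10 := (CharP.natCast_eq_natCast R q).1 h9
    have h11 : (1 : ℕ) % q = 1 := Nat.mod_eq_of_lt (by omega)
    exact (show pm q 21 x ((q - 1) / p) % q = 1 % q from h10).trans h11

theorem prime_of_prim {q : ℕ} (hc : cover q = true) {x : ℕ} (h : prim q x = true) : q.Prime := by
  have := prim_spec hc h (R := ZMod q)
  exact lucas_primality q (x : ZMod q) this.1 this.2

theorem prim_field {q : ℕ} (hc : cover q = true) {x : ℕ} (h : prim q x = true)
    (F : Type*) [Field F] [Fintype F] (hF : Fintype.card F = q) : Prim (x : F) := by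
  have : Fact q.Prime := ⟨prime_of_prim hc h⟩
  have : CharP F q := charP_of_card_eq_prime hF
  have := prim_spec hc h (R := F)
  unfold Prim
  rw [hF]
  apply orderOf_eq_of_pow_and_pow_div_prime _ this.1 this.2
  have := (cover_spec hc).1
  omega

theorem beqf {a b : ℕ} (h : a ≠ b) : Nat.beq a b = false := by
  cases hb : Nat.beq a b with
  | true => exact absurd (Nat.eq_of_beq_eq_true hb) h
  | false => rfl

/-- the four exceptional cases -/
def exc4 (q : ℕ) : Bool := Nat.beq q 5 || (Nat.beq q 13 || (Nat.beq q 61 || Nat.beq q 181))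

/-- check of a table entry -/
def okT (t : ℕ × ℕ) : Bool :=
  exc4 t.1 || (cover t.1 && (prim t.1 (1 + t.2 * t.2) && prim t.1 (t.2 * t.2 * (t.1 - 1) + 1)))

/-- the table -/
def tab : List (ℕ × ℕ) := [
  (5, 0), (13, 0), (17, 2), (29, 3), (37, 4), (41, 4), (53, 2), (61, 0), (73, 10), (89, 5),
  (97, 4), (101, 7), (109, 11), (113, 2), (137, 2), (149, 3), (157, 5), (173, 2), (181, 0),
  (193, 4), (197, 2), (229, 8), (233, 2), (241, 6), (269, 3), (277, 10), (281, 5), (313, 4),
  (337, 10), (349, 14), (373, 5), (397, 18), (401, 4), (409, 6), (421, 12), (433, 8),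
  (457, 10), (461, 3), (521, 4), (541, 14), (577, 9), (601, 12), (613, 22), (617, 2), (661, 6),
  (673, 10), (701, 3), (709, 17), (733, 10), (757, 6), (761, 5), (821, 3), (829, 5), (853, 9),
  (877, 9), (881, 4), (937, 9), (941, 3), (953, 2), (997, 8), (1009, 20), (1013, 2), (1021, 6),
  (1033, 16), (1061, 7), (1069, 5), (1093, 13), (1117, 9), (1129, 33), (1181, 7), (1201, 22),
  (1213, 5), (1237, 17), (1249, 39), (1277, 2), (1289, 5), (1301, 3), (1321, 8), (1361, 6),
  (1381, 11), (1429, 12), (1453, 5), (1481, 10), (1489, 8), (1549, 13), (1597, 16), (1609, 6),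
  (1621, 44), (1657, 10), (1669, 11), (1693, 5), (1741, 5), (1753, 12), (1777, 8), (1789, 13),
  (1801, 25), (1861, 40), (1873, 11), (1933, 13), (1993, 10), (2017, 6), (2029, 19), (2053, 6),
  (2089, 15), (2113, 20), (2137, 11), (2161, 37), (2221, 18), (2269, 20), (2281, 8),
  (2293, 16), (2341, 16), (2377, 12), (2381, 23), (2437, 6), (2521, 34), (2689, 20),
  (2857, 14), (2861, 3), (3001, 14), (3037, 18), (3061, 18), (3109, 17), (3121, 50),
  (3181, 10), (3221, 14), (3301, 5), (3361, 16), (3433, 8), (3541, 20), (3613, 14), (3697, 25),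
  (3877, 8), (4021, 5), (4093, 18), (4201, 66), (4261, 6), (4421, 7), (4441, 21), (4561, 18),
  (4621, 48), (4789, 33), (4957, 4), (5101, 19), (5209, 12), (5237, 2), (5281, 61), (5413, 4),
  (5521, 6), (5581, 5), (5641, 32), (5701, 14), (5741, 3), (5821, 5), (5881, 21), (5981, 14),
  (6073, 30), (6121, 12), (6133, 5), (6217, 9), (6301, 28), (6361, 22), (6397, 50), (6421, 72),
  (6469, 14), (6553, 9), (6581, 21), (6637, 6), (6661, 11), (6709, 11), (6733, 9), (6781, 27),
  (6841, 21), (6917, 2), (6961, 14), (6997, 4), (7069, 6), (7177, 21), (7309, 15), (7321, 51),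
  (7333, 5), (7393, 9), (7477, 10), (7481, 5), (7541, 3), (7549, 5), (7561, 12), (7621, 5),
  (7741, 14), (7753, 16), (7789, 6), (8053, 4), (8161, 29), (8221, 8), (8269, 23), (8317, 5),
  (8461, 16), (8521, 22), (8581, 21), (8681, 20), (8737, 6), (8761, 20), (8821, 19), (8893, 9),
  (8941, 13), (9049, 13), (9109, 39), (9157, 13), (9181, 12), (9241, 33), (9349, 10),
  (9421, 6), (9521, 10), (9661, 14), (9769, 22), (9781, 42), (9829, 5), (9901, 21), (10141, 5),
  (10321, 15), (10333, 4), (10429, 20), (10453, 5), (10501, 11), (10837, 15), (10861, 11),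
  (10957, 6), (11161, 10), (11173, 41), (11257, 35), (11353, 8), (11593, 29), (11677, 9),
  (11701, 19), (11821, 41), (11941, 18), (12241, 12), (12301, 5), (12421, 16), (12433, 29),
  (12517, 17), (12541, 15), (12601, 28), (12721, 37), (12781, 8), (12841, 27), (12853, 9),
  (13381, 48), (13441, 21), (13681, 67), (13921, 45), (14197, 10), (14221, 21), (14281, 118),
  (14341, 16), (14461, 60), (14821, 37), (15121, 21), (15541, 44), (15601, 27), (16381, 5),
  (18061, 16), (18481, 12), (19141, 54), (19381, 10), (20021, 27), (20749, 30), (21841, 24),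
  (22441, 22), (22621, 29), (24181, 17), (24421, 8), (24781, 11), (25117, 9), (25621, 15),
  (25741, 103), (26041, 22), (27061, 18), (29173, 34), (29581, 37), (29641, 12), (30661, 16),
  (30941, 3), (31081, 14), (31981, 19), (32341, 50), (33181, 50), (34981, 19), (36037, 5),
  (36541, 24), (36709, 15), (38281, 46), (39733, 34), (39901, 19), (41341, 40), (41413, 18),
  (42181, 43), (42841, 18), (42901, 83), (43261, 11), (44221, 17), (44269, 21), (44773, 5),
  (45541, 6), (46021, 53), (46861, 5), (46957, 13), (47581, 5), (47881, 78), (48049, 73),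
  (48973, 28), (49477, 4), (50821, 20), (51061, 11), (51241, 33), (51481, 39), (51613, 5),
  (52081, 21), (52837, 12), (53197, 15), (53593, 6), (54121, 60), (54181, 20), (54517, 36),
  (54601, 35), (55021, 24), (55381, 30), (55441, 62), (56101, 11), (56941, 30), (58549, 5),
  (58741, 21), (59053, 12), (59221, 29), (59281, 20), (59341, 5), (60901, 30), (61381, 21),
  (61909, 15), (62581, 13), (62701, 18), (63241, 10), (63421, 11), (63841, 18), (64381, 13),
  (65101, 13), (65521, 68), (66301, 13), (66361, 35), (68881, 24), (70141, 12), (70381, 42),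
  (70621, 8), (70981, 5), (71761, 40), (71821, 32), (72661, 10), (74101, 11), (74761, 22),
  (75181, 14), (76441, 28), (78121, 10), (78541, 63), (79801, 18), (81901, 16), (92401, 47),
  (92821, 13), (106261, 29), (120121, 70), (133981, 5), (135661, 13), (145861, 44),
  (157081, 18), (158341, 19), (163021, 19), (180181, 5), (185641, 90), (189421, 16),
  (197341, 53), (202021, 16), (207061, 11), (207481, 12), (213181, 12), (234781, 5),
  (235621, 32), (244861, 39), (247381, 53), (248821, 17), (251941, 58), (258061, 6),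
  (267961, 92), (272581, 16), (276277, 4), (289381, 32), (291721, 29), (300301, 13),
  (304981, 11), (309541, 17), (314161, 56), (316681, 21), (318781, 39), (337261, 15),
  (343141, 56), (351121, 48), (357421, 32), (371281, 44), (420421, 5), (1381381, 103),
  (1492261, 80), (1741741, 184), (1806421, 12), (1861861, 5)]

theorem tab_ok : tab.all okT = true := by decide +kernel

theorem tab_map : tab.map Prod.fst = excP := by decide +kernel

/-- no repetition -/
def nd : List ℕ → Bool
  | [] => true
  | a :: l => (l.all fun b => !(Nat.beq a b)) && nd l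

theorem nd_spec : ∀ l : List ℕ, nd l = true → l.Nodup := by
  intro l
  induction l with
  | nil => intro _; exact List.nodup_nil
  | cons a l ih =>
    intro h
    unfold nd at h
    rw [Bool.and_eq_true, List.all_eq_true] at h
    rw [List.nodup_cons]
    refine ⟨?_, ih h.2⟩
    intro ha
    have := h.1 a ha
    simp at this

/-- check of a cycle -/
def cycOk (q : ℕ) (L : List ℕ) : Bool :=
  cover q && (Nat.beq L.length (q - 1) && (nd L && ((L.all fun a => Nat.ble 1 a && Nat.ble (a + 1) q) &&
    (((List.range (q - 2)).all fun i => prim q (L.getD i 0 * L.getD (i + 1) 0 + 1)) &&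
      prim q (L.getD (q - 2) 0 * L.getD 0 0 + 1)))))

theorem cyc_of_ok {q : ℕ} {L : List ℕ} (h : cycOk q L = true) (F : Type*) [Field F] [Fintype F]
    (hF : Fintype.card F = q) : HasCyc F := by
  unfold cycOk at h
  simp only [Bool.and_eq_true] at h
  obtain ⟨hc, hlen, hnd, hall, hadj, hlast⟩ := h
  have hlen' : L.length = q - 1 := Nat.eq_of_beq_eq_true hlen
  have hnd' := nd_spec L hnd
  have : Fact q.Prime := ⟨prime_of_prim hc hlast⟩
  have : CharP F q := charP_of_card_eq_prime hF
  have hall' : ∀ a ∈ L, 1 ≤ a ∧ a < q := by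
    intro a ha
    have := (List.all_eq_true.1 hall) a ha
    rw [Bool.and_eq_true] at this
    exact ⟨Nat.le_of_ble_eq_true this.1, Nat.le_of_ble_eq_true this.2⟩
  have hget : ∀ i (hi : i < q - 1), L.getD i 0 = L[i]'(by omega) := by
    intro i hi
    exact List.getD_eq_getElem L 0 (by omega)
  refine ⟨fun i => ((L.getD i 0 : ℕ) : F), ?_, ?_, ?_, ?_⟩
  · intro i hi
    rw [hF] at hi
    simp only
    rw [hget i hi]
    have h1 := hall' (L[i]'(by omega)) (List.getElem_mem _)
    intro h0
    have h2 := (CharP.cast_eq_zero_iff F q _).1 h0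
    have h3 := Nat.le_of_dvd (by omega) h2
    omega
  · intro i j hi hj hij
    rw [hF] at hi hj
    simp only at hij
    rw [hget i hi, hget j hj] at hij
    have h1 := hall' (L[i]'(by omega)) (List.getElem_mem _)
    have h2 := hall' (L[j]'(by omega)) (List.getElem_mem _)
    have h3 := (CharP.natCast_eq_natCast F q).1 hij
    have h4 : L[i]'(by omega) = L[j]'(by omega) := by
      have := h3
      unfold Nat.ModEq at this
      rwa [Nat.mod_eq_of_lt h1.2, Nat.mod_eq_of_lt h2.2] at this
    exact (List.Nodup.getElem_inj_iff hnd').1 h4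
  · intro i hi
    rw [hF] at hi
    have h1 := (List.all_eq_true.1 hadj) i (List.mem_range.2 (by omega))
    have h2 := prim_field hc h1 F hF
    push_cast at h2
    exact h2
  · have h2 := prim_field hc hlast F hF
    push_cast at h2
    rw [hF]
    exact h2

def c13 : List ℕ := [
  3, 2, 7, 10, 4, 9, 5, 1, 6, 11, 8, 12]

def c61 : List ℕ := [
  9, 10, 20, 21, 34, 42, 22, 47, 24, 58, 15, 6, 26, 3, 41, 29, 46, 4, 45, 60, 11, 56, 55, 50,
  14, 36, 52, 5, 35, 12, 16, 57, 23, 31, 18, 59, 30, 43, 2, 8, 13, 7, 53, 38, 33, 39, 17, 44,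
  37, 32, 49, 27, 19, 48, 40, 54, 51, 28, 25, 1]

def c181 : List ℕ := [
  35, 147, 23, 63, 26, 137, 118, 124, 168, 91, 53, 18, 135, 4, 111, 115, 152, 1, 114, 65, 68,
  164, 37, 79, 8, 7, 12, 161, 9, 109, 55, 125, 15, 136, 82, 153, 134, 160, 58, 105, 89, 56,
  151, 81, 3, 146, 34, 60, 11, 44, 43, 123, 112, 22, 19, 167, 143, 51, 162, 148, 175, 107, 94,
  122, 46, 77, 36, 33, 6, 69, 93, 85, 75, 45, 76, 54, 99, 13, 139, 29, 25, 61, 170, 27, 50,
  132, 21, 171, 41, 129, 92, 74, 38, 17, 178, 140, 96, 14, 59, 138, 101, 173, 88, 145, 48, 106,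
  165, 64, 174, 10, 119, 95, 142, 163, 72, 157, 156, 121, 5, 86, 103, 67, 176, 73, 149, 117,
  71, 141, 98, 66, 39, 42, 32, 47, 116, 130, 177, 70, 20, 104, 2, 169, 80, 84, 57, 154, 131,
  49, 166, 16, 100, 128, 90, 31, 108, 172, 110, 126, 28, 120, 97, 52, 155, 150, 40, 83, 24,
  144, 159, 180, 113, 102, 62, 179, 158, 127, 30, 87, 78, 133]

theorem c13_ok : cycOk 13 c13 = true := by decide +kernel

theorem c61_ok : cycOk 61 c61 = true := by decide +kernel

theorem c181_ok : cycOk 181 c181 = true := by decide +kernel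

theorem certP (F : Type*) [Field F] [Fintype F] (hq : Fintype.card F ∈ excP)
    (h5 : Fintype.card F ≠ 5) (h13 : Fintype.card F ≠ 13) (h61 : Fintype.card F ≠ 61)
    (h181 : Fintype.card F ≠ 181) : ∃ c : F, Prim (1 + c ^ 2) ∧ Prim (1 - c ^ 2) := by
  rw [← tab_map, List.mem_map] at hq
  obtain ⟨t, ht, hte⟩ := hq
  have h := (List.all_eq_true.1 tab_ok) t ht
  unfold okT at h
  have hex : exc4 t.1 = false := by
    rw [hte]
    unfold exc4
    have a1 : Nat.beq (Fintype.card F) 5 = false := beqf h5
    have a2 : Nat.beq (Fintype.card F) 13 = false := beqf h13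
    have a3 : Nat.beq (Fintype.card F) 61 = false := beqf h61
    have a4 : Nat.beq (Fintype.card F) 181 = false := beqf h181
    rw [a1, a2, a3, a4]
    rfl
  rw [hex, Bool.false_or, Bool.and_eq_true, Bool.and_eq_true] at h
  obtain ⟨hc, h1, h2⟩ := h
  have : Fact t.1.Prime := ⟨prime_of_prim hc h1⟩
  have h1' := prim_field hc h1 F hte.symm
  have h2' := prim_field hc h2 F hte.symm
  have h2q := (cover_spec hc).1
  have : CharP F t.1 := charP_of_card_eq_prime hte.symm
  refine ⟨((t.2 : ℕ) : F), ?_, ?_⟩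
  · convert h1' using 1
    push_cast; ring
  · convert h2' using 1
    rw [Nat.cast_add, Nat.cast_mul, Nat.cast_sub (by omega : 1 ≤ t.1), CharP.cast_eq_zero F t.1]
    push_cast; ring

theorem cert_aux {q x : ℕ} (hc : cover q = true) (h : prim q x = true)
    (hodd : q % 2 = 1) (hx : 2 ≤ x ∧ x < q) (h2 : Nat.beq (pm q 21 (x - 1) ((q - 1) / 2) % q) 1 = false)
    (F : Type*) [Field F] [Fintype F] (hF : Fintype.card F = q) :
    ∃ x : F, Prim x ∧ ¬ IsSquare (x - 1) := by
  have : Fact q.Prime := ⟨prime_of_prim hc h⟩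
  have : CharP F q := charP_of_card_eq_prime hF
  have hq : (q : F) = 0 := CharP.cast_eq_zero F q
  refine ⟨(x : F), prim_field hc h F hF, ?_⟩
  have hcs := cover_spec hc
  have e1 : (x : F) - 1 = ((x - 1 : ℕ) : F) := by
    rw [Nat.cast_sub (by omega)]; simp
  rw [e1]
  rintro ⟨y, hy⟩
  have hne : ((x - 1 : ℕ) : F) ≠ 0 := by
    intro h0
    have h2 := (CharP.cast_eq_zero_iff F q _).1 h0
    have h3 := Nat.le_of_dvd (by omega) h2
    omega
  have hy0 : y ≠ 0 := by
    rintro rfl
    apply hne
    rw [hy]; ring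
  have h3 : ((x - 1 : ℕ) : F) ^ ((q - 1) / 2) = 1 := by
    rw [hy, ← pow_two, ← pow_mul, show 2 * ((q - 1) / 2) = q - 1 by omega, ← hF]
    exact FiniteField.pow_card_sub_one_eq_one y hy0
  rw [← pm_cast hq 21 (x - 1) _ (by norm_num; omega)] at h3
  have h9 : ((pm q 21 (x - 1) ((q - 1) / 2) : ℕ) : F) = ((1 : ℕ) : F) := by
    rw [h3]; simp
  have h10 := (CharP.natCast_eq_natCast F q).1 h9
  have h11 : (1 : ℕ) % q = 1 := Nat.mod_eq_of_lt (by omega)
  exact Nat.ne_of_beq_eq_false h2
    ((show pm q 21 (x - 1) ((q - 1) / 2) % q = 1 % q from h10).trans h11)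

theorem cert3 (F : Type*) [Field F] [Fintype F] (hq : Fintype.card F = 11 ∨
    Fintype.card F = 31 ∨ Fintype.card F = 43 ∨ Fintype.card F = 211) :
    ∃ x : F, Prim x ∧ ¬ IsSquare (x - 1) := by
  rcases hq with h | h | h | h
  · exact cert_aux (q := 11) (x := 7) (by decide +kernel) (by decide +kernel) (by norm_num)
      (by norm_num) (by decide +kernel) F h
  · exact cert_aux (q := 31) (x := 12) (by decide +kernel) (by decide +kernel) (by norm_num)
      (by norm_num) (by decide +kernel) F h
  · exact cert_aux (q := 43) (x := 3) (by decide +kernel) (by decide +kernel) (by norm_num)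
      (by norm_num) (by decide +kernel) F h
  · exact cert_aux (q := 211) (x := 3) (by decide +kernel) (by decide +kernel) (by norm_num)
      (by norm_num) (by decide +kernel) F h

theorem cyc_special (F : Type*) [Field F] [Fintype F] (hq : Fintype.card F = 13 ∨
    Fintype.card F = 61 ∨ Fintype.card F = 181) : HasCyc F := by
  rcases hq with h | h | h
  · exact cyc_of_ok c13_ok F h
  · exact cyc_of_ok c61_ok F h
  · exact cyc_of_ok c181_ok F h

end R457.CP.CertP

namespace R457.CP

theorem certP (F : Type*) [Field F] [Fintype F] (hq : Fintype.card F ∈ excP)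
    (h5 : Fintype.card F ≠ 5) (h13 : Fintype.card F ≠ 13) (h61 : Fintype.card F ≠ 61)
    (h181 : Fintype.card F ≠ 181) : ∃ c : F, Prim (1 + c ^ 2) ∧ Prim (1 - c ^ 2) :=
  CertP.certP F hq h5 h13 h61 h181

theorem cert3 (F : Type*) [Field F] [Fintype F] (hq : Fintype.card F = 11 ∨
    Fintype.card F = 31 ∨ Fintype.card F = 43 ∨ Fintype.card F = 211) :
    ∃ x : F, Prim x ∧ ¬ IsSquare (x - 1) := CertP.cert3 F hq

theorem cyc_special (F : Type*) [Field F] [Fintype F] (hq : Fintype.card F = 13 ∨
    Fintype.card F = 61 ∨ Fintype.card F = 181) : HasCyc F := CertP.cyc_special F hq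

end R457.CP
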