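import Mathlib
import Pool.Agent.R457.CP.Defs

/-!
# Certificates in prime power fields (MP_1a41ac_nt, piece CP-CERTPP)

Polynomials modulo a monic polynomial `X ^ k - g` over `ZMod p` are lists of `k` natural numbers.
-/

set_option autoImplicit false

namespace R457.CP

namespace PP

open Polynomial

/-! ### the computable model -/

/-- `c * x + y` coefficientwise modulo `p` -/
def axpy (p c : ℕ) : List ℕ → List ℕ → List ℕ
  | a :: s, b :: t => Nat.mod (Nat.add (Nat.mul c a) b) p :: axpy p c s t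
  | _, _ => []

/-- zero -/
def zl : List ℕ → List ℕ
  | [] => []
  | _ :: g => 0 :: zl g

/-- one -/
def one : List ℕ → List ℕ
  | [] => []
  | _ :: g => 1 :: zl g

/-- the variable -/
def Xl : List ℕ → List ℕ
  | [] => []
  | [_] => []
  | _ :: _ :: g => 0 :: 1 :: zl g

/-- multiplication by the variable -/
def mulX (p : ℕ) (g a : List ℕ) : List ℕ := axpy p (a.getLastD 0) g (0 :: a.dropLast)

/-- multiplication -/
def mul (p : ℕ) (g : List ℕ) : List ℕ → List ℕ → List ℕ
  | [], _ => zl g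
  | a :: s, b => axpy p a b (mulX p g (mul p g s b))

/-- power -/
def pw (p : ℕ) (g : List ℕ) : ℕ → List ℕ → ℕ → List ℕ
  | 0, _, _ => one g
  | m + 1, a, n =>
    match Nat.beq (Nat.mod n 2) 1 with
    | true => mul p g a (pw p g m (mul p g a a) (Nat.div n 2))
    | false => pw p g m (mul p g a a) (Nat.div n 2)

/-- primality test -/
def isP (n : ℕ) : Bool :=
  decide (2 ≤ n) && (List.range n).all (fun d => decide (d < 2) || decide (n % d ≠ 0))

/-- all primes dividing `N` are in `L` -/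
def facOK (N : ℕ) (L : List ℕ) : Bool := L.all isP && decide (0 < N) && decide (L.prod ^ 20 % N = 0)

/-- test of order `N` -/
def isPrim (p : ℕ) (g : List ℕ) (m N : ℕ) (L u : List ℕ) : Bool :=
  decide (u.length = g.length) && decide (pw p g m u N = one g) &&
    L.all (fun l => decide (pw p g m (axpy p (p - 1) (one g) (pw p g m u (N / l))) N = one g))

/-- test of the data of the field -/
def chk (p k m : ℕ) (g L : List ℕ) : Bool :=
  isP p && decide (2 ≤ k) && decide (g.length = k) && decide (p ^ k < 2 ^ m) &&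
    facOK (p ^ k - 1) L && decide (pw p g m (Xl g) (p ^ k) = Xl g)

/-! ### evaluation -/

/-- evaluation of a list -/
def ev {R : Type*} [CommRing R] (α : R) : List ℕ → R
  | [] => 0
  | a :: s => (a : R) + α * ev α s

section ring

variable {R : Type*} [CommRing R] {p : ℕ} (hp : (p : R) = 0) (α : R)

include hp in
lemma cast_mod (n : ℕ) : ((n % p : ℕ) : R) = n := by
  conv_rhs => rw [← Nat.mod_add_div n p]
  push_cast
  rw [hp]; ring

include hp in
lemma ev_axpy (c : ℕ) (s t : List ℕ) (h : s.length = t.length) :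
    ev α (axpy p c s t) = c * ev α s + ev α t := by
  induction s generalizing t with
  | nil =>
    cases t with
    | nil => simp [axpy, ev]
    | cons b t => simp at h
  | cons a s ih =>
    cases t with
    | nil => simp at h
    | cons b t =>
      have e1 : axpy p c (a :: s) (b :: t) = (c * a + b) % p :: axpy p c s t := rfl
      rw [e1]
      simp only [ev]
      rw [cast_mod hp, ih t (by simpa using h)]
      push_cast
      ring

lemma length_axpy (p c : ℕ) (s t : List ℕ) (h : s.length = t.length) :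
    (axpy p c s t).length = s.length := by
  induction s generalizing t with
  | nil => simp [axpy]
  | cons a s ih =>
    cases t with
    | nil => simp at h
    | cons b t =>
      simp only [axpy, List.length_cons]
      rw [ih t (by simpa using h)]

lemma length_zl (g : List ℕ) : (zl g).length = g.length := by
  induction g with
  | nil => rfl
  | cons a g ih => simp [zl, ih]

lemma ev_zl (g : List ℕ) : ev α (zl g) = 0 := by
  induction g with
  | nil => rfl
  | cons a g ih => simp [zl, ev, ih]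

lemma length_one (g : List ℕ) : (one g).length = g.length := by
  cases g with
  | nil => rfl
  | cons a g => simp [one, length_zl]

lemma ev_one (g : List ℕ) (hg : 0 < g.length) : ev α (one g) = 1 := by
  cases g with
  | nil => simp at hg
  | cons a g => simp [one, ev, ev_zl]

lemma length_Xl (g : List ℕ) (hg : 2 ≤ g.length) : (Xl g).length = g.length := by
  match g, hg with
  | _ :: _ :: g, _ => simp [Xl, length_zl]

lemma ev_Xl (g : List ℕ) (hg : 2 ≤ g.length) : ev α (Xl g) = α := by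
  match g, hg with
  | _ :: _ :: g, _ => simp [Xl, ev, ev_zl]

lemma ev_last (a : List ℕ) (ha : a ≠ []) :
    ev α a = ev α a.dropLast + (a.getLastD 0 : ℕ) * α ^ (a.length - 1) := by
  induction a with
  | nil => exact absurd rfl ha
  | cons x s ih =>
    cases s with
    | nil => simp [ev]
    | cons y s =>
      have h1 := ih (by simp)
      have e1 : (x :: y :: s).dropLast = x :: (y :: s).dropLast := rfl
      have e2 : (x :: y :: s).getLastD 0 = (y :: s).getLastD 0 := rfl
      rw [e1, e2]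
      have e3 : ev α (x :: y :: s) = (x : R) + α * ev α (y :: s) := rfl
      have e4 : ev α (x :: (y :: s).dropLast) = (x : R) + α * ev α (y :: s).dropLast := rfl
      rw [e3, e4, h1]
      simp only [List.length_cons, Nat.add_sub_cancel]
      ring

lemma length_mulX (p : ℕ) (g a : List ℕ) (ha : a.length = g.length) (hg : 0 < g.length) :
    (mulX p g a).length = g.length := by
  unfold mulX
  rw [length_axpy]
  simp only [List.length_cons, List.length_dropLast]
  omega

include hp in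
lemma ev_mulX (g a : List ℕ) (hα : α ^ g.length = ev α g) (ha : a.length = g.length)
    (hg : 0 < g.length) : ev α (mulX p g a) = α * ev α a := by
  unfold mulX
  rw [ev_axpy hp]
  · have hne : a ≠ [] := by
      intro h; rw [h] at ha; simp at ha; omega
    rw [ev_last α a hne, ← hα, ha]
    obtain ⟨k, hk⟩ : ∃ k, g.length = k + 1 := ⟨g.length - 1, by omega⟩
    rw [hk]
    simp only [ev, Nat.add_sub_cancel]
    push_cast
    ring
  · simp only [List.length_cons, List.length_dropLast]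
    omega

include hp in
lemma ev_mul (g : List ℕ) (hα : α ^ g.length = ev α g) (hg : 0 < g.length) (a b : List ℕ)
    (hb : b.length = g.length) :
    (mul p g a b).length = g.length ∧ ev α (mul p g a b) = ev α a * ev α b := by
  induction a with
  | nil => exact ⟨by simp [mul, length_zl], by simp [mul, ev, ev_zl]⟩
  | cons x s ih =>
    have h1 := length_mulX p g (mul p g s b) ih.1 hg
    simp only [mul]
    refine ⟨by rw [length_axpy _ _ _ _ (by rw [h1, hb]), hb], ?_⟩
    rw [ev_axpy hp _ _ _ _ (by rw [h1, hb]), ev_mulX hp α g _ hα ih.1 hg, ih.2]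
    simp only [ev]
    ring

include hp in
lemma ev_pw (g : List ℕ) (hα : α ^ g.length = ev α g) (hg : 0 < g.length) (m : ℕ) :
    ∀ (a : List ℕ) (n : ℕ), a.length = g.length → n < 2 ^ m →
      (pw p g m a n).length = g.length ∧ ev α (pw p g m a n) = ev α a ^ n := by
  induction m with
  | zero =>
    intro a n _ hn
    have : n = 0 := by simpa using hn
    subst this
    exact ⟨length_one g, by simp [pw, ev_one α g hg]⟩
  | succ m ih =>
    intro a n ha hn
    have h1 := ev_mul hp α g hα hg a a ha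
    have hn2 : n / 2 < 2 ^ m := by
      rw [Nat.div_lt_iff_lt_mul (by norm_num), ← pow_succ]; exact hn
    have h2 := ih (mul p g a a) (n / 2) h1.1 hn2
    rcases Nat.mod_two_eq_zero_or_one n with h | h
    · have e1 : pw p g (m + 1) a n = pw p g m (mul p g a a) (n / 2) := by
        have : Nat.beq (Nat.mod n 2) 1 = false := by
          change Nat.beq (n % 2) 1 = false
          rw [h]; rfl
        simp only [pw]
        rw [this]
        rfl
      rw [e1]
      refine ⟨h2.1, ?_⟩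
      rw [h2.2, h1.2, ← pow_two, ← pow_mul]
      congr 1; omega
    · have e1 : pw p g (m + 1) a n = mul p g a (pw p g m (mul p g a a) (n / 2)) := by
        have : Nat.beq (Nat.mod n 2) 1 = true := by
          change Nat.beq (n % 2) 1 = true
          rw [h]; rfl
        simp only [pw]
        rw [this]
        rfl
      rw [e1]
      have h3 := ev_mul hp α g hα hg a (pw p g m (mul p g a a) (n / 2)) h2.1
      refine ⟨h3.1, ?_⟩
      rw [h3.2, h2.2, h1.2, ← pow_two, ← pow_mul, ← pow_succ']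
      congr 1; omega

lemma map_ev {S : Type*} [CommRing S] (φ : R →+* S) (s : List ℕ) : φ (ev α s) = ev (φ α) s := by
  induction s with
  | nil => simp [ev]
  | cons a s ih => simp [ev, ih]

end ring

/-! ### primes -/

lemma isP_prime {n : ℕ} (h : isP n = true) : n.Prime := by
  unfold isP at h
  rw [Bool.and_eq_true, decide_eq_true_eq, List.all_eq_true] at h
  rw [Nat.prime_def_lt]
  refine ⟨h.1, fun d hd hdvd => ?_⟩
  have h1 := h.2 d (List.mem_range.2 hd)
  rw [Bool.or_eq_true, decide_eq_true_eq, decide_eq_true_eq] at h1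
  rcases h1 with h1 | h1
  · have h2 : d ≠ 0 := by
      rintro rfl
      have := Nat.eq_zero_of_zero_dvd hdvd
      omega
    omega
  · exact absurd (Nat.mod_eq_zero_of_dvd hdvd) h1

lemma facOK_mem {N : ℕ} {L : List ℕ} (h : facOK N L = true) :
    0 < N ∧ ∀ l : ℕ, l.Prime → l ∣ N → l ∈ L := by
  unfold facOK at h
  rw [Bool.and_eq_true, Bool.and_eq_true, decide_eq_true_eq, decide_eq_true_eq,
    List.all_eq_true] at h
  obtain ⟨⟨h1, h2⟩, h3⟩ := h
  refine ⟨h2, fun l hl hlN => ?_⟩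
  have h4 : l ∣ L.prod ^ 20 := hlN.trans (Nat.dvd_of_mod_eq_zero h3)
  have h5 : l ∣ L.prod := hl.dvd_of_dvd_pow h4
  obtain ⟨x, hx, hlx⟩ := (Prime.dvd_prod_iff hl.prime).1 h5
  rwa [(Nat.prime_dvd_prime_iff_eq hl (isP_prime (h1 x hx))).1 hlx]

/-! ### soundness -/

lemma isPrim_sound {F : Type*} [Field F] {p : ℕ} (hp : (p : F) = 0) (hp1 : 1 ≤ p) (α : F)
    (g : List ℕ) (hα : α ^ g.length = ev α g) (hg : 0 < g.length) (m N : ℕ) (L u : List ℕ)
    (hN : 0 < N) (hNm : N < 2 ^ m) (hL : ∀ l : ℕ, l.Prime → l ∣ N → l ∈ L)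
    (h : isPrim p g m N L u = true) : u.length = g.length ∧ orderOf (ev α u) = N := by
  unfold isPrim at h
  rw [Bool.and_eq_true, Bool.and_eq_true, decide_eq_true_eq, decide_eq_true_eq,
    List.all_eq_true] at h
  obtain ⟨⟨hu, h1⟩, h2⟩ := h
  refine ⟨hu, ?_⟩
  have e1 := (ev_pw hp α g hα hg m u N hu hNm).2
  rw [h1, ev_one α g hg] at e1
  apply orderOf_eq_of_pow_and_pow_div_prime hN e1.symm
  intro l hl hlN hcon
  have h3 := h2 l (hL l hl hlN)
  rw [decide_eq_true_eq] at h3
  have hNl : N / l < 2 ^ m := lt_of_le_of_lt (Nat.div_le_self _ _) hNm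
  have e2 := ev_pw hp α g hα hg m u (N / l) hu hNl
  have e3 := ev_axpy hp α (p - 1) (one g) (pw p g m u (N / l)) (by rw [length_one, e2.1])
  rw [ev_one α g hg, e2.2, hcon, Nat.cast_sub hp1, hp] at e3
  have e4 : (axpy p (p - 1) (one g) (pw p g m u (N / l))).length = g.length := by
    rw [length_axpy _ _ _ _ (by rw [length_one, e2.1]), length_one]
  have e5 := (ev_pw hp α g hα hg m _ N e4 hNm).2
  rw [h3, ev_one α g hg, e3] at e5
  simp [hN.ne'] at e5

lemma degree_ev {K : Type*} [Field K] (s : List ℕ) : (ev (X : K[X]) s).degree < s.length := by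
  induction s with
  | nil => simp [ev]
  | cons a s ih =>
    simp only [ev, List.length_cons]
    apply lt_of_le_of_lt (degree_add_le _ _)
    rw [max_lt_iff]
    constructor
    · refine lt_of_le_of_lt (degree_natCast_le _) ?_
      exact_mod_cast Nat.succ_pos _
    · by_cases h : ev (X : K[X]) s = 0
      · rw [h, mul_zero, degree_zero]
        exact WithBot.bot_lt_coe _
      · rw [degree_mul, degree_X, degree_eq_natDegree h]
        rw [degree_eq_natDegree h] at ih
        have ih' : (ev (X : K[X]) s).natDegree < s.length := by exact_mod_cast ih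
        have : 1 + (ev (X : K[X]) s).natDegree < s.length + 1 := by omega
        exact_mod_cast this

/-- existence of a root -/
lemma exists_root (F : Type*) [Field F] [Fintype F] (p k m : ℕ) (g L : List ℕ)
    (h : chk p k m g L = true) (hF : Fintype.card F = p ^ k) :
    1 ≤ p ∧ (p : F) = 0 ∧ g.length = k ∧ 2 ≤ k ∧ p ^ k < 2 ^ m ∧ 0 < p ^ k - 1 ∧
      (∀ l : ℕ, l.Prime → l ∣ p ^ k - 1 → l ∈ L) ∧ ∃ α : F, α ^ g.length = ev α g := by
  unfold chk at h
  simp only [Bool.and_eq_true, decide_eq_true_eq] at h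
  obtain ⟨⟨⟨⟨⟨h1, h2⟩, h3⟩, h4⟩, h5⟩, h6⟩ := h
  have hp := isP_prime h1
  have : Fact p.Prime := ⟨hp⟩
  have : CharP F p := charP_of_card_eq_prime_pow hF
  have hpF : (p : F) = 0 := CharP.cast_eq_zero F p
  obtain ⟨h7, h8⟩ := facOK_mem h5
  refine ⟨hp.one_lt.le, hpF, h3, h2, h4, h7, h8, ?_⟩
  set f : (ZMod p)[X] := X ^ k - ev X g with hf
  have hdeg : f.degree = k := by
    rw [hf, degree_sub_eq_left_of_degree_lt, degree_X_pow]
    rw [degree_X_pow, ← h3]
    exact degree_ev g
  have hroot : (AdjoinRoot.root f) ^ g.length = ev (AdjoinRoot.root f) g := by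
    have e1 : AdjoinRoot.mk f f = 0 := AdjoinRoot.mk_self
    rw [hf, map_sub, map_pow, map_ev] at e1
    rw [h3]
    exact sub_eq_zero.1 e1
  have hpR : (p : AdjoinRoot f) = 0 := by
    have : ((p : ZMod p) : ZMod p) = 0 := by simp
    have e2 := congrArg (algebraMap (ZMod p) (AdjoinRoot f)) this
    rw [map_natCast, map_zero] at e2
    exact e2
  have hglen : 2 ≤ g.length := by omega
  have e3 := (ev_pw hpR (AdjoinRoot.root f) g hroot (by omega) m (Xl g) (p ^ k)
    (length_Xl g hglen) h4).2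
  rw [h6, ev_Xl _ g hglen] at e3
  have hdvd : f ∣ X ^ (p ^ k) - X := by
    rw [← AdjoinRoot.mk_eq_zero, map_sub, map_pow, AdjoinRoot.mk_X]
    exact sub_eq_zero.2 e3.symm
  let φ : ZMod p →+* F := ZMod.castHom (dvd_refl p) F
  have hdvd2 : f.map φ ∣ X ^ (Nat.card F) - X := by
    have e5 : f.map φ ∣ (X ^ (p ^ k) - X : (ZMod p)[X]).map φ := Polynomial.map_dvd φ hdvd
    have e6 : (X ^ (p ^ k) - X : (ZMod p)[X]).map φ = X ^ (p ^ k) - X := by simp
    rw [e6] at e5
    rwa [Nat.card_eq_fintype_card, hF]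
  have hsplit : Splits (f.map φ) := by
    refine Splits.of_dvd Polynomial.splits_X_pow_nat_card_sub_X ?_ hdvd2
    rw [Nat.card_eq_fintype_card]
    exact FiniteField.X_pow_card_sub_X_ne_zero F Fintype.one_lt_card
  obtain ⟨α, hα⟩ := hsplit.exists_eval_eq_zero (by
    rw [degree_map, hdeg]
    have : k ≠ 0 := by omega
    exact_mod_cast this)
  refine ⟨α, ?_⟩
  have e4 : eval α (f.map φ) = α ^ k - ev α g := by
    rw [eval_map]
    change eval₂RingHom φ α f = _
    rw [hf, map_sub, map_pow, map_ev]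
    simp
  rw [h3]
  rw [e4] at hα
  exact sub_eq_zero.1 hα

/-- test of an odd case -/
def chkO (d : ℕ × ℕ × List ℕ × List ℕ × List ℕ) : Bool :=
  match d with
  | (p, k, g, c, L) => chk p k 20 g L && decide (c.length = k) &&
      isPrim p g 20 (p ^ k - 1) L (axpy p 1 (mul p g c c) (one g)) &&
      isPrim p g 20 (p ^ k - 1) L (axpy p (p - 1) (mul p g c c) (one g))

lemma sound_odd (F : Type*) [Field F] [Fintype F] (d : ℕ × ℕ × List ℕ × List ℕ × List ℕ)
    (h : chkO d = true) (hF : Fintype.card F = d.1 ^ d.2.1) :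
    ∃ c : F, Prim (1 + c ^ 2) ∧ Prim (1 - c ^ 2) := by
  obtain ⟨p, k, g, c, L⟩ := d
  unfold chkO at h
  simp only [Bool.and_eq_true, decide_eq_true_eq] at h hF
  obtain ⟨⟨⟨h1, h2⟩, h3⟩, h4⟩ := h
  obtain ⟨hp1, hp, hg, hk, hkm, hN, hL, α, hα⟩ := exists_root F p k 20 g L h1 hF
  have hg0 : 0 < g.length := by omega
  have e1 := ev_mul hp α g hα hg0 c c (by omega)
  have hNm : p ^ k - 1 < 2 ^ 20 := by omega
  obtain ⟨-, h5⟩ := isPrim_sound hp hp1 α g hα hg0 20 _ L _ hN hNm hL h3
  obtain ⟨-, h6⟩ := isPrim_sound hp hp1 α g hα hg0 20 _ L _ hN hNm hL h4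
  rw [ev_axpy hp _ _ _ _ (by rw [e1.1, length_one]), e1.2, ev_one α g hg0] at h5 h6
  rw [Nat.cast_sub hp1, hp] at h6
  refine ⟨ev α c, ?_, ?_⟩
  · unfold Prim
    rw [hF, ← h5]
    congr 1
    push_cast
    ring
  · unfold Prim
    rw [hF, ← h6]
    congr 1
    push_cast
    ring

/-- test of an even case -/
def chkE (d : ℕ × ℕ × List ℕ × List ℕ × List ℕ) : Bool :=
  match d with
  | (p, k, g, c, L) => chk p k 20 g L && isPrim p g 20 (p ^ k - 1) L c &&
      isPrim p g 20 (p ^ k - 1) L (axpy p 1 c (axpy p 1 (pw p g 20 c (p ^ k - 2)) (one g)))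

lemma sound_even (F : Type*) [Field F] [Fintype F] (d : ℕ × ℕ × List ℕ × List ℕ × List ℕ)
    (h : chkE d = true) (hF : Fintype.card F = d.1 ^ d.2.1) :
    ∃ y : F, Prim y ∧ Prim (1 + y + y⁻¹) := by
  obtain ⟨p, k, g, c, L⟩ := d
  unfold chkE at h
  simp only [Bool.and_eq_true] at h hF
  obtain ⟨⟨h1, h3⟩, h4⟩ := h
  obtain ⟨hp1, hp, hg, hk, hkm, hN, hL, α, hα⟩ := exists_root F p k 20 g L h1 hF
  have hg0 : 0 < g.length := by omega
  have hNm : p ^ k - 1 < 2 ^ 20 := by omega
  obtain ⟨h2, h5⟩ := isPrim_sound hp hp1 α g hα hg0 20 _ L _ hN hNm hL h3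
  obtain ⟨-, h6⟩ := isPrim_sound hp hp1 α g hα hg0 20 _ L _ hN hNm hL h4
  have e2 := ev_pw hp α g hα hg0 20 c (p ^ k - 2) h2 (by omega)
  have e3 : (axpy p 1 (pw p g 20 c (p ^ k - 2)) (one g)).length = g.length := by
    rw [length_axpy _ _ _ _ (by rw [e2.1, length_one]), e2.1]
  rw [ev_axpy hp _ _ _ _ (by rw [e3, h2]), ev_axpy hp _ _ _ _ (by rw [e2.1, length_one]), e2.2,
    ev_one α g hg0] at h6
  have hinv : ev α c ^ (p ^ k - 2) = (ev α c)⁻¹ := by
    have h7 : ev α c ^ (p ^ k - 1) = 1 := by rw [← h5]; exact pow_orderOf_eq_one _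
    have h8 : p ^ k - 1 = (p ^ k - 2) + 1 := by
      have : 2 ^ 1 ≤ p ^ k := by omega
      omega
    rw [h8, pow_succ] at h7
    exact eq_inv_of_mul_eq_one_left h7
  refine ⟨ev α c, ?_, ?_⟩
  · unfold Prim
    rw [hF, h5]
  · unfold Prim
    rw [hF, ← h6, hinv]
    congr 1
    push_cast
    ring

/-- test of a cycle -/
def chkC (p k : ℕ) (g L E : List ℕ) : Bool :=
  chk p k 20 g L && isPrim p g 20 (p ^ k - 1) L (Xl g) &&
    (List.range (p ^ k - 1)).all (fun i => decide (E.getD i 0 < p ^ k - 1) &&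
      (List.range (p ^ k - 1)).all (fun j => decide (i = j) || decide (E.getD i 0 ≠ E.getD j 0)) &&
      isPrim p g 20 (p ^ k - 1) L (axpy p 1
        (pw p g 20 (Xl g) (E.getD i 0 + E.getD ((i + 1) % (p ^ k - 1)) 0)) (one g)))

lemma sound_cyc (F : Type*) [Field F] [Fintype F] (p k : ℕ) (g L E : List ℕ)
    (h : chkC p k g L E = true) (hF : Fintype.card F = p ^ k) (hs : p ^ k < 2 ^ 19) : HasCyc F := by
  unfold chkC at h
  rw [Bool.and_eq_true, Bool.and_eq_true, List.all_eq_true] at h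
  obtain ⟨⟨h1, h3⟩, h4⟩ := h
  obtain ⟨hp1, hp, hg, hk, hkm, hN, hL, α, hα⟩ := exists_root F p k 20 g L h1 hF
  have hg0 : 0 < g.length := by omega
  have hNm : p ^ k - 1 < 2 ^ 20 := by omega
  obtain ⟨h2, h5⟩ := isPrim_sound hp hp1 α g hα hg0 20 _ L _ hN hNm hL h3
  rw [ev_Xl α g (by omega)] at h5
  have key : ∀ i, i < p ^ k - 1 → E.getD i 0 < p ^ k - 1 ∧
      (∀ j, j < p ^ k - 1 → E.getD i 0 = E.getD j 0 → i = j) ∧
      orderOf (α ^ (E.getD i 0) * α ^ (E.getD ((i + 1) % (p ^ k - 1)) 0) + 1) = p ^ k - 1 := by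
    intro i hi
    have h6 := h4 i (List.mem_range.2 hi)
    rw [Bool.and_eq_true, Bool.and_eq_true, decide_eq_true_eq, List.all_eq_true] at h6
    obtain ⟨⟨h7, h8⟩, h9⟩ := h6
    refine ⟨h7, fun j hj hij => ?_, ?_⟩
    · have h10 := h8 j (List.mem_range.2 hj)
      rw [Bool.or_eq_true, decide_eq_true_eq, decide_eq_true_eq] at h10
      exact h10.resolve_right (fun h => h hij)
    · have h11 : E.getD ((i + 1) % (p ^ k - 1)) 0 < p ^ k - 1 := by
        have h12 := h4 ((i + 1) % (p ^ k - 1)) (List.mem_range.2 (Nat.mod_lt _ hN))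
        rw [Bool.and_eq_true, Bool.and_eq_true, decide_eq_true_eq] at h12
        exact h12.1.1
      have e2 := ev_pw hp α g hα hg0 20 (Xl g) (E.getD i 0 + E.getD ((i + 1) % (p ^ k - 1)) 0)
        (length_Xl g (by omega)) (by omega)
      obtain ⟨-, h13⟩ := isPrim_sound hp hp1 α g hα hg0 20 _ L _ hN hNm hL h9
      rw [ev_axpy hp _ _ _ _ (by rw [e2.1, length_one]), e2.2, ev_one α g hg0,
        ev_Xl α g (by omega)] at h13
      rw [Nat.cast_one, one_mul] at h13
      rw [← pow_add]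
      exact h13
  have hα0 : α ≠ 0 := by
    rintro rfl
    have : (0 : F) ^ (p ^ k - 1) = 1 := by rw [← h5]; exact pow_orderOf_eq_one _
    rw [zero_pow hN.ne'] at this
    exact zero_ne_one this
  refine ⟨fun i => α ^ (E.getD i 0), ?_, ?_, ?_, ?_⟩
  · intro i _
    exact pow_ne_zero _ hα0
  · intro i j hi hj hij
    rw [hF] at hi hj
    obtain ⟨k1, k2, -⟩ := key i hi
    obtain ⟨k3, -, -⟩ := key j hj
    apply k2 j hj
    exact pow_injOn_Iio_orderOf (by rw [Set.mem_Iio, h5]; exact k1)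
      (by rw [Set.mem_Iio, h5]; exact k3) hij
  · intro i hi
    rw [hF] at hi
    obtain ⟨-, -, k3⟩ := key i (by omega)
    rw [Nat.mod_eq_of_lt hi] at k3
    unfold Prim
    rw [hF]
    exact k3
  · have h14 : p ^ k - 2 < p ^ k - 1 := by omega
    obtain ⟨-, -, k3⟩ := key (p ^ k - 2) h14
    have h15 : p ^ k - 2 + 1 = p ^ k - 1 := by
      have : 2 ^ 1 ≤ p ^ k := by omega
      omega
    rw [h15, Nat.mod_self] at k3
    unfold Prim
    rw [hF]
    exact k3

/-- the odd cases: `(p, k, g, c, primes dividing p ^ k - 1)` -/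
def dataO : List (ℕ × ℕ × List ℕ × List ℕ × List ℕ) := [
  (3, 2, [1, 2], [0, 1], [2]),
  (7, 2, [4, 6], [3, 1], [2, 3]),
  (3, 4, [1, 0, 0, 2], [0, 0, 1, 0], [2, 5]),
  (11, 2, [9, 7], [1, 1], [2, 3, 5]),
  (5, 3, [3, 0, 4], [0, 1, 0], [2, 31]),
  (13, 2, [11, 12], [0, 4], [2, 3, 7]),
  (17, 2, [14, 16], [4, 2], [2, 3]),
  (19, 2, [17, 18], [3, 2], [2, 3, 5]),
  (23, 2, [18, 21], [3, 1], [2, 3, 11]),
  (5, 4, [3, 0, 3, 4], [3, 1, 0, 0], [2, 3, 13]),
  (3, 6, [1, 0, 0, 0, 0, 2], [1, 0, 1, 0, 0, 0], [2, 7, 13]),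
  (29, 2, [27, 24], [6, 1], [2, 3, 5, 7]),
  (31, 2, [28, 29], [9, 1], [2, 3, 5]),
  (37, 2, [35, 33], [10, 1], [2, 3, 19]),
  (41, 2, [35, 38], [23, 2], [2, 3, 5, 7]),
  (43, 2, [40, 42], [9, 1], [2, 3, 7, 11]),
  (13, 3, [11, 0, 12], [2, 1, 0], [2, 3, 61]),
  (47, 2, [42, 45], [4, 1], [2, 3, 23]),
  (7, 4, [4, 0, 6, 6], [2, 3, 0, 0], [2, 3, 5]),
  (59, 2, [57, 58], [8, 1], [2, 3, 5, 29]),
  (61, 2, [59, 60], [4, 1], [2, 3, 5, 31]),
  (67, 2, [65, 63], [7, 1], [2, 3, 11, 17]),
  (71, 2, [64, 69], [9, 1], [2, 3, 5, 7]),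
  (79, 2, [76, 78], [3, 2], [2, 3, 5, 13]),
  (83, 2, [81, 82], [8, 1], [2, 3, 7, 41]),
  (89, 2, [86, 82], [35, 1], [2, 3, 5, 11]),
  (101, 2, [99, 97], [5, 1], [2, 3, 5, 17]),
  (103, 2, [98, 102], [41, 1], [2, 3, 13, 17]),
  (109, 2, [103, 108], [2, 1], [2, 3, 5, 11]),
  (113, 2, [110, 101], [4, 1], [2, 3, 7, 19]),
  (11, 4, [9, 0, 0, 7], [8, 3, 0, 0], [2, 3, 5, 61]),
  (131, 2, [129, 127], [1, 1], [2, 3, 5, 11, 13]),
  (139, 2, [137, 138], [17, 1], [2, 3, 5, 7, 23]),
  (13, 4, [11, 0, 11, 7], [0, 1, 0, 0], [2, 3, 5, 7, 17]),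
  (181, 2, [179, 177], [19, 1], [2, 3, 5, 7, 13]),
  (211, 2, [209, 207], [19, 1], [2, 3, 5, 7, 53]),
  (229, 2, [223, 228], [16, 1], [2, 3, 5, 19, 23]),
  (239, 2, [232, 237], [33, 1], [2, 3, 5, 7, 17]),
  (281, 2, [278, 280], [23, 1], [2, 3, 5, 7, 47]),
  (419, 2, [417, 418], [10, 1], [2, 3, 5, 7, 11, 19]),
  (461, 2, [459, 460], [8, 1], [2, 3, 5, 7, 11, 23]),
  (571, 2, [568, 570], [21, 1], [2, 3, 5, 11, 13, 19])]

/-- the even cases -/
def dataE : List (ℕ × ℕ × List ℕ × List ℕ × List ℕ) := [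
  (2, 3, [1, 0, 1], [0, 1, 0], [7]),
  (2, 6, [1, 0, 0, 0, 0, 1], [0, 1, 0, 0, 0, 0], [3, 7]),
  (2, 8, [1, 0, 0, 0, 1, 1, 1, 0], [0, 1, 0, 0, 0, 0, 0, 0], [3, 5, 17]),
  (2, 12, [1, 0, 0, 0, 0, 0, 1, 0, 1, 0, 0, 1], [0, 1, 0, 0, 0, 0, 0, 0, 0, 0, 0, 0], [3, 5, 7, 13])]

set_option maxRecDepth 100000 in
lemma dataO_ok : dataO.all chkO = true := by decide +kernel

set_option maxRecDepth 100000 in
lemma dataE_ok : dataE.all chkE = true := by decide +kernel

lemma excPP_ok : excPP.all (fun q => decide (q = 25) ||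
    dataO.any (fun d => decide (q = d.1 ^ d.2.1))) = true := by decide +kernel

lemma excE_ok : excE.all (fun q => decide (q ≤ 7) || decide (q = 16) ||
    dataE.any (fun d => decide (q = d.1 ^ d.2.1))) = true := by decide +kernel

set_option maxRecDepth 100000 in
lemma cyc25_ok : chkC 5 2 [3, 4] [2, 3] [0, 1, 4, 5, 20, 9, 16, 17, 8, 12, 21, 13, 7, 2, 3, 18, 11,
    22, 23, 6, 14, 15, 19, 10] = true := by decide +kernel

set_option maxRecDepth 100000 in
lemma cyc16_ok : chkC 2 4 [1, 1, 0, 0] [3, 5] [0, 1, 2, 4, 8, 9, 3, 14, 5, 7, 10, 13, 11, 6,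
    12] = true := by decide +kernel

end PP

/-- certificates in the odd proper prime power fields of the list -/
theorem certPP (F : Type*) [Field F] [Fintype F] (hq : Fintype.card F ∈ excPP)
    (h25 : Fintype.card F ≠ 25) : ∃ c : F, Prim (1 + c ^ 2) ∧ Prim (1 - c ^ 2) := by
  have h1 := List.all_eq_true.1 PP.excPP_ok _ hq
  rw [Bool.or_eq_true, decide_eq_true_eq, List.any_eq_true] at h1
  obtain ⟨d, hd, h2⟩ := h1.resolve_left h25
  rw [decide_eq_true_eq] at h2
  exact PP.sound_odd F d (List.all_eq_true.1 PP.dataO_ok d hd) h2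

/-- certificates in the even fields of the list, `q ≠ 16` (for `q = 16` there is no such `y`) -/
theorem certE (F : Type*) [Field F] [Fintype F] (hq : Fintype.card F ∈ excE)
    (h7 : 7 < Fintype.card F) (h16 : Fintype.card F ≠ 16) :
    ∃ y : F, Prim y ∧ Prim (1 + y + y⁻¹) := by
  have h1 := List.all_eq_true.1 PP.excE_ok _ hq
  rw [Bool.or_eq_true, Bool.or_eq_true, decide_eq_true_eq, decide_eq_true_eq,
    List.any_eq_true] at h1
  rcases h1 with (h1 | h1) | h1
  · omega
  · exact absurd h1 h16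
  · obtain ⟨d, hd, h2⟩ := h1
    rw [decide_eq_true_eq] at h2
    exact PP.sound_even F d (List.all_eq_true.1 PP.dataE_ok d hd) h2

theorem cyc25 (F : Type*) [Field F] [Fintype F] (hq : Fintype.card F = 25) : HasCyc F :=
  PP.sound_cyc F 5 2 _ _ _ PP.cyc25_ok (by rw [hq]; norm_num) (by norm_num)

theorem cyc16 (F : Type*) [Field F] [Fintype F] (hq : Fintype.card F = 16) : HasCyc F :=
  PP.sound_cyc F 2 4 _ _ _ PP.cyc16_ok (by rw [hq]; norm_num) (by norm_num)

end R457.CP
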