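import Mathlib
import Pool.Agent.R457.CP.Defs

/-!
# MP_1a41ac_nt: the mixing lemma
-/

namespace R457.CP

open Finset ComplexConjugate

section
variable {F : Type*} [Field F] [Fintype F]

theorem mix_conj (χ : MulChar F ℂ) (z : F) : conj (χ z) = χ z⁻¹ := by
  have h1 : star χ = χ⁻¹ := MulChar.star_eq_inv χ
  have h2 : (star χ) z = star (χ z) := MulChar.star_apply χ z
  have h3 : χ⁻¹ z = χ z⁻¹ := MulChar.inv_apply' χ z
  rw [← h3, ← h1, h2]
  rfl

theorem mix_norm (χ : MulChar F ℂ) {z : F} (hz : z ≠ 0) : χ z * χ z⁻¹ = 1 := by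
  rw [← map_mul, mul_inv_cancel₀ hz, map_one]

/-- the correlation sums -/
theorem mix_corr [DecidableEq F] (χ : MulChar F ℂ) (hχ : χ ≠ 1) {x x' : F} (hx : x ≠ 0)
    (hx' : x' ≠ 0) :
    ∑ y : F, χ (x * y + 1) * χ (x' * y + 1)⁻¹ =
      (if x = x' then (Fintype.card F : ℂ) else 0) - χ x * χ x'⁻¹ := by
  by_cases h : x = x'
  · subst h
    rw [if_pos rfl, mix_norm χ hx]
    have h1 : ∀ y : F, χ (x * y + 1) * χ (x * y + 1)⁻¹ = if y = -x⁻¹ then 0 else 1 := by
      intro y
      by_cases hy : y = -x⁻¹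
      · rw [if_pos hy, hy]
        have : x * -x⁻¹ + 1 = 0 := by field_simp; ring
        rw [this, MulChar.map_zero, zero_mul]
      · rw [if_neg hy]
        refine mix_norm χ ?_
        intro h0
        apply hy
        field_simp
        linear_combination h0
    rw [Finset.sum_congr rfl fun y _ => h1 y, Finset.sum_ite]
    simp only [sum_const_zero, zero_add, sum_const, nsmul_eq_mul, mul_one]
    have h2 : (univ.filter fun y : F => ¬ y = -x⁻¹) = univ.erase (-x⁻¹) := by
      ext y; simp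
    rw [h2, card_erase_of_mem (mem_univ _), card_univ]
    have : 1 ≤ Fintype.card F := Fintype.card_pos
    push_cast [Nat.cast_sub this]
    ring
  · rw [if_neg h, zero_sub]
    have h1 : ∑ y : F, χ (x * y + 1) * χ (x' * y + 1)⁻¹ =
        ∑ y ∈ univ.filter (fun y : F => x' * y + 1 ≠ 0), χ ((x * y + 1) * (x' * y + 1)⁻¹) := by
      rw [Finset.sum_filter]
      refine Finset.sum_congr rfl fun y _ => ?_
      split_ifs with h2
      · rw [map_mul]
      · have h2' : x' * y + 1 = 0 := by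
          by_contra h3
          exact h2 h3
        rw [h2', inv_zero, MulChar.map_zero, mul_zero]
    have h2 : ∑ y ∈ univ.filter (fun y : F => x' * y + 1 ≠ 0), χ ((x * y + 1) * (x' * y + 1)⁻¹) =
        ∑ z ∈ univ.filter (fun z : F => z ≠ x * x'⁻¹), χ z := by
      refine Finset.sum_bij' (fun y _ => (x * y + 1) * (x' * y + 1)⁻¹)
        (fun z _ => (1 - z) * (z * x' - x)⁻¹) ?_ ?_ ?_ ?_ ?_
      · intro y hy
        simp only [mem_filter, mem_univ, true_and] at hy ⊢
        intro h3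
        apply h
        generalize hde : x' * y + 1 = d at h3 hy
        field_simp at h3
        rw [← hde] at h3
        linear_combination -h3
      · intro z hz
        simp only [mem_filter, mem_univ, true_and] at hz ⊢
        have h3 : z * x' - x ≠ 0 := by
          intro h4
          apply hz
          field_simp
          linear_combination h4
        intro h4
        generalize hde : z * x' - x = d at h3 h4
        field_simp at h4
        rw [← hde] at h4
        apply h
        linear_combination -h4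
      · intro y hy
        simp only [mem_filter, mem_univ, true_and] at hy
        have h3 : (x * y + 1) * (x' * y + 1)⁻¹ * x' - x ≠ 0 := by
          intro h4
          apply h
          generalize hde : x' * y + 1 = d at h4 hy
          field_simp at h4
          rw [← hde] at h4
          linear_combination -h4
        have h5 : x' - x ≠ 0 := fun h6 => h (by linear_combination -h6)
        have h6 : (x * y + 1) * (x' * y + 1)⁻¹ * x' - x = (x' - x) * (x' * y + 1)⁻¹ := by
          generalize hde : x' * y + 1 = d at hy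
          field_simp
          rw [← hde]
          ring
        rw [h6]
        generalize hde : x' * y + 1 = d at hy
        field_simp
        rw [← hde]
        ring
      · intro z hz
        simp only [mem_filter, mem_univ, true_and] at hz
        have h3 : z * x' - x ≠ 0 := by
          intro h4
          apply hz
          field_simp
          linear_combination h4
        have h5 : x' - x ≠ 0 := fun h6 => h (by linear_combination -h6)
        have h6 : x' * ((1 - z) * (z * x' - x)⁻¹) + 1 = (x' - x) * (z * x' - x)⁻¹ := by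
          generalize hde : z * x' - x = d at h3
          field_simp
          rw [← hde]
          ring
        have h7 : x * ((1 - z) * (z * x' - x)⁻¹) + 1 = z * (x' - x) * (z * x' - x)⁻¹ := by
          generalize hde : z * x' - x = d at h3
          field_simp
          rw [← hde]
          ring
        rw [h6, h7]
        generalize hde : z * x' - x = d at h3
        field_simp
      · intro y hy
        rfl
    have h3 : ∑ z ∈ univ.filter (fun z : F => z ≠ x * x'⁻¹), χ z = - χ (x * x'⁻¹) := by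
      have h4 : (univ.filter fun z : F => z ≠ x * x'⁻¹) = univ.erase (x * x'⁻¹) := by
        ext y; simp
      have h5 := Finset.add_sum_erase (univ : Finset F) (fun z => χ z) (mem_univ (x * x'⁻¹))
      have h6 : ∑ z : F, χ z = 0 := MulChar.sum_eq_zero_of_ne_one hχ
      rw [h4]
      rw [h6] at h5
      linear_combination h5
    rw [h1, h2, h3, map_mul]

theorem mix_second (χ : MulChar F ℂ) (hχ : χ ≠ 1) (X : Finset F) (hX : (0 : F) ∉ X) :
    ∑ y : F, ‖∑ x ∈ X, χ (x * y + 1)‖ ^ 2 ≤ (Fintype.card F : ℝ) * X.card := by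
  classical
  have h1 : ((∑ y : F, ‖∑ x ∈ X, χ (x * y + 1)‖ ^ 2 : ℝ) : ℂ) =
      (Fintype.card F : ℂ) * X.card - ((‖∑ x ∈ X, χ x‖ ^ 2 : ℝ) : ℂ) := by
    have h2 : ∀ w : ℂ, ((‖w‖ ^ 2 : ℝ) : ℂ) = w * conj w := fun w => by
      rw [Complex.mul_conj, Complex.normSq_eq_norm_sq]
    rw [Complex.ofReal_sum]
    simp only [h2, map_sum, mix_conj, Finset.sum_mul_sum]
    rw [Finset.sum_comm]
    have h3 : ∀ x ∈ X, ∑ y : F, ∑ x' ∈ X, χ (x * y + 1) * χ (x' * y + 1)⁻¹ =
        (Fintype.card F : ℂ) - ∑ x' ∈ X, χ x * χ x'⁻¹ := by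
      intro x hx
      rw [Finset.sum_comm]
      rw [Finset.sum_congr rfl fun x' hx' => mix_corr χ hχ (x := x) (x' := x')
        (fun h => hX (h ▸ hx)) (fun h => hX (h ▸ hx'))]
      rw [Finset.sum_sub_distrib, Finset.sum_ite_eq, if_pos hx]
    rw [Finset.sum_congr rfl h3, Finset.sum_sub_distrib]
    simp [mul_comm]
  have h4 : (∑ y : F, ‖∑ x ∈ X, χ (x * y + 1)‖ ^ 2 : ℝ) =
      (Fintype.card F : ℝ) * X.card - ‖∑ x ∈ X, χ x‖ ^ 2 := by
    exact_mod_cast h1
  rw [h4]
  have := sq_nonneg ‖∑ x ∈ X, χ x‖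
  linarith

theorem mix_bound (χ : MulChar F ℂ) (hχ : χ ≠ 1) (X Y : Finset F) (hX : (0 : F) ∉ X) :
    ‖∑ x ∈ X, ∑ y ∈ Y, χ (x * y + 1)‖ ≤
      Real.sqrt ((Fintype.card F : ℝ) * (X.card * Y.card)) := by
  apply Real.le_sqrt_of_sq_le
  rw [Finset.sum_comm]
  calc ‖∑ y ∈ Y, ∑ x ∈ X, χ (x * y + 1)‖ ^ 2
      ≤ (∑ y ∈ Y, ‖∑ x ∈ X, χ (x * y + 1)‖) ^ 2 := by
        gcongr
        exact norm_sum_le _ _
    _ ≤ Y.card * ∑ y ∈ Y, ‖∑ x ∈ X, χ (x * y + 1)‖ ^ 2 := sq_sum_le_card_mul_sum_sq
    _ ≤ Y.card * ∑ y : F, ‖∑ x ∈ X, χ (x * y + 1)‖ ^ 2 := by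
        gcongr
        exact Finset.subset_univ Y
    _ ≤ Y.card * ((Fintype.card F : ℝ) * X.card) := by
        gcongr
        exact mix_second χ hχ X hX
    _ = (Fintype.card F : ℝ) * (X.card * Y.card) := by ring

theorem mixing_core (hF : 2 < Fintype.card F)
    (hK : ∃ (ι : Type) (s : Finset ι) (a : ι → ℂ) (χ : ι → MulChar F ℂ),
      (∀ i ∈ s, χ i ≠ 1) ∧
      (∑ i ∈ s, ‖a i‖ ≤ (2 ^ (Fintype.card F - 1).primeFactors.card - 1) *
        ((Nat.totient (Fintype.card F - 1) : ℝ) / (Fintype.card F - 1 : ℕ))) ∧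
      (∀ x : F, x ≠ 0 → Prim x →
        ((Nat.totient (Fintype.card F - 1) : ℂ) / (Fintype.card F - 1 : ℕ)) +
          ∑ i ∈ s, a i * χ i x = 1) ∧
      (∀ x : F, x ≠ 0 → ¬ Prim x →
        ((Nat.totient (Fintype.card F - 1) : ℂ) / (Fintype.card F - 1 : ℕ)) +
          ∑ i ∈ s, a i * χ i x = 0))
    (X Y : Finset F) (hX : (0 : F) ∉ X) (hY : (0 : F) ∉ Y)
    (h : 4 ^ (Fintype.card F - 1).primeFactors.card * Fintype.card F < X.card * Y.card) :
    ∃ x ∈ X, ∃ y ∈ Y, Prim (x * y + 1) := by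
  classical
  by_contra hcon
  push Not at hcon
  obtain ⟨ι, s, a, χ, hχ, ha, -, hnp⟩ := hK
  set q := Fintype.card F with hq
  set w := (q - 1).primeFactors.card with hw
  set ρ : ℝ := (Nat.totient (q - 1) : ℝ) / (q - 1 : ℕ) with hρ
  have hρc : ((Nat.totient (q - 1) : ℂ) / (q - 1 : ℕ)) = (ρ : ℂ) := by
    rw [hρ]; push_cast; rfl
  have hρ0 : 0 < ρ := by
    have h1 : 0 < q - 1 := by omega
    have h2 : 0 < Nat.totient (q - 1) := Nat.totient_pos.2 h1
    rw [hρ]; positivity
  rw [hρc] at hnp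
  -- the number of pairs with `x * y + 1 = 0`
  set Z : ℕ := ((X ×ˢ Y).filter fun p => p.1 * p.2 + 1 = 0).card with hZ
  have hZX : Z ≤ X.card := by
    refine Finset.card_le_card_of_injOn (fun p => p.1) ?_ ?_
    · intro p hp
      simp only [coe_filter, mem_product, Set.mem_ofPred_eq] at hp
      exact hp.1.1
    · intro p hp p' hp' hpp
      simp only [coe_filter, mem_product, Set.mem_ofPred_eq] at hp hp'
      have h1 : p.1 = p'.1 := hpp
      have h2 : p.1 ≠ 0 := fun h0 => hX (h0 ▸ hp.1.1)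
      refine Prod.ext h1 ?_
      have h3 : p.1 * (p.2 - p'.2) = 0 := by
        rw [mul_sub]
        have h4 := hp'.2
        rw [← h1] at h4
        linear_combination hp.2 - h4
      have h5 := (mul_eq_zero.1 h3).resolve_left h2
      linear_combination h5
  have hZY : Z ≤ Y.card := by
    refine Finset.card_le_card_of_injOn (fun p => p.2) ?_ ?_
    · intro p hp
      simp only [coe_filter, mem_product, Set.mem_ofPred_eq] at hp
      exact hp.1.2
    · intro p hp p' hp' hpp
      simp only [coe_filter, mem_product, Set.mem_ofPred_eq] at hp hp'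
      have h1 : p.2 = p'.2 := hpp
      have h2 : p.2 ≠ 0 := fun h0 => hY (h0 ▸ hp.1.2)
      refine Prod.ext ?_ h1
      have h3 : (p.1 - p'.1) * p.2 = 0 := by
        rw [sub_mul]
        have h4 := hp'.2
        rw [← h1] at h4
        linear_combination hp.2 - h4
      have h5 := (mul_eq_zero.1 h3).resolve_right h2
      linear_combination h5
  -- the total sum
  have hsum : ∑ x ∈ X, ∑ y ∈ Y, ((ρ : ℂ) + ∑ i ∈ s, a i * χ i (x * y + 1)) = (ρ : ℂ) * Z := by
    rw [← Finset.sum_product']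
    have h1 : ∀ p ∈ X ×ˢ Y, ((ρ : ℂ) + ∑ i ∈ s, a i * χ i (p.1 * p.2 + 1)) =
        if p.1 * p.2 + 1 = 0 then (ρ : ℂ) else 0 := by
      intro p hp
      rw [mem_product] at hp
      split_ifs with h0
      · rw [h0]
        simp [MulChar.map_zero]
      · exact hnp _ h0 (hcon _ hp.1 _ hp.2)
    rw [Finset.sum_congr rfl h1, ← Finset.sum_filter, sum_const, nsmul_eq_mul, mul_comm]
  have hsum2 : ∑ x ∈ X, ∑ y ∈ Y, ((ρ : ℂ) + ∑ i ∈ s, a i * χ i (x * y + 1)) =
      (ρ : ℂ) * (X.card * Y.card) + ∑ i ∈ s, a i * ∑ x ∈ X, ∑ y ∈ Y, χ i (x * y + 1) := by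
    simp only [Finset.sum_add_distrib, sum_const, nsmul_eq_mul, Finset.mul_sum]
    congr 1
    · ring
    · rw [Finset.sum_congr rfl fun x _ => Finset.sum_comm, Finset.sum_comm]
  have hmain : ρ * ((X.card : ℝ) * Y.card - Z) ≤
      (2 ^ w - 1) * ρ * Real.sqrt ((q : ℝ) * (X.card * Y.card)) := by
    have h1 : ((ρ * ((X.card : ℝ) * Y.card - Z) : ℝ) : ℂ) =
        - ∑ i ∈ s, a i * ∑ x ∈ X, ∑ y ∈ Y, χ i (x * y + 1) := by
      push_cast
      linear_combination hsum2.symm.trans hsum
    have h2 : ρ * ((X.card : ℝ) * Y.card - Z) ≤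
        ‖((ρ * ((X.card : ℝ) * Y.card - Z) : ℝ) : ℂ)‖ := by
      rw [Complex.norm_real]
      exact Real.le_norm_self _
    refine h2.trans ?_
    rw [h1, norm_neg]
    calc ‖∑ i ∈ s, a i * ∑ x ∈ X, ∑ y ∈ Y, χ i (x * y + 1)‖
        ≤ ∑ i ∈ s, ‖a i * ∑ x ∈ X, ∑ y ∈ Y, χ i (x * y + 1)‖ := norm_sum_le _ _
      _ ≤ ∑ i ∈ s, ‖a i‖ * Real.sqrt ((q : ℝ) * (X.card * Y.card)) := by
          refine Finset.sum_le_sum fun i hi => ?_
          rw [norm_mul]
          gcongr
          exact mix_bound (χ i) (hχ i hi) X Y hX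
      _ = (∑ i ∈ s, ‖a i‖) * Real.sqrt ((q : ℝ) * (X.card * Y.card)) := by
          rw [Finset.sum_mul]
      _ ≤ _ := by
          gcongr
  -- conclusion
  set P : ℝ := (X.card : ℝ) * Y.card with hP
  set m := Real.sqrt P with hm
  have hP0 : 0 ≤ P := by positivity
  have hmP : m ^ 2 = P := Real.sq_sqrt hP0
  have hm0 : 0 ≤ m := Real.sqrt_nonneg _
  have hhR : (4 : ℝ) ^ w * q < P := by
    rw [hP]
    exact_mod_cast h
  have hW : (2 ^ w : ℝ) ^ 2 = 4 ^ w := by
    rw [← pow_mul, mul_comm, pow_mul]; norm_num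
  have hZm : (Z : ℝ) ≤ m := by
    apply Real.le_sqrt_of_sq_le
    rw [hP, sq]
    have e1 : (Z : ℝ) ≤ X.card := by exact_mod_cast hZX
    have e2 : (Z : ℝ) ≤ Y.card := by exact_mod_cast hZY
    gcongr
  have hsq : Real.sqrt ((q : ℝ) * P) = Real.sqrt q * m := by
    rw [Real.sqrt_mul (by positivity)]
  rw [hsq] at hmain
  have hsq1 : (1 : ℝ) ≤ Real.sqrt q := by
    rw [Real.one_le_sqrt]
    have : 1 ≤ q := by omega
    exact_mod_cast this
  have hqq : Real.sqrt q ^ 2 = (q : ℝ) := Real.sq_sqrt (by positivity)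
  have hmpos : 0 < m := by
    apply Real.sqrt_pos.2
    refine lt_of_le_of_lt ?_ hhR
    positivity
  have hW1 : (1 : ℝ) ≤ 2 ^ w := one_le_pow₀ (by norm_num)
  have h1 : P - Z ≤ (2 ^ w - 1) * (Real.sqrt q * m) := by
    have h2 : ρ * (P - Z) ≤ ρ * ((2 ^ w - 1) * (Real.sqrt q * m)) := by
      refine hmain.trans (le_of_eq ?_)
      ring
    exact le_of_mul_le_mul_left h2 hρ0
  have h2 : m ^ 2 - m ≤ (2 ^ w - 1) * (Real.sqrt q * m) := by
    rw [hmP]; linarith
  have h3 : m - 1 ≤ (2 ^ w - 1) * Real.sqrt q := by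
    have h4 : m * (m - 1) ≤ m * ((2 ^ w - 1) * Real.sqrt q) := by
      nlinarith
    exact le_of_mul_le_mul_left h4 hmpos
  have h4 : m ≤ 2 ^ w * Real.sqrt q := by nlinarith
  have h5 : m ^ 2 ≤ (2 ^ w * Real.sqrt q) ^ 2 := by gcongr
  rw [hmP, mul_pow, hW, hqq] at h5
  linarith

end

end R457.CP
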