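import Mathlib
import Pool.Agent.R457.CP.Defs

set_option autoImplicit false

/-!
# MP_1a41ac_nt, piece CP-K: expansion of the indicator of primitive elements in characters
-/

namespace R457.CP

open Finset

/-- the coefficients of the expansion for one prime `l` -/
noncomputable def bco (l : ℕ) (j : ℕ) : ℂ := (if j = 0 then 1 else 0) - (l : ℂ)⁻¹

theorem sum_bco {l : ℕ} (hl : l.Prime) {z : ℂ} (hz : z ^ l = 1) :
    ∑ j ∈ range l, bco l j * z ^ j = if z = 1 then 0 else 1 := by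
  have hl0 : (l : ℂ) ≠ 0 := by exact_mod_cast hl.ne_zero
  have h1 : ∑ j ∈ range l, bco l j * z ^ j =
      (∑ j ∈ range l, (if j = 0 then z ^ j else 0)) - (l : ℂ)⁻¹ * ∑ j ∈ range l, z ^ j := by
    rw [mul_sum, ← sum_sub_distrib]
    apply sum_congr rfl
    intro j _
    unfold bco
    split_ifs <;> ring
  have h2 : ∑ j ∈ range l, (if j = 0 then z ^ j else (0 : ℂ)) = 1 := by
    rw [sum_ite_eq' (range l) 0 (fun j => z ^ j)]
    simp [hl.pos]
  rw [h1, h2]
  split_ifs with h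
  · subst h
    simp [hl0]
  · have h3 : ∑ j ∈ range l, z ^ j = 0 := by
      have := geom_sum_mul z l
      rw [hz, sub_self] at this
      rcases mul_eq_zero.1 this with h4 | h4
      · exact h4
      · exact absurd (sub_eq_zero.1 h4) h
    rw [h3]; ring

theorem sum_norm_bco {l : ℕ} (hl : l.Prime) :
    ∑ j ∈ range l, ‖bco l j‖ = 2 * (1 - (l : ℝ)⁻¹) := by
  have hl0 : (l : ℝ) ≠ 0 := by exact_mod_cast hl.ne_zero
  have hl1 : (1 : ℝ) ≤ l := by exact_mod_cast hl.one_lt.le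
  have hinv : (l : ℝ)⁻¹ ≤ 1 := inv_le_one_of_one_le₀ hl1
  have h1 : ∀ j ∈ range l, ‖bco l j‖ = (if j = 0 then 1 - 2 * (l : ℝ)⁻¹ else 0) + (l : ℝ)⁻¹ := by
    intro j _
    unfold bco
    split_ifs with h
    · have : (1 : ℂ) - (l : ℂ)⁻¹ = ((1 - (l : ℝ)⁻¹ : ℝ) : ℂ) := by push_cast; ring
      rw [this, Complex.norm_real, Real.norm_of_nonneg (by linarith)]
      ring
    · rw [zero_sub, norm_neg, norm_inv, Complex.norm_natCast]
      ring
  rw [sum_congr rfl h1, sum_add_distrib, sum_ite_eq' (range l) 0 (fun _ => 1 - 2 * (l : ℝ)⁻¹)]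
  simp only [mem_range, hl.pos, if_true, sum_const, card_range, nsmul_eq_mul]
  field_simp
  ring

/-- the invariant of the induction -/
def Inv (F : Type*) [Field F] [Fintype F] (N : ℕ) (S : Finset ℕ) : Prop :=
  ∃ (ι : Type) (s : Finset ι) (a : ι → ℂ) (χ : ι → MulChar F ℂ),
    (∀ i ∈ s, χ i ≠ 1) ∧ (∀ i ∈ s, χ i ^ (∏ l ∈ S, l) = 1) ∧
    (∑ i ∈ s, ‖a i‖ ≤ (2 ^ S.card - 1) * ∏ l ∈ S, (1 - (l : ℝ)⁻¹)) ∧
    (∀ x : F, x ≠ 0 → (∀ l ∈ S, x ^ (N / l) ≠ 1) →
      (∏ l ∈ S, (1 - (l : ℂ)⁻¹)) + ∑ i ∈ s, a i * χ i x = 1) ∧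
    (∀ x : F, x ≠ 0 → ¬ (∀ l ∈ S, x ^ (N / l) ≠ 1) →
      (∏ l ∈ S, (1 - (l : ℂ)⁻¹)) + ∑ i ∈ s, a i * χ i x = 0)

theorem exists_theta (F : Type*) [Field F] [Fintype F] {N : ℕ} (hN : Fintype.card F - 1 = N)
    {l : ℕ} (hl : l.Prime) (hlN : l ∣ N) :
    ∃ θ : MulChar F ℂ, orderOf θ = l ∧ ∀ x : F, x ≠ 0 → (θ x = 1 ↔ x ^ (N / l) = 1) := by
  classical
  have hN0 : N ≠ 0 := by
    rw [← hN]
    have := Fintype.one_lt_card (α := F)
    omega
  obtain ⟨θ, hθ⟩ := MulChar.exists_mulChar_orderOf F (n := N) (by rw [hN])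
    (Complex.isPrimitiveRoot_exp N hN0)
  obtain ⟨g, hg⟩ := IsCyclic.exists_generator (α := Fˣ)
  have hcard : Fintype.card Fˣ = N := by rw [Fintype.card_units, hN]
  -- the value at the generator has order N
  have key : ∀ k : ℕ, θ g ^ k = 1 ↔ N ∣ k := by
    intro k
    rw [← hθ, orderOf_dvd_iff_pow_eq_one, MulChar.eq_iff hg, MulChar.pow_apply_coe,
      MulChar.one_apply_coe]
  have inj : ∀ u : Fˣ, θ u = 1 ↔ u = 1 := by
    intro u
    constructor
    · intro h
      obtain ⟨k, rfl⟩ : ∃ k : ℕ, g ^ k = u := by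
        have := hg u
        rw [mem_zpowers_iff_mem_range_orderOf] at this
        obtain ⟨k, -, hk⟩ := Finset.mem_image.1 this
        exact ⟨k, hk⟩
      have h1 : θ g ^ k = 1 := by
        rw [← h, Units.val_pow_eq_pow_val, map_pow]
      obtain ⟨m, rfl⟩ := (key k).1 h1
      rw [pow_mul, ← hcard, pow_card_eq_one, one_pow]
    · rintro rfl
      simp
  refine ⟨θ ^ (N / l), ?_, ?_⟩
  · rw [orderOf_pow_of_dvd (Nat.div_pos (Nat.le_of_dvd (Nat.pos_of_ne_zero hN0) hlN) hl.pos).ne'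
      (by rw [hθ]; exact Nat.div_dvd_of_dvd hlN), hθ]
    exact Nat.div_div_self hlN hN0
  · intro x hx
    lift x to Fˣ using IsUnit.mk0 x hx
    rw [MulChar.pow_apply_coe, ← map_pow, ← Units.val_pow_eq_pow_val, inj]
    constructor
    · intro h; rw [h]; rfl
    · intro h; exact Units.ext h

theorem inv_step {F : Type*} [Field F] [Fintype F] {N : ℕ} (hN : Fintype.card F - 1 = N)
    {S : Finset ℕ} {l : ℕ} (hlS : l ∉ S) (hl : l.Prime) (hlN : l ∣ N)
    (hS : ∀ p ∈ S, p.Prime) (h : Inv F N S) : Inv F N (insert l S) := by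
  classical
  obtain ⟨ι, s, a, χ, h1, h2, h3, h4, h5⟩ := h
  obtain ⟨θ, hθ, hθx⟩ := exists_theta F hN hl hlN
  set ρ : ℝ := ∏ p ∈ S, (1 - (p : ℝ)⁻¹) with hρ
  have hρC : (∏ p ∈ S, (1 - (p : ℂ)⁻¹)) = (ρ : ℂ) := by
    rw [hρ]; push_cast; rfl
  rw [hρC] at h4 h5
  have hρ0 : 0 ≤ ρ := by
    rw [hρ]
    apply prod_nonneg
    intro p hp
    have : (1 : ℝ) ≤ p := by exact_mod_cast (hS p hp).one_lt.le
    have := inv_le_one_of_one_le₀ this
    linarith
  -- the new data
  let A : Option ι → ℂ := fun o => o.elim (ρ : ℂ) a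
  let X : Option ι → MulChar F ℂ := fun o => o.elim 1 χ
  let T : Finset (Option ι × ℕ) := (insertNone s) ×ˢ (range l)
  have hXP : ∀ o ∈ insertNone s, X o ^ (∏ p ∈ S, p) = 1 := by
    intro o ho
    cases o with
    | none => exact one_pow _
    | some i => exact h2 i (by simpa using ho)
  have h0T : ((none, 0) : Option ι × ℕ) ∈ T := by
    simp only [T, mem_product, mem_range, hl.pos, and_true]
    simp
  -- the value of the product expansion
  have hval : ∀ x : F, x ≠ 0 → ∑ t ∈ T, (A t.1 * bco l t.2) * (X t.1 * θ ^ t.2) x =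
      ((ρ : ℂ) + ∑ i ∈ s, a i * χ i x) * ∑ j ∈ range l, bco l j * (θ x) ^ j := by
    intro x hx
    have e1 : ((ρ : ℂ) + ∑ i ∈ s, a i * χ i x) = ∑ o ∈ insertNone s, A o * X o x := by
      rw [sum_insertNone]
      simp only [A, X, Option.elim]
      rw [MulChar.one_apply (IsUnit.mk0 x hx), mul_one]
    rw [e1, sum_mul_sum, ← sum_product']
    apply sum_congr rfl
    intro t _
    rw [MulChar.mul_apply]
    have e2 : (θ ^ t.2) x = θ x ^ t.2 := by
      lift x to Fˣ using IsUnit.mk0 x hx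
      exact MulChar.pow_apply_coe θ t.2 x
    rw [e2]; ring
  have hsplit : ∀ x : F, x ≠ 0 → (∏ p ∈ insert l S, (1 - (p : ℂ)⁻¹)) +
      ∑ t ∈ T.erase (none, 0), (A t.1 * bco l t.2) * (X t.1 * θ ^ t.2) x =
      ((ρ : ℂ) + ∑ i ∈ s, a i * χ i x) * ∑ j ∈ range l, bco l j * (θ x) ^ j := by
    intro x hx
    rw [← hval x hx, ← add_sum_erase T _ h0T, prod_insert hlS, hρC]
    congr 1
    simp only [A, X, Option.elim, pow_zero, mul_one]
    rw [MulChar.one_apply (IsUnit.mk0 x hx)]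
    simp [bco]
    ring
  have hzl : ∀ x : F, x ≠ 0 → θ x ^ l = 1 := by
    intro x hx
    rw [← MulChar.pow_apply' θ hl.ne_zero, ← hθ, pow_orderOf_eq_one,
      MulChar.one_apply (IsUnit.mk0 x hx)]
  refine ⟨Option ι × ℕ, T.erase (none, 0), fun t => A t.1 * bco l t.2,
    fun t => X t.1 * θ ^ t.2, ?_, ?_, ?_, ?_, ?_⟩
  · rintro ⟨o, j⟩ ht h
    obtain ⟨hne, hT⟩ := mem_erase.1 ht
    simp only [T, mem_product, mem_range] at hT
    obtain ⟨ho, hj⟩ := hT
    simp only at h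
    have h6 : θ ^ (j * ∏ p ∈ S, p) = 1 := by
      have := congrArg (fun z => z ^ (∏ p ∈ S, p)) h
      simp only [mul_pow, hXP o ho, one_mul, one_pow] at this
      rw [pow_mul]; exact this
    rw [← orderOf_dvd_iff_pow_eq_one, hθ] at h6
    have h7 : l ∣ j := by
      rcases (hl.dvd_mul).1 h6 with h7 | h7
      · exact h7
      · exfalso
        obtain ⟨p, hp, hlp⟩ := (hl.prime.dvd_finsetProd_iff _).1 h7
        rw [(Nat.prime_dvd_prime_iff_eq hl (hS p hp)).1 hlp] at hlS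
        exact hlS hp
    have h8 : j = 0 := by
      rcases Nat.eq_zero_or_pos j with h | h
      · exact h
      · exact absurd (Nat.le_of_dvd h h7) (by omega)
    subst h8
    rw [pow_zero, mul_one] at h
    cases o with
    | none => exact hne rfl
    | some i => exact h1 i (by simpa using ho) h
  · rintro ⟨o, j⟩ ht
    obtain ⟨hne, hT⟩ := mem_erase.1 ht
    simp only [T, mem_product, mem_range] at hT
    simp only [prod_insert hlS]
    rw [mul_pow, mul_comm l, pow_mul, hXP o hT.1, one_pow, one_mul, ← pow_mul,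
      mul_comm (∏ p ∈ S, p) l, mul_left_comm, pow_mul, ← hθ, pow_orderOf_eq_one, one_pow]
  · have e1 : ∑ t ∈ T, ‖A t.1 * bco l t.2‖ = (ρ + ∑ i ∈ s, ‖a i‖) * (2 * (1 - (l : ℝ)⁻¹)) := by
      rw [← sum_norm_bco hl]
      have : (ρ + ∑ i ∈ s, ‖a i‖) = ∑ o ∈ insertNone s, ‖A o‖ := by
        rw [sum_insertNone]
        simp only [A, Option.elim]
        rw [Complex.norm_real, Real.norm_of_nonneg hρ0]
      rw [this, sum_mul_sum, ← sum_product']
      apply sum_congr rfl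
      intro t _
      rw [norm_mul]
    have e2 := add_sum_erase T (fun t => ‖A t.1 * bco l t.2‖) h0T
    have e3 : ‖A (none, 0).1 * bco l ((none, 0) : Option ι × ℕ).2‖ = ρ * (1 - (l : ℝ)⁻¹) := by
      have hl1 : (1 : ℝ) ≤ l := by exact_mod_cast hl.one_lt.le
      have := inv_le_one_of_one_le₀ hl1
      have h9 : A none * bco l 0 = ((ρ * (1 - (l : ℝ)⁻¹) : ℝ) : ℂ) := by
        simp [A, bco]
      show ‖A none * bco l 0‖ = _
      rw [h9, Complex.norm_real, Real.norm_of_nonneg (mul_nonneg hρ0 (by linarith))]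
    have hl1 : (1 : ℝ) ≤ l := by exact_mod_cast hl.one_lt.le
    have hli := inv_le_one_of_one_le₀ hl1
    rw [prod_insert hlS, card_insert_of_notMem hlS, pow_succ, ← hρ]
    have e4 : ∑ t ∈ T.erase (none, 0), ‖A t.1 * bco l t.2‖ =
        (ρ + ∑ i ∈ s, ‖a i‖) * (2 * (1 - (l : ℝ)⁻¹)) - ρ * (1 - (l : ℝ)⁻¹) := by
      rw [← e1, ← e2, e3]; ring
    rw [e4]
    have hy : 0 ≤ 1 - (l : ℝ)⁻¹ := by linarith
    nlinarith [mul_le_mul_of_nonneg_right h3 hy]
  · intro x hx hall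
    rw [hsplit x hx, h4 x hx fun p hp => hall p (mem_insert_of_mem hp), one_mul,
      sum_bco hl (hzl x hx), if_neg]
    rw [hθx x hx]
    exact hall l (mem_insert_self _ _)
  · intro x hx hall
    rw [hsplit x hx]
    by_cases hS' : ∀ p ∈ S, x ^ (N / p) ≠ 1
    · have hlx : x ^ (N / l) = 1 := by
        by_contra hne
        apply hall
        intro p hp
        rcases mem_insert.1 hp with rfl | hp
        · exact hne
        · exact hS' p hp
      rw [sum_bco hl (hzl x hx), if_pos ((hθx x hx).2 hlx), mul_zero]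
    · rw [h5 x hx hS', zero_mul]

theorem inv_all {F : Type*} [Field F] [Fintype F] {N : ℕ} (hN : Fintype.card F - 1 = N)
    (S : Finset ℕ) (hS : S ⊆ N.primeFactors) : Inv F N S := by
  classical
  induction S using Finset.induction_on with
  | empty =>
    refine ⟨Empty, ∅, fun _ => 0, fun _ => 1, by simp, by simp, by simp, by simp, ?_⟩
    intro x _ h
    exact absurd (fun l hl => absurd hl (notMem_empty l)) h
  | insert l S hlS ih =>
    have hl := hS (mem_insert_self l S)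
    have hS' : S ⊆ N.primeFactors := fun p hp => hS (mem_insert_of_mem hp)
    exact inv_step hN hlS (Nat.prime_of_mem_primeFactors hl) (Nat.dvd_of_mem_primeFactors hl)
      (fun p hp => Nat.prime_of_mem_primeFactors (hS' hp)) (ih hS')

theorem prim_iff {F : Type*} [Field F] [Fintype F] {N : ℕ} (hN : Fintype.card F - 1 = N)
    {x : F} (hx : x ≠ 0) : Prim x ↔ ∀ l ∈ N.primeFactors, x ^ (N / l) ≠ 1 := by
  have hN0 : 0 < N := by
    rw [← hN]
    have := Fintype.one_lt_card (α := F)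
    omega
  unfold Prim
  rw [hN]
  constructor
  · intro h l hl h1
    have h2 := orderOf_dvd_of_pow_eq_one h1
    rw [h] at h2
    have hlp := Nat.prime_of_mem_primeFactors hl
    have h3 : N / l < N := Nat.div_lt_self hN0 hlp.one_lt
    have h4 : 0 < N / l :=
      Nat.div_pos (Nat.le_of_dvd hN0 (Nat.dvd_of_mem_primeFactors hl)) hlp.pos
    exact absurd (Nat.le_of_dvd h4 h2) (by omega)
  · intro h
    apply orderOf_eq_of_pow_and_pow_div_prime hN0
    · rw [← hN]; exact FiniteField.pow_card_sub_one_eq_one x hx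
    · intro p hp hpN
      exact h p (Nat.mem_primeFactors.2 ⟨hp, hpN, hN0.ne'⟩)

theorem prim_expansion (F : Type*) [Field F] [Fintype F] (hF : 2 < Fintype.card F) :
    ∃ (ι : Type) (s : Finset ι) (a : ι → ℂ) (χ : ι → MulChar F ℂ),
      (∀ i ∈ s, χ i ≠ 1) ∧
      (∑ i ∈ s, ‖a i‖ ≤ (2 ^ (Fintype.card F - 1).primeFactors.card - 1) *
        ((Nat.totient (Fintype.card F - 1) : ℝ) / (Fintype.card F - 1 : ℕ))) ∧
      (∀ x : F, x ≠ 0 → Prim x →
        ((Nat.totient (Fintype.card F - 1) : ℂ) / (Fintype.card F - 1 : ℕ)) +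
          ∑ i ∈ s, a i * χ i x = 1) ∧
      (∀ x : F, x ≠ 0 → ¬ Prim x →
        ((Nat.totient (Fintype.card F - 1) : ℂ) / (Fintype.card F - 1 : ℕ)) +
          ∑ i ∈ s, a i * χ i x = 0) := by
  obtain ⟨N, hN⟩ : ∃ N, Fintype.card F - 1 = N := ⟨_, rfl⟩
  have hN0 : N ≠ 0 := by omega
  obtain ⟨ι, s, a, χ, h1, -, h3, h4, h5⟩ := inv_all hN N.primeFactors (Finset.Subset.refl _)
  have hQ : (∏ p ∈ N.primeFactors, (1 - (p : ℚ)⁻¹)) = (Nat.totient N : ℚ) / N := by
    have h0 : (N : ℚ) ≠ 0 := by exact_mod_cast hN0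
    rw [Nat.totient_eq_mul_prod_factors, mul_div_cancel_left₀ _ h0]
  have hR : (∏ p ∈ N.primeFactors, (1 - (p : ℝ)⁻¹)) = (Nat.totient N : ℝ) / (N : ℕ) := by
    have := congrArg (fun z : ℚ => (z : ℝ)) hQ
    push_cast at this
    exact this
  have hC : (∏ p ∈ N.primeFactors, (1 - (p : ℂ)⁻¹)) = (Nat.totient N : ℂ) / (N : ℕ) := by
    have := congrArg (fun z : ℚ => (z : ℂ)) hQ
    push_cast at this
    exact this
  rw [hN]
  rw [hR] at h3
  rw [hC] at h4 h5
  exact ⟨ι, s, a, χ, h1, h3, fun x hx hp => h4 x hx ((prim_iff hN hx).1 hp),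
    fun x hx hp => h5 x hx fun h => hp ((prim_iff hN hx).2 h)⟩

end R457.CP
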