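import Mathlib
import Pool.Agent.R457.CP.Defs
import Pool.Agent.R457.CP.K

/-!
# MP_1a41ac_nt, piece CP-G: a primitive `x` with `x - 1` a nonsquare, `q = 3 mod 4`
-/

set_option autoImplicit false
set_option maxRecDepth 100000

namespace R457.CP

namespace GAux

open Finset

/-! ### numbers -/

theorem small : ∀ N ∈ Finset.range 228, (N % 4 = 2 ∧ 6 < N ∧ N ≠ 10 ∧ N ≠ 30 ∧ N ≠ 42 ∧ N ≠ 210) →
    (2 ^ (N.primeFactors.card) - 1) ^ 2 * (N + 1) < (N - 1) ^ 2 := by decide +kernel

theorem sub4 : ∀ A ∈ ({2, 3, 5, 7} : Finset ℕ).powerset,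
    A.card ≤ 5 ∧ 9 * 4 ^ 5 ≤ 4 * (∏ p ∈ A, p) * 11 ^ (5 - A.card) := by decide +kernel

theorem five (S : Finset ℕ) (hS : ∀ p ∈ S, p.Prime) (h5 : 5 ≤ S.card) :
    9 * 4 ^ S.card ≤ 4 * ∏ p ∈ S, p := by
  set A := S.filter (· < 11) with hA
  set B := S.filter (fun p => ¬ p < 11) with hB
  have hAs : A ∈ ({2, 3, 5, 7} : Finset ℕ).powerset := by
    rw [mem_powerset]
    intro p hp
    obtain ⟨h1, h2⟩ := mem_filter.1 hp
    have h3 := hS p h1
    interval_cases p <;> revert h3 <;> decide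
  have hAB : A.card + B.card = S.card := card_filter_add_card_filter_not _
  have hprod : (∏ p ∈ A, p) * (∏ p ∈ B, p) = ∏ p ∈ S, p := prod_filter_mul_prod_filter_not _ _ _
  have hB11 : 11 ^ B.card ≤ ∏ p ∈ B, p := by
    rw [← prod_const]
    refine prod_le_prod' fun p hp => ?_
    have := (mem_filter.1 hp).2
    omega
  obtain ⟨h6, h7⟩ := sub4 A hAs
  obtain ⟨r, hr⟩ : ∃ r, B.card = (5 - A.card) + r := ⟨B.card - (5 - A.card), by omega⟩
  have hSr : S.card = 5 + r := by omega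
  rw [← hprod, hSr]
  calc 9 * 4 ^ (5 + r) = (9 * 4 ^ 5) * 4 ^ r := by ring
    _ ≤ (4 * (∏ p ∈ A, p) * 11 ^ (5 - A.card)) * 11 ^ r := by
        gcongr
        norm_num
    _ = 4 * ((∏ p ∈ A, p) * 11 ^ B.card) := by rw [hr, pow_add]; ring
    _ ≤ 4 * ((∏ p ∈ A, p) * ∏ p ∈ B, p) := by gcongr

theorem num {N : ℕ} (h1 : N % 4 = 2) (h2 : 6 < N) (h3 : N ≠ 10) (h4 : N ≠ 30) (h5 : N ≠ 42)
    (h6 : N ≠ 210) : (2 ^ (N.primeFactors.card) - 1) ^ 2 * (N + 1) < (N - 1) ^ 2 := by
  rcases Nat.lt_or_ge N 228 with h | h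
  · exact small N (mem_range.2 h) ⟨h1, h2, h3, h4, h5, h6⟩
  obtain ⟨M, rfl⟩ : ∃ M, N = M + 1 := ⟨N - 1, by omega⟩
  rw [Nat.add_sub_cancel]
  rcases Nat.lt_or_ge (M + 1).primeFactors.card 5 with h7 | h7
  · have h8 : 2 ^ (M + 1).primeFactors.card ≤ 2 ^ 4 := Nat.pow_le_pow_right (by norm_num) (by omega)
    have h9 : 2 ^ (M + 1).primeFactors.card - 1 ≤ 15 := by omega
    calc (2 ^ (M + 1).primeFactors.card - 1) ^ 2 * (M + 1 + 1) ≤ 15 ^ 2 * (M + 1 + 1) := by gcongr
      _ < M ^ 2 := by nlinarith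
  · have h8 := five _ (fun p hp => Nat.prime_of_mem_primeFactors hp) h7
    have h9 : ∏ p ∈ (M + 1).primeFactors, p ≤ M + 1 :=
      Nat.le_of_dvd (by omega) (Nat.prod_primeFactors_dvd _)
    have h10 : (2 ^ (M + 1).primeFactors.card - 1) ^ 2 ≤ 4 ^ (M + 1).primeFactors.card := by
      calc (2 ^ (M + 1).primeFactors.card - 1) ^ 2 ≤ (2 ^ (M + 1).primeFactors.card) ^ 2 := by
            gcongr
            exact Nat.sub_le _ _
        _ = 4 ^ (M + 1).primeFactors.card := by
            rw [← pow_mul, mul_comm, pow_mul]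
            norm_num
    have h11 : 9 * (2 ^ (M + 1).primeFactors.card - 1) ^ 2 ≤ 4 * (M + 1) := by omega
    generalize (2 ^ (M + 1).primeFactors.card - 1) ^ 2 = A at h11 ⊢
    have h12 : 9 * (A * (M + 1 + 1)) ≤ 4 * (M + 1) * (M + 1 + 1) := by
      calc 9 * (A * (M + 1 + 1)) = 9 * A * (M + 1 + 1) := by ring
        _ ≤ _ := by gcongr
    nlinarith

/-! ### characters -/

variable {F : Type*} [Field F] [Fintype F]

theorem norm_neg_one (χ : MulChar F ℂ) : ‖χ (-1)‖ = 1 := by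
  have h : χ (-1) * χ (-1) = 1 := by rw [← map_mul]; simp
  have h2 : ‖χ (-1)‖ * ‖χ (-1)‖ = 1 := by rw [← norm_mul, h, norm_one]
  have h3 := norm_nonneg (χ (-1))
  nlinarith

theorem norm_jac {χ φ : MulChar F ℂ} (hχ : χ ≠ 1) (hφ : φ ≠ 1) :
    ‖jacobiSum χ φ‖ ≤ Real.sqrt (Fintype.card F) := by
  have hq : (1 : ℝ) ≤ Fintype.card F := by exact_mod_cast Fintype.card_pos
  by_cases h : χ * φ = 1
  · have h1 : φ = χ⁻¹ := (inv_eq_of_mul_eq_one_right h).symm
    rw [h1, jacobiSum_nontrivial_inv hχ, norm_neg, norm_neg_one]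
    exact Real.one_le_sqrt.2 hq
  · have hc : ringChar ℂ ≠ ringChar F := by
      rw [ringChar.eq_zero]
      exact (CharP.ringChar_ne_zero_of_finite F).symm
    have h1 := jacobiSum_mul_jacobiSum_inv hc hχ hφ h
    have h2 : jacobiSum χ⁻¹ φ⁻¹ = star (jacobiSum χ φ) := by
      rw [jacobiSum, jacobiSum, star_sum]
      refine sum_congr rfl fun x _ => ?_
      rw [star_mul', MulChar.star_apply', MulChar.star_apply']
    rw [h2] at h1
    have h3 : ‖jacobiSum χ φ‖ * ‖jacobiSum χ φ‖ = Fintype.card F := by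
      have := congrArg norm h1
      rw [norm_mul, norm_star] at this
      simpa using this
    apply Real.le_sqrt_of_sq_le
    rw [pow_two, h3]

end GAux

open GAux Finset

theorem exists_prim_nonsquare (F : Type*) [Field F] [Fintype F] (h4 : Fintype.card F % 4 = 3)
    (h7 : 7 < Fintype.card F)
    (h11 : Fintype.card F ≠ 11) (h31 : Fintype.card F ≠ 31) (h43 : Fintype.card F ≠ 43)
    (h211 : Fintype.card F ≠ 211) :
    ∃ x : F, Prim x ∧ ¬ IsSquare (x - 1) := by
  classical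
  by_contra hcon
  push Not at hcon
  obtain ⟨ι, s, a, χ, hχ, hsum, hP, hN⟩ := prim_expansion F (by omega)
  set q := Fintype.card F with hq
  set N := q - 1 with hNdef
  have hN0 : 0 < N := by omega
  have hchar : ringChar F ≠ 2 := by
    intro h
    have := FiniteField.even_card_iff_char_two.1 h
    omega
  set η : MulChar F ℂ := (quadraticChar F).ringHomComp (Int.castRingHom ℂ) with hη
  have hη1 : η ≠ 1 := by
    rw [hη, MulChar.ringHomComp_ne_one_iff (RingHom.injective_int _)]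
    exact quadraticChar_ne_one hchar
  set ρ : ℂ := (Nat.totient N : ℂ) / (N : ℕ) with hρ
  have hprim1 : ∀ x : F, Prim x → x ≠ 0 ∧ η (x - 1) = 1 := by
    intro x hx
    have hx' : orderOf x = N := hx
    have h1 : x ≠ 1 := by
      rintro rfl
      rw [orderOf_one] at hx'
      omega
    have h0 : x ≠ 0 := by
      rintro rfl
      have h2 : (0 : F) ^ N = 1 := by rw [← hx']; exact pow_orderOf_eq_one _
      rw [zero_pow hN0.ne'] at h2
      exact zero_ne_one h2
    refine ⟨h0, ?_⟩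
    have h2 := (quadraticChar_one_iff_isSquare (sub_ne_zero.2 h1)).2 (hcon x hx)
    rw [hη, MulChar.ringHomComp_apply, h2]
    simp
  have hcard : ((univ.filter fun x : F => Prim x).card : ℕ) = Nat.totient N := by
    have h1 : (univ.filter fun u : Fˣ => orderOf u = N).card = Nat.totient N := by
      refine IsCyclic.card_orderOf_eq_totient ?_
      rw [Fintype.card_units]
    rw [← h1]
    symm
    refine card_bij (fun u _ => (u : F)) ?_ ?_ ?_
    · intro u hu
      rw [mem_filter] at hu ⊢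
      refine ⟨mem_univ _, ?_⟩
      have : orderOf (u : F) = N := by rw [orderOf_units]; exact hu.2
      exact this
    · intro u _ v _ h
      exact Units.ext h
    · intro x hx
      have hx := (mem_filter.1 hx).2
      have h0 := (hprim1 x hx).1
      refine ⟨Units.mk0 x h0, ?_, rfl⟩
      rw [mem_filter]
      refine ⟨mem_univ _, ?_⟩
      rw [← orderOf_units]
      exact hx
  -- the sum
  have e1 : ∑ x : F, (ρ + ∑ i ∈ s, a i * χ i x) * η (x - 1) = ρ * η (-1) + Nat.totient N := by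
    rw [← Finset.add_sum_erase univ _ (mem_univ (0 : F))]
    congr 1
    · have h0 : ∑ i ∈ s, a i * χ i 0 = 0 :=
        sum_eq_zero fun i _ => by rw [MulChar.map_zero, mul_zero]
      rw [h0, add_zero, zero_sub]
    · have h1 : ∀ x ∈ univ.erase (0 : F), (ρ + ∑ i ∈ s, a i * χ i x) * η (x - 1) =
          if Prim x then 1 else 0 := by
        intro x hx
        have hx0 := (mem_erase.1 hx).1
        by_cases h : Prim x
        · rw [if_pos h, hP x hx0 h, one_mul, (hprim1 x h).2]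
        · rw [if_neg h, hN x hx0 h, zero_mul]
      rw [sum_congr rfl h1, ← hcard, ← sum_filter, sum_const, nsmul_eq_mul, mul_one]
      congr 2
      ext x
      simp only [mem_filter, mem_erase, mem_univ, true_and, and_true]
      exact ⟨fun h => h.2, fun h => ⟨(hprim1 x h).1, h⟩⟩
  have e2 : ∑ x : F, η (x - 1) = 0 := by
    have := MulChar.sum_eq_zero_of_ne_one hη1
    rw [← this]
    exact Fintype.sum_equiv (Equiv.subRight (1 : F)) _ _ fun x => rfl
  have e3 : ∀ i ∈ s, ‖∑ x : F, χ i x * η (x - 1)‖ ≤ Real.sqrt q := by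
    intro i hi
    have h1 : ∑ x : F, χ i x * η (x - 1) = η (-1) * jacobiSum (χ i) η := by
      rw [jacobiSum, mul_sum]
      refine sum_congr rfl fun x _ => ?_
      have : x - 1 = -1 * (1 - x) := by ring
      rw [this, map_mul]
      ring
    rw [h1, norm_mul, norm_neg_one, one_mul]
    exact norm_jac (hχ i hi) hη1
  have e4 : ∑ x : F, (ρ + ∑ i ∈ s, a i * χ i x) * η (x - 1) =
      ∑ i ∈ s, a i * ∑ x : F, χ i x * η (x - 1) := by
    have : ∀ x : F, (ρ + ∑ i ∈ s, a i * χ i x) * η (x - 1) =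
        ρ * η (x - 1) + ∑ i ∈ s, a i * (χ i x * η (x - 1)) := by
      intro x
      rw [add_mul, sum_mul]
      congr 1
      exact sum_congr rfl fun i _ => by ring
    rw [sum_congr rfl fun x _ => this x, sum_add_distrib, ← mul_sum, e2, mul_zero, zero_add,
      sum_comm]
    exact sum_congr rfl fun i _ => by rw [mul_sum]
  have e5 : (Nat.totient N : ℂ) = ∑ i ∈ s, a i * ∑ x : F, χ i x * η (x - 1) - ρ * η (-1) := by
    rw [← e4, e1]
    ring
  have hφ0 : 0 < Nat.totient N := Nat.totient_pos.2 hN0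
  set r : ℝ := (Nat.totient N : ℝ) / (N : ℕ) with hr
  have hr0 : 0 < r := by
    rw [hr]
    have : (0 : ℝ) < N := by exact_mod_cast hN0
    have : (0 : ℝ) < Nat.totient N := by exact_mod_cast hφ0
    positivity
  have hρr : ‖ρ‖ = r := by
    rw [hρ, hr, norm_div]
    simp
  have e6 : (Nat.totient N : ℝ) ≤ (∑ i ∈ s, ‖a i‖) * Real.sqrt q + r := by
    have h1 := congrArg norm e5
    rw [Complex.norm_natCast] at h1
    rw [h1]
    refine (norm_sub_le _ _).trans ?_
    rw [norm_mul, norm_neg_one, mul_one, hρr]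
    gcongr
    refine (norm_sum_le _ _).trans ?_
    rw [sum_mul]
    refine sum_le_sum fun i hi => ?_
    rw [norm_mul]
    gcongr
    exact e3 i hi
  have e7 : (N : ℝ) ≤ (2 ^ N.primeFactors.card - 1) * Real.sqrt q + 1 := by
    have h1 : (Nat.totient N : ℝ) = r * N := by
      rw [hr]
      have : (N : ℝ) ≠ 0 := by exact_mod_cast hN0.ne'
      field_simp
    have h2 : (∑ i ∈ s, ‖a i‖) * Real.sqrt q ≤
        ((2 ^ N.primeFactors.card - 1) * r) * Real.sqrt q := by
      gcongr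
    rw [h1] at e6
    have h3 : r * N ≤ r * ((2 ^ N.primeFactors.card - 1) * Real.sqrt q + 1) := by
      calc r * (N : ℝ) ≤ (∑ i ∈ s, ‖a i‖) * Real.sqrt q + r := e6
        _ ≤ ((2 ^ N.primeFactors.card - 1) * r) * Real.sqrt q + r := by gcongr
        _ = _ := by ring
    exact le_of_mul_le_mul_left h3 hr0
  have e8 := num (N := N) (by omega) (by omega) (by omega) (by omega) (by omega) (by omega)
  have h1w : 1 ≤ 2 ^ N.primeFactors.card := Nat.one_le_two_pow
  have hqN : (q : ℝ) = (N : ℝ) + 1 := by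
    have : q = N + 1 := by omega
    rw [this]
    push_cast
    rfl
  have e9 : ((2 : ℝ) ^ N.primeFactors.card - 1) ^ 2 * ((N : ℝ) + 1) < ((N : ℝ) - 1) ^ 2 := by
    have h2 : (((2 ^ N.primeFactors.card - 1) ^ 2 * (N + 1) : ℕ) : ℝ) < (((N - 1) ^ 2 : ℕ) : ℝ) := by
      exact_mod_cast e8
    push_cast [Nat.cast_sub h1w, Nat.cast_sub (show 1 ≤ N by omega)] at h2
    exact h2
  have hs0 := Real.sqrt_nonneg (q : ℝ)
  have hs1 : Real.sqrt q ^ 2 = (N : ℝ) + 1 := by
    rw [Real.sq_sqrt (Nat.cast_nonneg _), hqN]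
  have h2w : (1 : ℝ) ≤ 2 ^ N.primeFactors.card := by exact_mod_cast h1w
  have hN1 : (1 : ℝ) ≤ N := by exact_mod_cast hN0
  have e10 : ((N : ℝ) - 1) ^ 2 ≤ (((2 : ℝ) ^ N.primeFactors.card - 1) * Real.sqrt q) ^ 2 := by
    refine pow_le_pow_left₀ (by linarith) (by linarith) 2
  rw [mul_pow, hs1] at e10
  linarith

end R457.CP
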