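import Mathlib
import Pool.Agent.R457.CP.Defs

namespace R457.CP

variable {F : Type*} [Field F] [Fintype F]

/-! ### primitive elements -/

theorem card_pos_sub (F : Type*) [Field F] [Fintype F] : 0 < Fintype.card F - 1 := by
  have : 1 < Fintype.card F := Fintype.one_lt_card
  omega

theorem Prim.ne_zero {x : F} (h : Prim x) : x ≠ 0 := by
  rintro rfl
  have h1 := card_pos_sub F
  unfold Prim at h
  rw [← h] at h1
  have h2 := pow_orderOf_eq_one (0 : F)
  rw [zero_pow h1.ne'] at h2
  exact zero_ne_one h2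

theorem prim_iff_units {x : F} (hx : x ≠ 0) :
    Prim x ↔ orderOf (Units.mk0 x hx) = Fintype.card F - 1 := by
  unfold Prim
  rw [← orderOf_units]
  rfl

theorem Prim.inv {x : F} (h : Prim x) : Prim x⁻¹ := by
  have hx := h.ne_zero
  rw [prim_iff_units hx] at h
  rw [prim_iff_units (inv_ne_zero hx)]
  have : Units.mk0 x⁻¹ (inv_ne_zero hx) = (Units.mk0 x hx)⁻¹ := by
    ext; simp
  rw [this, orderOf_inv, h]

theorem pow_card_sub (x : F) (hx : x ≠ 0) : x ^ (Fintype.card F - 1) = 1 :=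
  FiniteField.pow_card_sub_one_eq_one x hx

/-- for a primitive `w` and `N = q - 1` even, `w ^ (N/2) = -1`. -/
theorem Prim.pow_half {w : F} (h : Prim w) {H : ℕ} (hH : Fintype.card F - 1 = 2 * H) :
    w ^ H = -1 := by
  have h1 : (w ^ H) ^ 2 = 1 := by
    rw [← pow_mul, mul_comm H 2, ← hH, pow_card_sub w h.ne_zero]
  rcases sq_eq_one_iff_of_ne_zero_or h1 with h2 | h2
  · exfalso
    have h3 : orderOf w ∣ H := orderOf_dvd_of_pow_eq_one h2
    have h4 : 0 < H := by
      have := card_pos_sub F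
      omega
    have h5 := Nat.le_of_dvd h4 h3
    unfold Prim at h
    omega
  · exact h2
where
  sq_eq_one_iff_of_ne_zero_or {y : F} (h : y ^ 2 = 1) : y = 1 ∨ y = -1 := by
    have : (y - 1) * (y + 1) = 0 := by ring_nf; rw [h]; ring
    rcases mul_eq_zero.mp this with h1 | h1
    · left; linear_combination h1
    · right; linear_combination h1

/-- `-x` is primitive when `q ≡ 1 mod 4`. -/
theorem Prim.neg {x : F} (h : Prim x) (h4 : Fintype.card F % 4 = 1) : Prim (-x) := by
  have hc : 1 < Fintype.card F := Fintype.one_lt_card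
  obtain ⟨H, hH⟩ : ∃ H, Fintype.card F - 1 = 2 * H := ⟨(Fintype.card F - 1) / 2, by omega⟩
  have h1 := h.pow_half hH
  have hHe : Even H := by
    rw [Nat.even_iff]; omega
  -- -x = x^(H+1)
  have h2 : -x = x ^ (H + 1) := by rw [pow_succ, h1]; ring
  unfold Prim
  rw [h2, orderOf_pow' x (by omega), h]
  have : Nat.gcd (Fintype.card F - 1) (H + 1) = 1 := by
    rw [hH]
    have ho : Nat.Coprime 2 (H + 1) := by
      rw [Nat.coprime_two_left]
      exact hHe.add_one
    have ho2 : Nat.Coprime H (H + 1) := by simp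
    exact Nat.Coprime.mul_left ho ho2
  rw [this, Nat.div_one]

/-! ### zigzag exponents -/

/-- zigzag exponents `0, -1, 1, -2, 2, ...` -/
def zz (i : ℕ) : ℤ := if i % 2 = 0 then ((i / 2 : ℕ) : ℤ) else -(((i + 1) / 2 : ℕ) : ℤ)

theorem zz_inj {i j : ℕ} (h : zz i = zz j) : i = j := by
  unfold zz at h
  split_ifs at h <;> omega

theorem zz_lt {N i j : ℕ} (hi : i < N) (hj : j < N) : zz i - zz j < N := by
  unfold zz
  split_ifs <;> omega

theorem zz_add_even {i : ℕ} (h : i % 2 = 0) : zz i + zz (i + 1) = -1 := by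
  unfold zz
  split_ifs <;> omega

theorem zz_add_odd {i : ℕ} (h : i % 2 = 1) : zz i + zz (i + 1) = 0 := by
  unfold zz
  split_ifs <;> omega

/-- the zigzag path -/
structure IsPath (v : ℕ → F) : Prop where
  ne0 : ∀ i, i < Fintype.card F - 1 → v i ≠ 0
  inj : ∀ i j, i < Fintype.card F - 1 → j < Fintype.card F - 1 → v i = v j → i = j
  adj : ∀ i, i + 1 < Fintype.card F - 1 → Prim (v i * v (i + 1) + 1)

theorem isPath_zz {c w : F} (hc : c ≠ 0) (hw : Prim w) (h1 : Prim (1 + c ^ 2))
    (h2 : Prim (1 + c ^ 2 * w⁻¹)) : IsPath (fun i => c * w ^ zz i) := by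
  have hw0 := hw.ne_zero
  refine ⟨fun i _ => mul_ne_zero hc (zpow_ne_zero _ hw0), ?_, ?_⟩
  · intro i j hi hj hij
    have h3 : w ^ zz i = w ^ zz j := mul_left_cancel₀ hc hij
    have hwu := hw
    rw [prim_iff_units hw0] at hwu
    have h4 : (Units.mk0 w hw0) ^ zz i = (Units.mk0 w hw0) ^ zz j := by
      ext
      push_cast
      simpa using h3
    have h5 := (orderOf_dvd_sub_iff_zpow_eq_zpow).mpr h4
    rw [hwu] at h5
    have h6 := zz_lt hi hj
    have h7 := zz_lt hj hi
    have h8 : zz i - zz j = 0 := by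
      apply Int.eq_zero_of_abs_lt_dvd h5
      rw [abs_lt]
      constructor <;> linarith
    exact zz_inj (by linarith)
  · intro i _
    have h3 : c * w ^ zz i * (c * w ^ zz (i + 1)) = c ^ 2 * w ^ (zz i + zz (i + 1)) := by
      rw [zpow_add₀ hw0]; ring
    show Prim (c * w ^ zz i * (c * w ^ zz (i + 1)) + 1)
    rw [h3]
    rcases Nat.mod_two_eq_zero_or_one i with h | h
    · rw [zz_add_even h, zpow_neg_one, add_comm]; exact h2
    · rw [zz_add_odd h, zpow_zero, mul_one, add_comm]; exact h1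

/-- closing for `q ≡ 1 mod 4` -/
theorem hasCyc_of_cert (h4 : Fintype.card F % 4 = 1) {c : F} (h1 : Prim (1 + c ^ 2))
    (h2 : Prim (1 - c ^ 2)) : HasCyc F := by
  have hcard : 1 < Fintype.card F := Fintype.one_lt_card
  have hc : c ≠ 0 := by
    rintro rfl
    unfold Prim at h1
    simp at h1
    omega
  have hw : Prim (-(1 + c ^ 2)) := h1.neg h4
  have hx0 := h1.ne_zero
  have h3 : Prim (1 + c ^ 2 * (-(1 + c ^ 2))⁻¹) := by
    have : 1 + c ^ 2 * (-(1 + c ^ 2))⁻¹ = (1 + c ^ 2)⁻¹ := by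
      have := hw.ne_zero
      field_simp
      ring
    rw [this]; exact h1.inv
  have hp := isPath_zz hc hw h1 h3
  refine ⟨_, hp.ne0, hp.inj, hp.adj, ?_⟩
  obtain ⟨H, hH⟩ : ∃ H, Fintype.card F - 1 = 2 * H := ⟨(Fintype.card F - 1) / 2, by omega⟩
  have h5 : zz (Fintype.card F - 2) = -(H : ℤ) := by
    unfold zz
    split_ifs <;> omega
  have h6 : zz 0 = 0 := by simp [zz]
  show Prim (c * (-(1 + c ^ 2)) ^ zz (Fintype.card F - 2) * (c * (-(1 + c ^ 2)) ^ zz 0) + 1)
  rw [h5, h6, zpow_neg, zpow_natCast, hw.pow_half hH]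
  have : c * (-1 : F)⁻¹ * (c * (-(1 + c ^ 2)) ^ (0 : ℤ)) + 1 = 1 - c ^ 2 := by
    rw [zpow_zero, inv_neg, inv_one]; ring
  rw [this]; exact h2

/-- closing for even `q` -/
theorem hasCyc_of_certE (h2 : Fintype.card F % 2 = 0) {y : F} (hy : Prim y)
    (hy1 : y ≠ 1) (h3 : Prim (1 + y + y⁻¹)) : HasCyc F := by
  have hcard : 1 < Fintype.card F := Fintype.one_lt_card
  have hy0 := hy.ne_zero
  have hch : (2 : F) = 0 := by
    have h5 : ((Fintype.card F : ℕ) : F) = 0 := Nat.cast_card_eq_zero F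
    obtain ⟨p, hp⟩ := CharP.exists F
    have hpp : p.Prime := (CharP.char_is_prime_or_zero F p).resolve_right (by
      rintro rfl
      have := (CharP.cast_eq_zero_iff F 0 (Fintype.card F)).mp h5
      omega)
    obtain ⟨n, hn, hq⟩ := FiniteField.card F p
    have h6 : p = 2 := by
      have h7 : 2 ∣ p ^ (n : ℕ) := by rw [← hq]; omega
      exact ((Nat.prime_dvd_prime_iff_eq Nat.prime_two hpp).mp
        (Nat.prime_two.dvd_of_dvd_pow h7)).symm
    subst h6
    exact_mod_cast CharP.cast_eq_zero F 2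
  have hneg : ∀ z : F, -z = z := by
    intro z
    have : z + z = 0 := by
      have : z + z = 2 * z := by ring
      rw [this, hch, zero_mul]
    linear_combination -this
  -- `y ^ 2` is primitive
  have hcop : Nat.gcd (Fintype.card F - 1) 2 = 1 := by
    have : Nat.Coprime 2 (Fintype.card F - 1) := by
      rw [Nat.coprime_two_left, Nat.odd_iff]; omega
    exact this.symm
  have hw : Prim (y ^ 2) := by
    unfold Prim
    rw [orderOf_pow' y (by norm_num)]
    unfold Prim at hy
    rw [hy, hcop, Nat.div_one]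
  have hc : y + 1 ≠ 0 := by
    intro h
    apply hy1
    have := hneg 1
    linear_combination h + this
  have h1 : Prim (1 + (y + 1) ^ 2) := by
    have : 1 + (y + 1) ^ 2 = y ^ 2 := by
      linear_combination (1 + y) * hch
    rw [this]; exact hw
  have h4 : Prim (1 + (y + 1) ^ 2 * (y ^ 2)⁻¹) := by
    have : 1 + (y + 1) ^ 2 * (y ^ 2)⁻¹ = (y ^ 2)⁻¹ := by
      have hy2 : y ^ 2 ≠ 0 := pow_ne_zero _ hy0
      field_simp
      linear_combination (y ^ 2 + y) * hch
    rw [this]; exact hw.inv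
  have hp := isPath_zz hc hw h1 h4
  refine ⟨_, hp.ne0, hp.inj, hp.adj, ?_⟩
  obtain ⟨H, hH⟩ : ∃ H, Fintype.card F = 2 * H + 2 := ⟨(Fintype.card F - 2) / 2, by omega⟩
  have h5 : zz (Fintype.card F - 2) = (H : ℤ) := by
    unfold zz
    split_ifs <;> omega
  have h6 : zz 0 = 0 := by simp [zz]
  show Prim ((y + 1) * (y ^ 2) ^ zz (Fintype.card F - 2) * ((y + 1) * (y ^ 2) ^ zz 0) + 1)
  have h7 : (y ^ 2) ^ H = y⁻¹ := by
    have h8 : y ^ (Fintype.card F - 1) = 1 := pow_card_sub y hy0
    have h9 : Fintype.card F - 1 = 2 * H + 1 := by omega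
    rw [h9, pow_succ, pow_mul] at h8
    exact eq_inv_of_mul_eq_one_left h8
  rw [h5, h6, zpow_natCast, zpow_zero, h7]
  have : (y + 1) * y⁻¹ * ((y + 1) * 1) + 1 = 1 + y + y⁻¹ := by
    field_simp
    linear_combination (y) * hch
  rw [this]; exact h3

/-- two nonsquare values with ratio of order `(q-1)/2` -/
theorem hasCyc_of_ratio {H : ℕ} (hH : Fintype.card F - 1 = 2 * H) {t r : F} (hr : orderOf r = H)
    (ht : ¬ IsSquare t) (h1 : Prim (1 + t)) (h2 : Prim (1 + t * r)) : HasCyc F := by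
  have hHpos : 0 < H := by
    have := card_pos_sub F
    omega
  have hr0 : r ≠ 0 := by
    rintro rfl
    have h2 := pow_orderOf_eq_one (0 : F)
    rw [hr, zero_pow hHpos.ne'] at h2
    exact zero_ne_one h2
  have ht0 : t ≠ 0 := by
    rintro rfl
    exact ht ⟨0, by simp⟩
  have hrH : r ^ H = 1 := by rw [← hr]; exact pow_orderOf_eq_one r
  have hrsq : IsSquare r := by
    rcases FiniteField.isSquare_iff (F := F) (by
      intro h2c
      -- characteristic two impossible since `q` is odd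
      have := FiniteField.even_card_iff_char_two.mp h2c
      have h0 := Fintype.card_pos (α := F)
      omega) hr0 with h
    rw [h]
    have : Fintype.card F / 2 = H := by omega
    rw [this]; exact hrH
  have hrj : ∀ j : ℕ, IsSquare (r ^ j) := fun j => hrsq.pow j
  have hinj : ∀ a b : ℕ, a < H → b < H → r ^ a = r ^ b → a = b := by
    intro a b ha hb hab
    exact pow_injOn_Iio_orderOf (by simpa [hr] using ha) (by simpa [hr] using hb) hab
  set v : ℕ → F := fun i => if i % 2 = 0 then r ^ (i / 2) else t * (r ^ (i / 2))⁻¹ with hv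
  have hve : ∀ j, v (2 * j) = r ^ j := by
    intro j
    simp [hv]
  have hvo : ∀ j, v (2 * j + 1) = t * (r ^ j)⁻¹ := by
    intro j
    have h1 : (2 * j + 1) % 2 = 1 := by omega
    have h2 : (2 * j + 1) / 2 = j := by omega
    simp [hv, h1, h2]
  have hns : ∀ a b : ℕ, r ^ a ≠ t * (r ^ b)⁻¹ := by
    intro a b hab
    apply ht
    have : t = r ^ a * r ^ b := by
      rw [hab, mul_assoc, inv_mul_cancel₀ (pow_ne_zero _ hr0), mul_one]
    rw [this]
    exact (hrj a).mul (hrj b)
  refine ⟨v, ?_, ?_, ?_, ?_⟩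
  · intro i _
    rcases Nat.even_or_odd' i with ⟨j, rfl | rfl⟩
    · rw [hve]; exact pow_ne_zero _ hr0
    · rw [hvo]; exact mul_ne_zero ht0 (inv_ne_zero (pow_ne_zero _ hr0))
  · intro i j hi hj hij
    rcases Nat.even_or_odd' i with ⟨a, rfl | rfl⟩ <;> rcases Nat.even_or_odd' j with ⟨b, rfl | rfl⟩
    · rw [hve, hve] at hij
      rw [hinj a b (by omega) (by omega) hij]
    · rw [hve, hvo] at hij
      exact absurd hij (hns _ _)
    · rw [hve, hvo] at hij
      exact absurd hij.symm (hns _ _)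
    · rw [hvo, hvo] at hij
      have := inv_injective (mul_left_cancel₀ ht0 hij)
      rw [hinj a b (by omega) (by omega) this]
  · intro i _
    rcases Nat.even_or_odd' i with ⟨j, rfl | rfl⟩
    · rw [hve, hvo]
      have : r ^ j * (t * (r ^ j)⁻¹) + 1 = 1 + t := by
        field_simp
        ring
      rw [this]; exact h1
    · rw [hvo, show 2 * j + 1 + 1 = 2 * (j + 1) by ring, hve]
      have : t * (r ^ j)⁻¹ * r ^ (j + 1) + 1 = 1 + t * r := by
        rw [pow_succ]
        field_simp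
        ring
      rw [this]; exact h2
  · have h5 : Fintype.card F - 2 = 2 * (H - 1) + 1 := by omega
    rw [h5, hvo, show (0 : ℕ) = 2 * 0 by ring, hve]
    have h6 : r ^ (H - 1) * r = 1 := by
      rw [← pow_succ, show H - 1 + 1 = H by omega, hrH]
    have h7 : (r ^ (H - 1))⁻¹ = r := inv_eq_of_mul_eq_one_right h6
    rw [h7, pow_zero, mul_one, add_comm]; exact h2

/-- closing for `q ≡ 3 mod 4` -/
theorem hasCyc_three (h4 : Fintype.card F % 4 = 3) {x : F} (hx : Prim x)
    (hns : ¬ IsSquare (x - 1)) : HasCyc F := by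
  obtain ⟨H, hH⟩ : ∃ H, Fintype.card F - 1 = 2 * H := ⟨(Fintype.card F - 1) / 2, by omega⟩
  have hHodd : H % 2 = 1 := by omega
  have hx0 := hx.ne_zero
  have hxH := hx.pow_half hH
  -- `r = -1/x` has order `H`
  have hxi : Prim x⁻¹ := hx.inv
  have hr : orderOf (-x⁻¹) = H := by
    have h2 : -x⁻¹ = (x⁻¹) ^ (H + 1) := by rw [pow_succ, hxi.pow_half hH]; ring
    rw [h2, orderOf_pow' _ (by omega)]
    unfold Prim at hxi
    rw [hxi]
    have : Nat.gcd (Fintype.card F - 1) (H + 1) = 2 := by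
      rw [hH]
      obtain ⟨m, hm⟩ : ∃ m, H = 2 * m + 1 := ⟨H / 2, by omega⟩
      subst hm
      rw [show 2 * m + 1 + 1 = 2 * (m + 1) by ring, Nat.gcd_mul_left]
      have : Nat.gcd (2 * m + 1) (m + 1) = 1 := by
        have h3 : Nat.gcd (2 * m + 1) (m + 1) ∣ 1 := by
          have ha := Nat.gcd_dvd_left (2 * m + 1) (m + 1)
          have hb := Nat.gcd_dvd_right (2 * m + 1) (m + 1)
          have hc : Nat.gcd (2 * m + 1) (m + 1) ∣ 2 * (m + 1) := Dvd.dvd.mul_left hb 2
          have := Nat.dvd_sub hc ha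
          rwa [show 2 * (m + 1) - (2 * m + 1) = 1 by omega] at this
        exact Nat.dvd_one.mp h3
      rw [this]
    rw [this, hH]
    omega
  refine hasCyc_of_ratio hH hr hns ?_ ?_
  · rw [show 1 + (x - 1) = x by ring]; exact hx
  · have : 1 + (x - 1) * -x⁻¹ = x⁻¹ := by field_simp; ring
    rw [this]; exact hxi

end R457.CP
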