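import Mathlib
import Pool.Agent.R457.CP.Defs
import Pool.Agent.R457.CP.Path

namespace R457.CP

open Finset

variable {F : Type*} [Field F] [Fintype F]

theorem Prim.comm' {a b : F} (h : Prim (a * b + 1)) : Prim (b * a + 1) := by
  rwa [mul_comm]

/-- reindexing a Hamiltonian path into a Hamiltonian cycle -/
theorem hasCyc_of_reindex {v : ℕ → F} (hp : IsPath v) (π : ℕ → ℕ)
    (h1 : ∀ j, j < Fintype.card F - 1 → π j < Fintype.card F - 1)
    (h2 : ∀ a b, a < Fintype.card F - 1 → b < Fintype.card F - 1 → π a = π b → a = b)
    (h3 : ∀ j, j + 1 < Fintype.card F - 1 → π (j + 1) = π j + 1 ∨ π j = π (j + 1) + 1 ∨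
      Prim (v (π j) * v (π (j + 1)) + 1))
    (h4 : Prim (v (π (Fintype.card F - 2)) * v (π 0) + 1)) : HasCyc F := by
  refine ⟨fun j => v (π j), fun i hi => hp.ne0 _ (h1 i hi), ?_, ?_, h4⟩
  · intro i j hi hj hij
    exact h2 i j hi hj (hp.inj _ _ (h1 i hi) (h1 j hj) hij)
  · intro i hi
    show Prim (v (π i) * v (π (i + 1)) + 1)
    rcases h3 i hi with h | h | h
    · rw [h]
      exact hp.adj _ (by have := h1 (i + 1) hi; omega)
    · rw [h]
      exact (hp.adj _ (by have := h1 i (by omega); omega)).comm'
    · exact h

theorem cyc_one {v : ℕ → F} (hp : IsPath v) {i k : ℕ} (hik : i < k)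
    (hk : k + 1 < Fintype.card F - 1)
    (ha : Prim (v 0 * v (i + 1) + 1)) (hb : Prim (v (Fintype.card F - 2) * v k + 1))
    (hc : Prim (v i * v (k + 1) + 1)) : HasCyc F := by
  obtain ⟨N, hN⟩ : ∃ N, Fintype.card F = N + 2 := ⟨Fintype.card F - 2, by omega⟩
  have e1 : Fintype.card F - 1 = N + 1 := by omega
  have e2 : Fintype.card F - 2 = N := by omega
  rw [e1] at hk
  rw [e2] at hb
  refine hasCyc_of_reindex hp
    (fun j => if j ≤ i then i - j else if j ≤ k then j else N + 1 + k - j) ?_ ?_ ?_ ?_
  · intro j hj
    rw [e1] at hj ⊢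
    try dsimp only
    split_ifs <;> omega
  · intro a b ha hb hab
    rw [e1] at ha hb
    try dsimp only at hab
    split_ifs at hab <;> omega
  · intro j hj
    rw [e1] at hj
    try dsimp only
    by_cases h1 : j + 1 ≤ i
    · right; left
      rw [if_pos h1, if_pos (by omega)]; omega
    by_cases h2 : j = i
    · subst h2
      right; right
      rw [if_pos le_rfl, if_neg (by omega), if_pos (by omega), Nat.sub_self]
      exact ha
    by_cases h3 : j + 1 ≤ k
    · left
      rw [if_neg h1, if_pos h3, if_neg (by omega), if_pos (by omega)]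
    by_cases h4 : j = k
    · subst h4
      right; right
      rw [if_neg (by omega), if_pos le_rfl, if_neg h1, if_neg h3,
        show N + 1 + j - (j + 1) = N by omega]
      exact hb.comm'
    · right; left
      rw [if_neg h1, if_neg h3, if_neg (by omega), if_neg (by omega)]; omega
  · rw [e2]
    try dsimp only
    rw [if_neg (by omega), if_neg (by omega), if_pos (by omega), Nat.sub_zero,
      show N + 1 + k - N = k + 1 by omega]
    exact hc.comm'

theorem cyc_two {v : ℕ → F} (hp : IsPath v) {i k : ℕ} (hk0 : 1 ≤ k) (hik : k ≤ i)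
    (hi : i + 1 < Fintype.card F - 1)
    (ha : Prim (v 0 * v (i + 1) + 1)) (hb : Prim (v (Fintype.card F - 2) * v k + 1))
    (hc : Prim (v i * v (k - 1) + 1)) : HasCyc F := by
  obtain ⟨N, hN⟩ : ∃ N, Fintype.card F = N + 2 := ⟨Fintype.card F - 2, by omega⟩
  have e1 : Fintype.card F - 1 = N + 1 := by omega
  have e2 : Fintype.card F - 2 = N := by omega
  rw [e1] at hi
  rw [e2] at hb
  refine hasCyc_of_reindex hp
    (fun j => if j < k then k - 1 - j else if j < k + N - i then i + 1 + (j - k)
      else j + i - N) ?_ ?_ ?_ ?_
  · intro j hj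
    rw [e1] at hj ⊢
    try dsimp only
    split_ifs <;> omega
  · intro a b ha hb hab
    rw [e1] at ha hb
    try dsimp only at hab
    split_ifs at hab <;> omega
  · intro j hj
    rw [e1] at hj
    try dsimp only
    by_cases h1 : j + 1 < k
    · right; left
      rw [if_pos h1, if_pos (by omega)]; omega
    by_cases h2 : j + 1 = k
    · right; right
      rw [if_pos (by omega), if_neg (by omega), if_pos (by omega),
        show k - 1 - j = 0 by omega, show i + 1 + (j + 1 - k) = i + 1 by omega]
      exact ha
    by_cases h3 : j + 1 < k + N - i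
    · left
      rw [if_neg h1, if_pos h3, if_neg (by omega), if_pos (by omega)]; omega
    by_cases h4 : j + 1 = k + N - i
    · right; right
      rw [if_neg (by omega), if_pos (by omega), if_neg (by omega), if_neg (by omega),
        show i + 1 + (j - k) = N by omega, show j + 1 + i - N = k by omega]
      exact hb
    · left
      rw [if_neg h1, if_neg h3, if_neg (by omega), if_neg (by omega)]; omega
  · rw [e2]
    try dsimp only
    rw [if_neg (by omega), if_neg (by omega), if_pos (by omega),
      show N + i - N = i by omega, Nat.sub_zero]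
    exact hc

/-! ### counting -/

open Classical in
theorem card_prim (F : Type*) [Field F] [Fintype F] :
    ((univ : Finset F).filter (fun x => Prim x)).card = Nat.totient (Fintype.card F - 1) := by
  have hcu : Fintype.card Fˣ = Fintype.card F - 1 := Fintype.card_units F
  rw [← hcu, ← IsCyclic.card_orderOf_eq_totient (α := Fˣ) (dvd_refl _)]
  symm
  apply Finset.card_bij (fun (u : Fˣ) _ => (u : F))
  · intro u hu
    rw [mem_filter] at hu ⊢
    refine ⟨mem_univ _, ?_⟩
    unfold Prim
    rw [orderOf_units, hu.2, hcu]
  · intro a _ b _ hab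
    exact Units.ext hab
  · intro x hx
    rw [mem_filter] at hx
    refine ⟨Units.mk0 x hx.2.ne_zero, ?_, rfl⟩
    rw [mem_filter]
    refine ⟨mem_univ _, ?_⟩
    rw [hcu]
    exact (prim_iff_units _).mp hx.2

theorem not_prim_one (h : 2 < Fintype.card F) : ¬ Prim (1 : F) := by
  unfold Prim
  rw [orderOf_one]
  omega

open Classical in
/-- the number of neighbours of a vertex -/
theorem card_nbr {v : ℕ → F} (hp : IsPath v) (h : 2 < Fintype.card F) {u : F} (hu : u ≠ 0) :
    ((range (Fintype.card F - 1)).filter (fun j => Prim (u * v j + 1))).card =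
      Nat.totient (Fintype.card F - 1) := by
  rw [← card_prim F]
  have himg : (range (Fintype.card F - 1)).image v = univ.erase (0 : F) := by
    apply Finset.eq_of_subset_of_card_le
    · intro y hy
      rw [mem_image] at hy
      obtain ⟨j, hj, rfl⟩ := hy
      rw [mem_erase]
      exact ⟨hp.ne0 j (mem_range.mp hj), mem_univ _⟩
    · rw [card_erase_of_mem (mem_univ _), card_univ, card_image_of_injOn, card_range]
      intro a ha b hb hab
      exact hp.inj a b (by simpa using ha) (by simpa using hb) hab
  apply Finset.card_bij (fun j _ => u * v j + 1)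
  · intro j hj
    rw [mem_filter] at hj ⊢
    exact ⟨mem_univ _, hj.2⟩
  · intro a ha b hb hab
    rw [mem_filter, mem_range] at ha hb
    have h1 : u * v a = u * v b := by linear_combination hab
    exact hp.inj a b ha.1 hb.1 (mul_left_cancel₀ hu h1)
  · intro x hx
    rw [mem_filter] at hx
    have hx1 : x ≠ 1 := by
      rintro rfl
      exact not_prim_one h hx.2
    have hy : (x - 1) / u ∈ (range (Fintype.card F - 1)).image v := by
      rw [himg, mem_erase]
      exact ⟨div_ne_zero (sub_ne_zero.mpr hx1) hu, mem_univ _⟩
    rw [mem_image] at hy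
    obtain ⟨j, hj, hjx⟩ := hy
    refine ⟨j, ?_, ?_⟩
    · rw [mem_filter]
      refine ⟨hj, ?_⟩
      rw [hjx, mul_div_cancel₀ _ hu, sub_add_cancel]
      exact hx.2
    · rw [hjx, mul_div_cancel₀ _ hu, sub_add_cancel]

theorem exists_split (A : Finset ℕ) (t : ℕ) (ht : t ≤ A.card) :
    ∃ θ, (A.filter (fun a => a < θ)).card = t := by
  induction t with
  | zero => exact ⟨0, by simp⟩
  | succ t ih =>
    obtain ⟨θ, hθ⟩ := ih (by omega)
    -- take the least element of `A` that is `≥ θ`
    have hne : (A.filter (fun a => θ ≤ a)).Nonempty := by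
      rw [← card_pos]
      have h1 := card_filter_add_card_filter_not (s := A) (fun a => a < θ)
      have h2 : A.filter (fun a => ¬ a < θ) = A.filter (fun a => θ ≤ a) := by
        apply filter_congr; intro a _; exact not_lt
      rw [h2] at h1
      omega
    set a := (A.filter (fun a => θ ≤ a)).min' hne with ha
    have hmem := min'_mem _ hne
    rw [← ha, mem_filter] at hmem
    refine ⟨a + 1, ?_⟩
    have : A.filter (fun b => b < a + 1) = insert a (A.filter (fun b => b < θ)) := by
      ext b
      rw [mem_filter, mem_insert, mem_filter]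
      constructor
      · rintro ⟨hb, hlt⟩
        by_cases hbθ : b < θ
        · exact Or.inr ⟨hb, hbθ⟩
        · left
          have : a ≤ b := min'_le _ _ (by rw [mem_filter]; exact ⟨hb, not_lt.mp hbθ⟩)
          omega
      · rintro (rfl | ⟨hb, hlt⟩)
        · exact ⟨hmem.1, by omega⟩
        · exact ⟨hb, by omega⟩
    rw [this, card_insert_of_notMem, hθ]
    rw [mem_filter]
    omega

open Classical in
/-- rotation–closure with the mixing property -/
theorem hasCyc_of_path {v : ℕ → F} (hp : IsPath v) (h3 : 3 < Fintype.card F)
    (hmix : ∀ X Y : Finset F, (0 : F) ∉ X → (0 : F) ∉ Y →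
      4 ^ (Fintype.card F - 1).primeFactors.card * Fintype.card F < X.card * Y.card →
      ∃ x ∈ X, ∃ y ∈ Y, Prim (x * y + 1))
    (hc : Crit (Fintype.card F - 1)) : HasCyc F := by
  obtain ⟨M, hM⟩ : ∃ M, Fintype.card F - 1 = M + 1 := ⟨Fintype.card F - 2, by omega⟩
  have hM2 : Fintype.card F - 2 = M := by omega
  set φ := Nat.totient (Fintype.card F - 1) with hφ
  set A := (range M).filter (fun i => Prim (v 0 * v (i + 1) + 1)) with hA
  set B := (range M).filter (fun k => Prim (v M * v k + 1)) with hB
  have hAc : φ ≤ A.card + 1 := by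
    rw [hφ, ← card_nbr hp (by omega) (hp.ne0 0 (by omega)), hM]
    calc _ ≤ (insert 0 (A.image (· + 1))).card := by
          apply card_le_card
          intro j hj
          rw [mem_filter, mem_range] at hj
          rw [mem_insert]
          rcases Nat.eq_zero_or_pos j with h | h
          · left; exact h
          · right
            rw [mem_image]
            refine ⟨j - 1, ?_, by omega⟩
            rw [hA, mem_filter, mem_range, show j - 1 + 1 = j by omega]
            exact ⟨by omega, hj.2⟩
      _ ≤ (A.image (· + 1)).card + 1 := card_insert_le _ _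
      _ ≤ A.card + 1 := by
          have := card_image_le (s := A) (f := (· + 1))
          omega
  have hBc : φ ≤ B.card + 1 := by
    rw [hφ, ← card_nbr hp (by omega) (hp.ne0 M (by omega)), hM]
    calc _ ≤ (insert M B).card := by
          apply card_le_card
          intro j hj
          rw [mem_filter, mem_range] at hj
          rw [mem_insert, hB, mem_filter, mem_range]
          rcases Nat.eq_or_lt_of_le (Nat.lt_succ_iff.mp hj.1) with h | h
          · left; exact h
          · right; exact ⟨h, hj.2⟩
      _ ≤ B.card + 1 := card_insert_le _ _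
  have hcrit : 4 * 4 ^ (Fintype.card F - 1).primeFactors.card * Fintype.card F < (φ - 2) ^ 2 := by
    have := hc
    unfold Crit at this
    rwa [show Fintype.card F - 1 + 1 = Fintype.card F by omega] at this
  -- if the ends are adjacent we are done
  by_cases h0 : Prim (v M * v 0 + 1)
  · exact ⟨v, hp.ne0, hp.inj, hp.adj, by rw [hM2]; exact h0⟩
  obtain ⟨θ, hθ⟩ := exists_split A (A.card / 2) (by omega)
  have hA2 := card_filter_add_card_filter_not (s := A) (fun a => a < θ)
  have hB2 := card_filter_add_card_filter_not (s := B) (fun a => a < θ)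
  have hbig : ∀ a b : ℕ, φ - 2 ≤ 2 * a → φ - 2 ≤ 2 * b →
      4 ^ (Fintype.card F - 1).primeFactors.card * Fintype.card F < a * b := by
    intro a b ha hb
    have : (φ - 2) ^ 2 ≤ (2 * a) * (2 * b) := by
      rw [sq]; exact Nat.mul_le_mul ha hb
    nlinarith
  rcases le_total ((B.filter (fun a => a < θ)).card) ((B.filter (fun a => ¬ a < θ)).card)
    with hcase | hcase
  · -- high part of `B`
    obtain ⟨x, hx, y, hy, hxy⟩ := hmix ((A.filter (fun a => a < θ)).image v)
      ((B.filter (fun a => ¬ a < θ)).image (fun k => v (k + 1))) (by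
        rw [mem_image]
        rintro ⟨i, hi, hi0⟩
        rw [mem_filter, hA, mem_filter, mem_range] at hi
        exact hp.ne0 i (by omega) hi0) (by
        rw [mem_image]
        rintro ⟨i, hi, hi0⟩
        rw [mem_filter, hB, mem_filter, mem_range] at hi
        exact hp.ne0 (i + 1) (by omega) hi0) (by
        rw [card_image_of_injOn, card_image_of_injOn]
        · apply hbig <;> omega
        · intro a ha b hb hab
          rw [mem_coe, mem_filter, hB, mem_filter, mem_range] at ha hb
          have := hp.inj (a + 1) (b + 1) (by omega) (by omega) hab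
          omega
        · intro a ha b hb hab
          rw [mem_coe, mem_filter, hA, mem_filter, mem_range] at ha hb
          exact hp.inj a b (by omega) (by omega) hab)
    rw [mem_image] at hx hy
    obtain ⟨i, hi, rfl⟩ := hx
    obtain ⟨k, hk, rfl⟩ := hy
    rw [mem_filter, hA, mem_filter, mem_range] at hi
    rw [mem_filter, hB, mem_filter, mem_range] at hk
    exact cyc_one hp (i := i) (k := k) (by omega) (by omega) hi.1.2
      (by rw [hM2]; exact hk.1.2) hxy
  · -- low part of `B`
    obtain ⟨x, hx, y, hy, hxy⟩ := hmix ((A.filter (fun a => ¬ a < θ)).image v)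
      ((B.filter (fun a => a < θ)).image (fun k => v (k - 1))) (by
        rw [mem_image]
        rintro ⟨i, hi, hi0⟩
        rw [mem_filter, hA, mem_filter, mem_range] at hi
        exact hp.ne0 i (by omega) hi0) (by
        rw [mem_image]
        rintro ⟨i, hi, hi0⟩
        rw [mem_filter, hB, mem_filter, mem_range] at hi
        exact hp.ne0 (i - 1) (by omega) hi0) (by
        rw [card_image_of_injOn, card_image_of_injOn]
        · apply hbig <;> omega
        · intro a ha b hb hab
          rw [mem_coe, mem_filter, hB, mem_filter, mem_range] at ha hb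
          have ha0 : a ≠ 0 := by rintro rfl; exact h0 ha.1.2
          have hb0 : b ≠ 0 := by rintro rfl; exact h0 hb.1.2
          have := hp.inj (a - 1) (b - 1) (by omega) (by omega) hab
          omega
        · intro a ha b hb hab
          rw [mem_coe, mem_filter, hA, mem_filter, mem_range] at ha hb
          exact hp.inj a b (by omega) (by omega) hab)
    rw [mem_image] at hx hy
    obtain ⟨i, hi, rfl⟩ := hx
    obtain ⟨k, hk, rfl⟩ := hy
    rw [mem_filter, hA, mem_filter, mem_range] at hi
    rw [mem_filter, hB, mem_filter, mem_range] at hk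
    have hk0 : k ≠ 0 := by rintro rfl; exact h0 hk.1.2
    exact cyc_two hp (i := i) (k := k) (by omega) (by omega) (by omega) hi.1.2
      (by rw [hM2]; exact hk.1.2) hxy

end R457.CP
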