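import Mathlib
import Pool.Agent.R457.CP.Defs
import Pool.Agent.R457.CP.Path
import Pool.Agent.R457.CP.Rot

namespace R457.CP

open Finset

variable {F : Type*} [Field F] [Fintype F]

theorem exists_prim (F : Type*) [Field F] [Fintype F] : ∃ x : F, Prim x := by
  classical
  have h := card_prim F
  have h1 : 0 < ((univ : Finset F).filter (fun x => Prim x)).card := by
    rw [h]
    exact Nat.totient_pos.mpr (card_pos_sub F)
  obtain ⟨x, hx⟩ := card_pos.mp h1
  exact ⟨x, (mem_filter.mp hx).2⟩

theorem char_two_of_even (h2 : Fintype.card F % 2 = 0) : (2 : F) = 0 := by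
  have h5 : ((Fintype.card F : ℕ) : F) = 0 := Nat.cast_card_eq_zero F
  have hcard : 1 < Fintype.card F := Fintype.one_lt_card
  obtain ⟨p, hp⟩ := CharP.exists F
  have hpp : p.Prime := (CharP.char_is_prime_or_zero F p).resolve_right (by
    rintro rfl
    have := (CharP.cast_eq_zero_iff F 0 (Fintype.card F)).mp h5
    omega)
  obtain ⟨n, hn, hq⟩ := FiniteField.card F p
  have h6 : p = 2 := by
    have h7 : 2 ∣ p ^ (n : ℕ) := by rw [← hq]; omega
    exact ((Nat.prime_dvd_prime_iff_eq Nat.prime_two hpp).mp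
      (Nat.prime_two.dvd_of_dvd_pow h7)).symm
  subst h6
  exact_mod_cast CharP.cast_eq_zero F 2

/-- a Hamiltonian path for even `q` -/
theorem exists_path_even (h2 : Fintype.card F % 2 = 0) (h3 : 3 < Fintype.card F) :
    ∃ v : ℕ → F, IsPath v := by
  obtain ⟨y, hy⟩ := exists_prim F
  have hy0 := hy.ne_zero
  have hy1 : y ≠ 1 := by
    rintro rfl
    exact not_prim_one (by omega) hy
  have hch : (2 : F) = 0 := char_two_of_even h2
  have hcop : Nat.gcd (Fintype.card F - 1) 2 = 1 := by
    have : Nat.Coprime 2 (Fintype.card F - 1) := by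
      rw [Nat.coprime_two_left, Nat.odd_iff]; omega
    exact this.symm
  have hw : Prim (y ^ 2) := by
    unfold Prim
    rw [orderOf_pow' y (by norm_num)]
    unfold Prim at hy
    rw [hy, hcop, Nat.div_one]
  have hc : y + 1 ≠ 0 := by
    intro h
    apply hy1
    linear_combination h - hch
  have h1 : Prim (1 + (y + 1) ^ 2) := by
    have : 1 + (y + 1) ^ 2 = y ^ 2 := by
      linear_combination (1 + y) * hch
    rw [this]; exact hw
  have h4 : Prim (1 + (y + 1) ^ 2 * (y ^ 2)⁻¹) := by
    have : 1 + (y + 1) ^ 2 * (y ^ 2)⁻¹ = (y ^ 2)⁻¹ := by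
      have hy2 : y ^ 2 ≠ 0 := pow_ne_zero _ hy0
      field_simp
      linear_combination (y ^ 2 + y) * hch
    rw [this]; exact hw.inv
  exact ⟨_, isPath_zz hc hw h1 h4⟩

/-- a Hamiltonian path for `q ≡ 1 mod 4` -/
theorem exists_path_one (h4 : Fintype.card F % 4 = 1) : ∃ v : ℕ → F, IsPath v := by
  have hcard : 1 < Fintype.card F := Fintype.one_lt_card
  obtain ⟨x, hx⟩ := exists_prim F
  have hx0 := hx.ne_zero
  have hx1 : x ≠ 1 := by
    rintro rfl
    exact not_prim_one (by omega) hx
  obtain ⟨H, hH⟩ : ∃ H, Fintype.card F - 1 = 2 * H := ⟨(Fintype.card F - 1) / 2, by omega⟩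
  have hHe : Even H := by rw [Nat.even_iff]; omega
  have hch : ringChar F ≠ 2 := by
    intro h2c
    have := FiniteField.even_card_iff_char_two.mp h2c
    omega
  -- a primitive `x` with `x - 1` a square
  have key : ∃ x' : F, Prim x' ∧ IsSquare (x' - 1) := by
    by_contra hcon
    push Not at hcon
    have h1 := hcon x hx
    have h2 := hcon x⁻¹ hx.inv
    have ha0 : x - 1 ≠ 0 := sub_ne_zero.mpr hx1
    have hb0 : x⁻¹ - 1 ≠ 0 := by
      rw [sub_ne_zero]
      intro h
      apply hx1
      rw [← inv_inv x, h, inv_one]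
    have hc2 : Fintype.card F / 2 = H := by omega
    rw [FiniteField.isSquare_iff hch ha0, hc2] at h1
    rw [FiniteField.isSquare_iff hch hb0, hc2] at h2
    have h1' : (x - 1) ^ H = -1 := by
      have := FiniteField.pow_dichotomy hch ha0
      rw [hc2] at this
      exact this.resolve_left h1
    have h2' : (x⁻¹ - 1) ^ H = -1 := by
      have := FiniteField.pow_dichotomy hch hb0
      rw [hc2] at this
      exact this.resolve_left h2
    have h5 : (x⁻¹ - 1) = -(x - 1) * x⁻¹ := by field_simp; ring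
    rw [h5, mul_pow, hHe.neg_pow, h1', inv_pow, hx.pow_half hH] at h2'
    -- -1 * (-1)⁻¹ = -1
    have h6 : (2 : F) = 0 := by
      have h7 : (-1 : F) * (-1)⁻¹ = 1 := mul_inv_cancel₀ (neg_ne_zero.mpr one_ne_zero)
      rw [h7] at h2'
      linear_combination h2'
    exact (Ring.two_ne_zero hch) h6
  obtain ⟨x', hx', c, hc⟩ := key
  have hx'1 : x' ≠ 1 := by
    rintro rfl
    exact not_prim_one (by omega) hx'
  have hc0 : c ≠ 0 := by
    rintro rfl
    apply hx'1
    linear_combination hc
  have hxc : x' = 1 + c ^ 2 := by linear_combination hc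
  rw [hxc] at hx'
  have hw : Prim (-(1 + c ^ 2)) := hx'.neg h4
  have h3 : Prim (1 + c ^ 2 * (-(1 + c ^ 2))⁻¹) := by
    have : 1 + c ^ 2 * (-(1 + c ^ 2))⁻¹ = (1 + c ^ 2)⁻¹ := by
      have := hw.ne_zero
      have := hx'.ne_zero
      field_simp
      ring
    rw [this]; exact hx'.inv
  exact ⟨_, isPath_zz hc0 hw hx' h3⟩

/-- from the sequence form to a circular permutation indexed by `ZMod (q-1)` -/
theorem circular_of_hasCyc (h2 : 2 < Fintype.card F) (h : HasCyc F) :
    ∃ b : ZMod (Fintype.card F - 1) ≃ Fˣ, ∀ i,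
      ((b i : F) * (b (i + 1) : F) + 1 ≠ 0) ∧
      orderOf ((b i : F) * (b (i + 1) : F) + 1) = Fintype.card F - 1 := by
  obtain ⟨v, h0, hinj, hadj, hcl⟩ := h
  obtain ⟨M, hM⟩ : ∃ M, Fintype.card F - 1 = M + 1 := ⟨Fintype.card F - 2, by omega⟩
  have hM2 : Fintype.card F - 2 = M := by omega
  haveI : NeZero (Fintype.card F - 1) := ⟨by omega⟩
  haveI : Fact (1 < Fintype.card F - 1) := ⟨by omega⟩
  classical
  let f : ZMod (Fintype.card F - 1) → Fˣ := fun i =>
    Units.mk0 (v i.val) (h0 _ (ZMod.val_lt i))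
  have hf : Function.Injective f := by
    intro i j hij
    have h1 : v i.val = v j.val := congrArg Units.val hij
    exact ZMod.val_injective _ (hinj _ _ (ZMod.val_lt i) (ZMod.val_lt j) h1)
  have hbij : Function.Bijective f := by
    rw [Fintype.bijective_iff_injective_and_card]
    refine ⟨hf, ?_⟩
    rw [ZMod.card, Fintype.card_units F]
  refine ⟨Equiv.ofBijective f hbij, fun i => ?_⟩
  have key : Prim (v i.val * v (i + 1).val + 1) := by
    rw [ZMod.val_add, ZMod.val_one]
    have hi := ZMod.val_lt i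
    by_cases hlt : i.val + 1 < Fintype.card F - 1
    · rw [Nat.mod_eq_of_lt hlt]
      exact hadj _ hlt
    · have h3 : i.val = Fintype.card F - 2 := by omega
      rw [show i.val + 1 = Fintype.card F - 1 by omega, Nat.mod_self, h3]
      exact hcl
  exact ⟨key.ne_zero, key⟩

end R457.CP
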