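import Mathlib
import Pool.Agent.R457.CP.Defs

/-!
# MP_1a41ac_nt, piece CP-NUM: the prime powers that fail the criterion
-/

set_option autoImplicit false
set_option maxRecDepth 100000

namespace R457.CP

namespace NumAux

/-! ### the computation -/

def memB : List ℕ → ℕ → Bool
  | [], _ => false
  | x :: xs, n => Nat.beq x n || memB xs n

def strip (d : ℕ) : ℕ → ℕ → ℕ
  | 0, N => N
  | k + 1, N => bif Nat.beq (N % d) 0 then strip d k (N / d) else N

def cert (d r N : ℕ) : Bool :=
  Nat.ble 2 d && Nat.ble 2 r && Nat.beq (N % d) 0 && Nat.beq (N % r) 0 && Nat.beq (Nat.gcd d r) 1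

def trial : List ℕ → ℕ → Bool
  | [], _ => false
  | d :: ds, N => bif Nat.beq (N % d) 0 then cert d (strip d 30 N) N else trial ds N

/-- the odd primes up to 311 -/
def PR : List ℕ :=
  [3, 5, 7, 11, 13, 17, 19, 23, 29, 31, 37, 41, 43, 47, 53, 59, 61, 67, 71, 73, 79, 83, 89, 97,
  101, 103, 107, 109, 113, 127, 131, 137, 139, 149, 151, 157, 163, 167, 173, 179, 181, 191, 193,
  197, 199, 211, 223, 227, 229, 233, 239, 241, 251, 257, 263, 269, 271, 277, 281, 283, 293, 307,
  311]

/-- the primes up to 1400 -/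
def PR2 : List ℕ :=
  [2, 3, 5, 7, 11, 13, 17, 19, 23, 29, 31, 37, 41, 43, 47, 53, 59, 61, 67, 71, 73, 79, 83, 89,
  97, 101, 103, 107, 109, 113, 127, 131, 137, 139, 149, 151, 157, 163, 167, 173, 179, 181, 191,
  193, 197, 199, 211, 223, 227, 229, 233, 239, 241, 251, 257, 263, 269, 271, 277, 281, 283, 293,
  307, 311, 313, 317, 331, 337, 347, 349, 353, 359, 367, 373, 379, 383, 389, 397, 401, 409, 419,
  421, 431, 433, 439, 443, 449, 457, 461, 463, 467, 479, 487, 491, 499, 503, 509, 521, 523, 541,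
  547, 557, 563, 569, 571, 577, 587, 593, 599, 601, 607, 613, 617, 619, 631, 641, 643, 647, 653,
  659, 661, 673, 677, 683, 691, 701, 709, 719, 727, 733, 739, 743, 751, 757, 761, 769, 773, 787,
  797, 809, 811, 821, 823, 827, 829, 839, 853, 857, 859, 863, 877, 881, 883, 887, 907, 911, 919,
  929, 937, 941, 947, 953, 967, 971, 977, 983, 991, 997, 1009, 1013, 1019, 1021, 1031, 1033,
  1039, 1049, 1051, 1061, 1063, 1069, 1087, 1091, 1093, 1097, 1103, 1109, 1117, 1123, 1129,
  1151, 1153, 1163, 1171, 1181, 1187, 1193, 1201, 1213, 1217, 1223, 1229, 1231, 1237, 1249,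
  1259, 1277, 1279, 1283, 1289, 1291, 1297, 1301, 1303, 1307, 1319, 1321, 1327, 1361, 1367,
  1373, 1381, 1399]

def leaf (m f w : ℕ) : Bool :=
  Nat.ble (4 * 4 ^ w * (m + 1) + 1) ((f - 2) ^ 2) || Nat.ble m 99 || memB excP (m + 1) ||
    memB excPP (m + 1) || memB excE (m + 1) || trial PR2 (m + 1)

def cn (p : ℕ) : ℕ := bif Nat.ble p 3 then 4 else 1

def cd (p : ℕ) : ℕ := bif Nat.ble p 2 then 15 else bif Nat.ble p 3 then 5 else 1

def ovr (p m f w : ℕ) : Bool := Nat.ble (9 * 4 ^ w * m * cd p + 1) (2 * f * f * cn p)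

def prune (p m f w : ℕ) : Bool :=
  Nat.ble 7 p && Nat.ble (9 * 4 ^ w * m * (4 * p) + 1) (2 * (p - 1) ^ 2 * (f * f))

def expL (rc : ℕ → ℕ → ℕ → Bool) (p : ℕ) : ℕ → ℕ → ℕ → ℕ → Bool
  | 0, m, f, w => ovr p m f w
  | n + 1, m, f, w => ovr p m f w || (rc m f w && expL rc p n (m * p) (f * p) w)

def check : List ℕ → ℕ → ℕ → ℕ → Bool
  | [], _, _, _ => false
  | p :: ps, m, f, w => bif prune p m f w then leaf m f w else
      (check ps m f w && expL (check ps) p 30 (m * p) (f * (p - 1)) (w + 1))

theorem top1 : check PR 1 1 0 = true := by decide +kernel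

theorem top2 : expL (check PR) 2 30 4 2 1 = true := by decide +kernel

theorem PR_complete : ∀ r ∈ Finset.range 312, r.Prime → r = 2 ∨ r ∈ PR := by decide +kernel

theorem PR_prime : ∀ r ∈ PR, r.Prime ∧ 3 ≤ r ∧ r ≤ 311 := by decide +kernel

theorem PR_sorted : PR.Pairwise (· < ·) := by decide +kernel

theorem small : ∀ n ∈ Finset.range 100, 0 < n → (n % 4 = 0 ∨ n % 2 = 1) →
    (4 * 4 ^ n.primeFactors.card * (n + 1) < (Nat.totient n - 2) ^ 2) ∨
    (memB excP (n + 1) || memB excPP (n + 1) || memB excE (n + 1) || trial PR2 (n + 1)) = true := by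
  decide +kernel


/-! ### soundness -/

theorem memB_sound {l : List ℕ} {n : ℕ} (h : memB l n = true) : n ∈ l := by
  induction l with
  | nil => simp [memB] at h
  | cons x xs ih =>
    rw [memB, Bool.or_eq_true] at h
    rcases h with h | h
    · rw [Nat.eq_of_beq_eq_true h]
      exact List.mem_cons_self
    · exact List.mem_cons_of_mem _ (ih h)

theorem cert_sound {d r N : ℕ} (h : cert d r N = true) : ¬ IsPrimePow N := by
  simp only [cert, Bool.and_eq_true] at h
  obtain ⟨⟨⟨⟨h1, h2⟩, h3⟩, h4⟩, h5⟩ := h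
  have h1 := Nat.le_of_ble_eq_true h1
  have h2 := Nat.le_of_ble_eq_true h2
  have h3 := Nat.dvd_of_mod_eq_zero (Nat.eq_of_beq_eq_true h3)
  have h4 := Nat.dvd_of_mod_eq_zero (Nat.eq_of_beq_eq_true h4)
  have h5 := Nat.eq_of_beq_eq_true h5
  intro hN
  rw [isPrimePow_nat_iff] at hN
  obtain ⟨p, k, hp, hk, rfl⟩ := hN
  have key : ∀ e, 2 ≤ e → e ∣ p ^ k → p ∣ e := by
    intro e he hd
    obtain ⟨j, _, rfl⟩ := (Nat.dvd_prime_pow hp).1 hd
    rcases j with _ | j
    · simp at he
    · exact dvd_pow_self p (Nat.succ_ne_zero j)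
  have := Nat.dvd_gcd (key d h1 h3) (key r h2 h4)
  rw [h5] at this
  exact hp.one_lt.ne' (Nat.dvd_one.1 this)

theorem trial_sound {l : List ℕ} {N : ℕ} (h : trial l N = true) : ¬ IsPrimePow N := by
  induction l with
  | nil => simp [trial] at h
  | cons d ds ih =>
    rw [trial] at h
    cases hb : Nat.beq (N % d) 0 with
    | true => rw [hb, cond_true] at h; exact cert_sound h
    | false => rw [hb, cond_false] at h; exact ih h

/-- the number of prime factors -/
def om (n : ℕ) : ℕ := n.primeFactors.card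

/-- the target -/
def Tgt (n : ℕ) : Prop :=
  100 ≤ n → ¬ Crit n → IsPrimePow (n + 1) → n + 1 ∈ excP ∨ n + 1 ∈ excPP ∨ n + 1 ∈ excE

theorem leaf_sound {m : ℕ} (h : leaf m m.totient (om m) = true) : Tgt m := by
  intro h100 hc hpp
  simp only [leaf, Bool.or_eq_true] at h
  rcases h with ((((h | h) | h) | h) | h) | h
  · exact absurd (Nat.le_of_ble_eq_true h) hc
  · have := Nat.le_of_ble_eq_true h
    omega
  · exact Or.inl (memB_sound h)
  · exact Or.inr (Or.inl (memB_sound h))
  · exact Or.inr (Or.inr (memB_sound h))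
  · exact absurd hpp (trial_sound h)

theorem om_mul {a b : ℕ} (h : Nat.Coprime a b) : om (a * b) = om a + om b := by
  rw [om, Nat.Coprime.primeFactors_mul h, Finset.card_union_of_disjoint h.disjoint_primeFactors]
  rfl

theorem om_prime_pow {p c : ℕ} (hp : p.Prime) (hc : c ≠ 0) : om (p ^ c) = 1 := by
  rw [om, Nat.primeFactors_prime_pow hc hp, Finset.card_singleton]

theorem crit_of_big {n : ℕ} (hn : 100 ≤ n) (h : 9 * 4 ^ om n * n < 2 * n.totient ^ 2) : Crit n := by
  have hA : 4 ≤ 4 ^ om n := by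
    have : 1 ≤ om n := Finset.card_pos.2 (Nat.nonempty_primeFactors.2 (by omega))
    calc 4 = 4 ^ 1 := by norm_num
      _ ≤ 4 ^ om n := Nat.pow_le_pow_right (by norm_num) this
  change 4 * 4 ^ om n * (n + 1) < (n.totient - 2) ^ 2
  generalize 4 ^ om n = A at *
  generalize n.totient = f at *
  have hf : 43 ≤ f := by
    by_contra hc
    have h1 : f ≤ 42 := by omega
    have h2 : f ^ 2 ≤ 42 ^ 2 := Nat.pow_le_pow_left h1 2
    have h3 : 4 * 100 ≤ A * n := Nat.mul_le_mul hA hn
    nlinarith
  obtain ⟨t, rfl⟩ : ∃ t, f = t + 2 := ⟨f - 2, by omega⟩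
  rw [Nat.add_sub_cancel]
  have ht : 41 ≤ t := by omega
  have h1 : 100 * (4 * A * (n + 1)) ≤ 404 * (A * n) := by nlinarith
  nlinarith

/-- the lower bound for a prime power -/
theorem pp_bound {p e : ℕ} (hp : p.Prime) :
    (p - 1) ^ 2 * (4 ^ om (p ^ (e + 1)) * p ^ (e + 1)) ≤ 4 * p * (p ^ (e + 1)).totient ^ 2 := by
  rw [om_prime_pow hp (by omega), Nat.totient_prime_pow_succ hp]
  have h1 : p ^ e ≤ (p ^ e) ^ 2 := Nat.le_self_pow (by norm_num) _
  calc (p - 1) ^ 2 * (4 ^ 1 * p ^ (e + 1)) = 4 * p * (p - 1) ^ 2 * p ^ e := by ring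
    _ ≤ 4 * p * (p - 1) ^ 2 * (p ^ e) ^ 2 := by gcongr
    _ = 4 * p * (p ^ e * (p - 1)) ^ 2 := by ring

theorem L7 : ∀ k : ℕ, 0 < k → (∀ r, r.Prime → r ∣ k → 7 ≤ r) → 4 ^ om k * k ≤ k.totient ^ 2 := by
  intro k
  induction k using Nat.recOnPosPrimePosCoprime with
  | zero => intro h; omega
  | one => intro _ _; simp [om]
  | prime_pow p n hp hn =>
    intro _ hr
    have h7 : 7 ≤ p := hr p hp (dvd_pow_self p hn.ne')
    obtain ⟨e, rfl⟩ : ∃ e, n = e + 1 := ⟨n - 1, by omega⟩
    have h1 := pp_bound (e := e) hp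
    have h2 : 4 * p ≤ (p - 1) ^ 2 := by
      obtain ⟨s, rfl⟩ : ∃ s, p = s + 7 := ⟨p - 7, by omega⟩
      have : s + 7 - 1 = s + 6 := by omega
      rw [this]
      nlinarith
    have h3 : 4 * p * (4 ^ om (p ^ (e + 1)) * p ^ (e + 1)) ≤
        4 * p * (p ^ (e + 1)).totient ^ 2 := (Nat.mul_le_mul_right _ h2).trans h1
    exact Nat.le_of_mul_le_mul_left h3 (by omega)
  | coprime a b ha hb hab iha ihb =>
    intro _ hr
    have h1 := iha (by omega) fun r hr1 hr2 => hr r hr1 (hr2.mul_right b)
    have h2 := ihb (by omega) fun r hr1 hr2 => hr r hr1 (hr2.mul_left a)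
    rw [om_mul hab, Nat.totient_mul hab, pow_add, mul_pow]
    calc 4 ^ om a * 4 ^ om b * (a * b) = (4 ^ om a * a) * (4 ^ om b * b) := by ring
      _ ≤ _ := Nat.mul_le_mul h1 h2

/-- combination of a prime power with the rest -/
theorem comb {r c k x y : ℕ} (hr : r.Prime) (hk : ¬ r ∣ k)
    (h : x * (4 ^ om k * k) ≤ y * k.totient ^ 2) :
    (r - 1) ^ 2 * x * (4 ^ om (r ^ (c + 1) * k) * (r ^ (c + 1) * k)) ≤
      4 * r * y * (r ^ (c + 1) * k).totient ^ 2 := by
  have hc : Nat.Coprime (r ^ (c + 1)) k := ((Nat.Prime.coprime_iff_not_dvd hr).2 hk).pow_left _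
  rw [om_mul hc, Nat.totient_mul hc, pow_add, mul_pow]
  have h1 := pp_bound (e := c) hr
  calc (r - 1) ^ 2 * x * (4 ^ om (r ^ (c + 1)) * 4 ^ om k * (r ^ (c + 1) * k))
      = ((r - 1) ^ 2 * (4 ^ om (r ^ (c + 1)) * r ^ (c + 1))) * (x * (4 ^ om k * k)) := by ring
    _ ≤ (4 * r * (r ^ (c + 1)).totient ^ 2) * (y * k.totient ^ 2) := Nat.mul_le_mul h1 h
    _ = _ := by ring

theorem split {r k : ℕ} (hr : r.Prime) (hk : 0 < k) (h : r ∣ k) :
    ∃ c k', k = r ^ (c + 1) * k' ∧ ¬ r ∣ k' ∧ 0 < k' := by
  obtain ⟨n, m, hm, rfl⟩ := Nat.exists_eq_pow_mul_and_not_dvd hk.ne' r hr.ne_one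
  rcases n with _ | c
  · rw [pow_zero, one_mul] at h
    exact absurd h hm
  · refine ⟨c, m, rfl, hm, Nat.pos_of_ne_zero ?_⟩
    rintro rfl
    simp at hk

theorem L5 (k : ℕ) (hk : 0 < k) (h : ∀ r, r.Prime → r ∣ k → 5 ≤ r) :
    4 * (4 ^ om k * k) ≤ 5 * k.totient ^ 2 := by
  by_cases h5 : 5 ∣ k
  · obtain ⟨c, k', rfl, h1, h2⟩ := split Nat.prime_five hk h5
    have h3 := L7 k' h2 (by
      intro r hr1 hr2
      have h4 := h r hr1 (hr2.mul_left _)
      by_contra hc
      have : r = 5 ∨ r = 6 := by omega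
      rcases this with rfl | rfl
      · exact h1 hr2
      · exact absurd hr1 (by norm_num))
    have h4 := comb (c := c) (x := 1) (y := 1) Nat.prime_five h1 (by omega)
    norm_num at h4
    omega
  · have h3 := L7 k hk (by
      intro r hr1 hr2
      have h4 := h r hr1 hr2
      by_contra hc
      have : r = 5 ∨ r = 6 := by omega
      rcases this with rfl | rfl
      · exact h5 hr2
      · exact absurd hr1 (by norm_num))
    omega

theorem L3 (k : ℕ) (hk : 0 < k) (h : ∀ r, r.Prime → r ∣ k → 3 ≤ r) :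
    4 * (4 ^ om k * k) ≤ 15 * k.totient ^ 2 := by
  by_cases h5 : 3 ∣ k
  · obtain ⟨c, k', rfl, h1, h2⟩ := split Nat.prime_three hk h5
    have h3 := L5 k' h2 (by
      intro r hr1 hr2
      have h4 := h r hr1 (hr2.mul_left _)
      by_contra hc
      have : r = 3 ∨ r = 4 := by omega
      rcases this with rfl | rfl
      · exact h1 hr2
      · exact absurd hr1 (by norm_num))
    have h4 := comb (c := c) (x := 4) (y := 5) Nat.prime_three h1 h3
    norm_num at h4
    omega
  · have h3 := L5 k hk (by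
      intro r hr1 hr2
      have h4 := h r hr1 hr2
      by_contra hc
      have : r = 3 ∨ r = 4 := by omega
      rcases this with rfl | rfl
      · exact h5 hr2
      · exact absurd hr1 (by norm_num))
    omega

/-- the lower bound if the least prime factor is at least `p` -/
theorem Lp {p k : ℕ} (h7 : 7 ≤ p) (hk : 1 < k) (h : ∀ r, r.Prime → r ∣ k → p ≤ r) :
    ∃ r, p ≤ r ∧ (r - 1) ^ 2 * (4 ^ om k * k) ≤ 4 * r * k.totient ^ 2 := by
  obtain ⟨r, hr, hrk⟩ := Nat.exists_prime_and_dvd hk.ne'
  refine ⟨r, h r hr hrk, ?_⟩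
  obtain ⟨c, k', rfl, h1, h2⟩ := split hr (by omega) hrk
  have h3 := L7 k' h2 fun s hs1 hs2 => h7.trans (h s hs1 (hs2.mul_left _))
  have h4 := comb (c := c) (x := 1) (y := 1) hr h1 (by omega)
  simpa using h4

/-- the condition on the remaining factor -/
def Kc (ps : List ℕ) (k : ℕ) : Prop := ∀ r, r.Prime → r ∣ k → r ∈ ps ∨ 311 < r

theorem prune_sound {p m k : ℕ} (h : prune p m m.totient (om m) = true) (hk : 1 < k)
    (hc : Nat.Coprime m k) (hr : ∀ r, r.Prime → r ∣ k → p ≤ r) : Tgt (m * k) := by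
  rw [prune, Bool.and_eq_true] at h
  have h7 := Nat.le_of_ble_eq_true h.1
  have h2 := Nat.le_of_ble_eq_true h.2
  obtain ⟨r, hpr, h3⟩ := Lp h7 hk hr
  intro h100 hcr _
  refine absurd (crit_of_big h100 ?_) hcr
  rw [om_mul hc, Nat.totient_mul hc, pow_add]
  have hB0 : 0 < 4 ^ om k := pow_pos (by norm_num) _
  generalize 4 ^ om m = A at *
  generalize 4 ^ om k = B at *
  generalize m.totient = f at *
  generalize k.totient = g at *
  have hk0 : 0 < k := by omega
  obtain ⟨s, rfl⟩ : ∃ s, p = s + 1 := ⟨p - 1, by omega⟩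
  obtain ⟨t, rfl⟩ : ∃ t, r = t + 1 := ⟨r - 1, by omega⟩
  simp only [Nat.add_sub_cancel] at h2 h3
  have hst : s ≤ t := by omega
  have e1 : s ^ 2 * (t + 1) ≤ t ^ 2 * (s + 1) := by
    have e0 : s ^ 2 ≤ t ^ 2 := Nat.pow_le_pow_left hst 2
    have e00 : s * t * s ≤ s * t * t := Nat.mul_le_mul_left _ hst
    calc s ^ 2 * (t + 1) = s * t * s + s ^ 2 := by ring
      _ ≤ s * t * t + t ^ 2 := Nat.add_le_add e00 e0
      _ = t ^ 2 * (s + 1) := by ring
  have hB : 0 < B * k := Nat.mul_pos hB0 hk0
  -- 9 A m 4 (s+1) < 2 s^2 f^2 ,  t^2 (B k) <= 4 (t+1) g^2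
  have e2 : 9 * A * m * (4 * (s + 1)) * (t + 1) * (B * k) < 2 * s ^ 2 * (f * f) * (t + 1) * (B * k) := by
    have : 9 * A * m * (4 * (s + 1)) < 2 * s ^ 2 * (f * f) := h2
    gcongr
  have e3 : 2 * s ^ 2 * (f * f) * (t + 1) * (B * k) ≤
      2 * (f * f) * (s + 1) * (4 * (t + 1) * g ^ 2) := by
    calc 2 * s ^ 2 * (f * f) * (t + 1) * (B * k)
        = 2 * (f * f) * (B * k) * (s ^ 2 * (t + 1)) := by ring
      _ ≤ 2 * (f * f) * (B * k) * (t ^ 2 * (s + 1)) := by gcongr
      _ = 2 * (f * f) * (s + 1) * (t ^ 2 * (B * k)) := by ring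
      _ ≤ 2 * (f * f) * (s + 1) * (4 * (t + 1) * g ^ 2) := by gcongr
  have e4 := e2.trans_le e3
  have e5 : (4 * (s + 1) * (t + 1)) * (9 * (A * B) * (m * k)) <
      (4 * (s + 1) * (t + 1)) * (2 * (f * g) ^ 2) := by
    calc (4 * (s + 1) * (t + 1)) * (9 * (A * B) * (m * k))
        = 9 * A * m * (4 * (s + 1)) * (t + 1) * (B * k) := by ring
      _ < 2 * (f * f) * (s + 1) * (4 * (t + 1) * g ^ 2) := e4
      _ = _ := by ring
  exact Nat.lt_of_mul_lt_mul_left e5

theorem tot_mul_pow {p m : ℕ} (hp : p.Prime) (h : p ∣ m) (b : ℕ) :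
    (m * p ^ b).totient = m.totient * p ^ b := by
  induction b with
  | zero => simp
  | succ b ih =>
    rw [pow_succ, ← mul_assoc, mul_comm (m * p ^ b) p,
      Nat.totient_mul_of_prime_of_dvd hp (h.mul_right _), ih]
    ring

theorem om_mul_pow {p m : ℕ} (hp : p.Prime) (hm : 0 < m) (h : p ∣ m) (b : ℕ) :
    om (m * p ^ b) = om m := by
  rw [om, om]
  congr 1
  rw [Nat.primeFactors_mul hm.ne' (pow_ne_zero _ hp.ne_zero)]
  rcases Nat.eq_zero_or_pos b with rfl | hb
  · simp
  · rw [Nat.primeFactors_prime_pow hb.ne' hp]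
    refine Finset.union_eq_left.2 ?_
    intro x hx
    rw [Finset.mem_singleton.1 hx]
    exact Nat.mem_primeFactors.2 ⟨hp, h, hm.ne'⟩

theorem ovr_sound {p m k b : ℕ} (hp : p.Prime) (h : ovr p m m.totient (om m) = true) (hm : 0 < m)
    (hpm : p ∣ m) (hk : 0 < k) (hc : Nat.Coprime m k)
    (hl : cn p * (4 ^ om k * k) ≤ cd p * k.totient ^ 2) : Tgt (m * p ^ b * k) := by
  have h2 := Nat.le_of_ble_eq_true h
  intro h100 hcr _
  refine absurd (crit_of_big h100 ?_) hcr
  have hc' : Nat.Coprime (m * p ^ b) k :=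
    Nat.Coprime.mul_left hc ((hc.coprime_dvd_left hpm).pow_left _)
  rw [om_mul hc', Nat.totient_mul hc', om_mul_pow hp hm hpm, tot_mul_pow hp hpm, pow_add]
  have hg : 0 < k.totient := Nat.totient_pos.2 hk
  have hcn : 0 < cn p := by
    unfold cn
    cases Nat.ble p 3 <;> simp
  have hpb : p ^ b ≤ (p ^ b) ^ 2 := Nat.le_self_pow (by norm_num) _
  have hpb0 : 0 < p ^ b := pow_pos hp.pos _
  generalize 4 ^ om m = A at *
  generalize 4 ^ om k = B at *
  generalize m.totient = f at *
  generalize k.totient = g at *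
  generalize cn p = x at *
  generalize cd p = y at *
  generalize p ^ b = z at *
  have h3 : 9 * A * m * y < 2 * f * f * x := h2
  have e1 : x * (9 * (A * B) * (m * z * k)) < x * (2 * (f * z * g) ^ 2) := by
    calc x * (9 * (A * B) * (m * z * k)) = (9 * A * m * z) * (x * (B * k)) := by ring
      _ ≤ (9 * A * m * z) * (y * g ^ 2) := by gcongr
      _ = (9 * A * m * y) * (z * g ^ 2) := by ring
      _ < (2 * f * f * x) * (z * g ^ 2) := by gcongr
      _ ≤ (2 * f * f * x) * (z ^ 2 * g ^ 2) := by gcongr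
      _ = _ := by ring
  exact Nat.lt_of_mul_lt_mul_left e1

theorem expL_sound {rc : ℕ → ℕ → ℕ → Bool} {p : ℕ} (hp : p.Prime) {ps : List ℕ}
    (hrc : ∀ m, rc m m.totient (om m) = true → 0 < m → ∀ k, 0 < k → Kc ps k → Nat.Coprime m k →
      Tgt (m * k))
    (hl : ∀ k, 0 < k → Kc ps k → cn p * (4 ^ om k * k) ≤ cd p * k.totient ^ 2) :
    ∀ n m, expL rc p n m m.totient (om m) = true → 0 < m → p ∣ m →
      ∀ b k, 0 < k → Kc ps k → Nat.Coprime m k → Tgt (m * p ^ b * k) := by
  intro n
  induction n with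
  | zero =>
    intro m h hm hpm b k hk hK hc
    exact ovr_sound hp h hm hpm hk hc (hl k hk hK)
  | succ n ih =>
    intro m h hm hpm b k hk hK hc
    rw [expL, Bool.or_eq_true, Bool.and_eq_true] at h
    rcases h with h | ⟨h1, h2⟩
    · exact ovr_sound hp h hm hpm hk hc (hl k hk hK)
    · rcases b with _ | b
      · rw [pow_zero, mul_one]
        exact hrc m h1 hm k hk hK hc
      · have e1 : m.totient * p = (m * p).totient := by
          have := tot_mul_pow hp hpm 1
          rw [pow_one] at this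
          exact this.symm
        have e2 : om m = om (m * p) := by
          have := om_mul_pow hp hm hpm 1
          rw [pow_one] at this
          exact this.symm
        rw [e1, e2] at h2
        have h3 := ih (m * p) h2 (Nat.mul_pos hm hp.pos) (hpm.mul_right _) b k hk hK
          (Nat.Coprime.mul_left hc (hc.coprime_dvd_left hpm))
        have e3 : m * p ^ (b + 1) * k = m * p * p ^ b * k := by ring
        rw [e3]
        exact h3

theorem check_sound : ∀ ps : List ℕ, (∀ r ∈ ps, r.Prime ∧ 3 ≤ r ∧ r ≤ 311) →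
    ps.Pairwise (· < ·) → ∀ m, check ps m m.totient (om m) = true → 0 < m →
    ∀ k, 0 < k → Kc ps k → Nat.Coprime m k → Tgt (m * k) := by
  intro ps
  induction ps with
  | nil => intro _ _ m h; simp [check] at h
  | cons p ps ih =>
    intro hps hso m h hm k hk hK hc
    have hp := (hps p List.mem_cons_self).1
    have hp3 := (hps p List.mem_cons_self).2.1
    have hp311 := (hps p List.mem_cons_self).2.2
    have hlt := (List.pairwise_cons.1 hso).1
    have ih' := ih (fun r hr => hps r (List.mem_cons_of_mem _ hr)) (List.pairwise_cons.1 hso).2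
    rw [check] at h
    cases hb : prune p m m.totient (om m) with
    | true =>
      rw [hb, cond_true] at h
      rcases Nat.lt_or_ge 1 k with h1 | h1
      · refine prune_sound hb h1 hc fun r hr1 hr2 => ?_
        rcases hK r hr1 hr2 with h3 | h3
        · rcases List.mem_cons.1 h3 with h4 | h4
          · omega
          · exact (hlt r h4).le
        · omega
      · have : k = 1 := by omega
        subst this
        rw [mul_one]
        exact leaf_sound h
    | false =>
      rw [hb, cond_false, Bool.and_eq_true] at h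
      by_cases hpk : p ∣ k
      · obtain ⟨c, k', rfl, h1, h2⟩ := split hp hk hpk
        have hK' : Kc ps k' := by
          intro r hr1 hr2
          rcases hK r hr1 (hr2.mul_left _) with h3 | h3
          · rcases List.mem_cons.1 h3 with h4 | h4
            · exact absurd (h4 ▸ hr2) h1
            · exact Or.inl h4
          · exact Or.inr h3
        have hpm : ¬ p ∣ m := by
          intro h3
          have h4 : p ∣ Nat.gcd m (p ^ (c + 1) * k') :=
            Nat.dvd_gcd h3 ((dvd_pow_self p (Nat.succ_ne_zero c)).mul_right _)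
          rw [hc] at h4
          exact hp.one_lt.ne' (Nat.dvd_one.1 h4)
        have hcmp : Nat.Coprime m p := ((Nat.Prime.coprime_iff_not_dvd hp).2 hpm).symm
        have e1 : m.totient * (p - 1) = (m * p).totient := by
          rw [Nat.totient_mul hcmp, Nat.totient_prime hp]
        have e2 : om m + 1 = om (m * p) := by
          have := om_prime_pow hp one_ne_zero
          rw [pow_one] at this
          rw [om_mul hcmp, this]
        have h3 := h.2
        rw [e1, e2] at h3
        have hl : ∀ k, 0 < k → Kc ps k → cn p * (4 ^ om k * k) ≤ cd p * k.totient ^ 2 := by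
          intro k₂ hk₂ hK₂
          have hgt : ∀ r, r.Prime → r ∣ k₂ → p < r := by
            intro r hr1 hr2
            rcases hK₂ r hr1 hr2 with h3 | h3
            · exact hlt r h3
            · omega
          rcases Nat.lt_or_ge p 4 with h4 | h4
          · have hp3' : p = 3 := by omega
            have h5 : cn p = 4 := by rw [hp3']; rfl
            have h6 : cd p = 5 := by rw [hp3']; rfl
            rw [h5, h6]
            refine L5 k₂ hk₂ fun r hr1 hr2 => ?_
            have h7 := hgt r hr1 hr2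
            by_contra hcc
            have : r = 4 := by omega
            subst this
            exact absurd hr1 (by norm_num)
          · have h5 : Nat.ble p 3 = false := by
              rw [Bool.eq_false_iff]
              intro h6
              have := Nat.le_of_ble_eq_true h6
              omega
            have h6 : Nat.ble p 2 = false := by
              rw [Bool.eq_false_iff]
              intro h6
              have := Nat.le_of_ble_eq_true h6
              omega
            have h7 : cn p = 1 := by rw [cn, h5]; rfl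
            have h8 : cd p = 1 := by rw [cd, h5, h6]; rfl
            rw [h7, h8, one_mul, one_mul]
            refine L7 k₂ hk₂ fun r hr1 hr2 => ?_
            have h9 := hgt r hr1 hr2
            by_contra hcc
            have h10 : r = 5 ∨ r = 6 := by omega
            rcases h10 with rfl | rfl
            · have : p = 4 := by omega
              subst this
              exact absurd hp (by norm_num)
            · exact absurd hr1 (by norm_num)
        have h4 := expL_sound hp ih' hl 30 (m * p) h3 (Nat.mul_pos hm hp.pos)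
          (dvd_mul_left _ _) c k' h2 hK' (by
            refine Nat.Coprime.mul_left ?_ ((Nat.Prime.coprime_iff_not_dvd hp).2 h1)
            exact hc.coprime_dvd_right (dvd_mul_left _ _))
        have e3 : m * (p ^ (c + 1) * k') = m * p * p ^ c * k' := by ring
        rw [e3]
        exact h4
      · refine ih' m h.1 hm k hk ?_ hc
        intro r hr1 hr2
        rcases hK r hr1 hr2 with h3 | h3
        · rcases List.mem_cons.1 h3 with h4 | h4
          · exact absurd (h4 ▸ hr2) hpk
          · exact Or.inl h4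
        · exact Or.inr h3

theorem Kc_odd {k : ℕ} (h : ¬ 2 ∣ k) : Kc PR k := by
  intro r hr1 hr2
  rcases Nat.lt_or_ge 311 r with h1 | h1
  · exact Or.inr h1
  · rcases PR_complete r (Finset.mem_range.2 (by omega)) hr1 with h2 | h2
    · subst h2
      exact absurd hr2 h
    · exact Or.inl h2

end NumAux

open NumAux

theorem num_class (q : ℕ) (hq : IsPrimePow q) (h : q % 4 = 1 ∨ q % 2 = 0) (hc : ¬ Crit (q - 1)) :
    q ∈ excP ∨ q ∈ excPP ∨ q ∈ excE := by
  have hq2 : 2 ≤ q := hq.two_le
  obtain ⟨n, rfl⟩ : ∃ n, q = n + 1 := ⟨q - 1, by omega⟩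
  rw [Nat.add_sub_cancel] at hc
  have hn : n % 4 = 0 ∨ n % 2 = 1 := by omega
  rcases Nat.lt_or_ge n 100 with h1 | h1
  · rcases small n (Finset.mem_range.2 h1) (by omega) hn with h2 | h2
    · exact absurd h2 hc
    · simp only [Bool.or_eq_true] at h2
      rcases h2 with ((h2 | h2) | h2) | h2
      · exact Or.inl (memB_sound h2)
      · exact Or.inr (Or.inl (memB_sound h2))
      · exact Or.inr (Or.inr (memB_sound h2))
      · exact absurd hq (trial_sound h2)
  · have t1 : (1 : ℕ).totient = 1 := Nat.totient_one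
    have o1 : om 1 = 0 := by simp [om]
    have key : Tgt n := by
      rcases hn with hn | hn
      · obtain ⟨c, k, hk1, hk2, hk3⟩ := split Nat.prime_two (by omega : 0 < n) (by omega)
        have hc1 : 1 ≤ c := by
          by_contra hcc
          have : c = 0 := by omega
          subst this
          rw [zero_add, pow_one] at hk1
          omega
        obtain ⟨b, rfl⟩ : ∃ b, c = b + 1 := ⟨c - 1, by omega⟩
        have e4 : (4 : ℕ).totient = 2 := by decide
        have o4 : om 4 = 1 := by
          have := om_prime_pow Nat.prime_two (c := 2) (by norm_num)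
          simpa using this
        have h5 := expL_sound (rc := check PR) (p := 2) (ps := PR) Nat.prime_two
          (check_sound PR PR_prime PR_sorted) (by
            intro k hk hK
            have h6 : cn 2 = 4 := rfl
            have h7 : cd 2 = 15 := rfl
            rw [h6, h7]
            refine L3 k hk fun r hr1 hr2 => ?_
            rcases hK r hr1 hr2 with h8 | h8
            · exact (PR_prime r h8).2.1
            · omega) 30 4 (by rw [e4, o4]; exact top2) (by norm_num) (by norm_num) b k hk3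
          (Kc_odd hk2) (by
            have : Nat.Coprime (2 ^ 2) k := ((Nat.Prime.coprime_iff_not_dvd Nat.prime_two).2 hk2).pow_left 2
            simpa using this)
        have e5 : n = 4 * 2 ^ b * k := by
          rw [hk1]
          ring
        rw [e5]
        exact h5
      · have h5 := check_sound PR PR_prime PR_sorted 1 (by rw [t1, o1]; exact top1) one_pos n
          (by omega) (Kc_odd (by omega)) (Nat.coprime_one_left n)
        rwa [one_mul] at h5
    exact key h1 hc hq

end R457.CP
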